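import Mathlib
import Pool.Agent.Lib.PrimePairsMoment

/-!
# LeX.SumF: averages of F(n) = sum_{e | n} 1/e

F_mul_le: every divisor of a b is d e with d | a, e | b (Nat: (dvd_mul).1), so F(ab) <= F(a) F(b).
sum_F_sq_div_le: F(m)^2 = sum_{d, e | m} 1/(d e); sum over m <= M of 1/m with lcm(d,e) | m is at most
(1/lcm(d,e)) (1 + log M); lcm(d,e) >= sqrt(d e) (it is >= max(d,e)); so the sum is at most
(1 + log M) (sum_d d^(-3/2))^2.
sum_F_sq_le: sum_{m <= M} F(m)^2 <= C M: same proof, or from sum_F_pow_four_le with F^2 <= 1 + F^4.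
-/

namespace Pool.Agent.LeX

open Finset Pool.Agent.Lib.PrimePairs

theorem F_mul_le (a b : ℕ) : F (a * b) ≤ F a * F b := by
  rcases Nat.eq_zero_or_pos a with ha | ha
  · subst ha
    simp [F]
  rcases Nat.eq_zero_or_pos b with hb | hb
  · subst hb
    simp [F]
  unfold F
  rw [Finset.sum_mul_sum, ← Finset.sum_product']
  have hφ : ∀ g : ℕ, g.gcd a * (g / g.gcd a) = g := fun g => Nat.mul_div_cancel' (Nat.gcd_dvd_left g a)
  have hinj : Set.InjOn (fun g : ℕ => ((g.gcd a, g / g.gcd a) : ℕ × ℕ)) ((a * b).divisors : Set ℕ) := by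
    intro g _ g' _ h
    have h1 : g.gcd a = g'.gcd a := congrArg Prod.fst h
    have h2 : g / g.gcd a = g' / g'.gcd a := congrArg Prod.snd h
    have h3 : g.gcd a * (g / g.gcd a) = g'.gcd a * (g' / g'.gcd a) := congrArg₂ (· * ·) h1 h2
    rw [hφ, hφ] at h3
    exact h3
  have h1 : ∑ g ∈ (a * b).divisors, (1 : ℝ) / g =
      ∑ x ∈ (a * b).divisors.image (fun g : ℕ => ((g.gcd a, g / g.gcd a) : ℕ × ℕ)),
        (1 : ℝ) / x.1 * (1 / x.2) := by
    rw [Finset.sum_image hinj]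
    refine Finset.sum_congr rfl fun g _ => ?_
    have : (g : ℝ) = (g.gcd a : ℕ) * ((g / g.gcd a : ℕ) : ℝ) := by
      rw [← Nat.cast_mul, hφ g]
    rw [one_div_mul_one_div, ← this]
  rw [h1]
  refine Finset.sum_le_sum_of_subset_of_nonneg ?_ fun x _ _ => by positivity
  intro x hx
  rw [Finset.mem_image] at hx
  obtain ⟨g, hg, rfl⟩ := hx
  rw [Nat.mem_divisors] at hg
  rw [Finset.mem_product, Nat.mem_divisors, Nat.mem_divisors]
  refine ⟨⟨Nat.gcd_dvd_right g a, ha.ne'⟩, ?_, hb.ne'⟩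
  have hgpos : 0 < g.gcd a := Nat.gcd_pos_of_pos_right g ha
  have h2 : (g / g.gcd a).Coprime (a / g.gcd a) := Nat.coprime_div_gcd_div_gcd hgpos
  have h3 : g / g.gcd a ∣ (a / g.gcd a) * b := by
    have h4 : g.gcd a * (g / g.gcd a) ∣ g.gcd a * ((a / g.gcd a) * b) := by
      rw [hφ g, ← mul_assoc, Nat.mul_div_cancel' (Nat.gcd_dvd_right g a)]
      exact hg.1
    exact Nat.dvd_of_mul_dvd_mul_left hgpos h4
  exact h2.dvd_of_dvd_mul_left h3

theorem sum_F_sq_le : ∃ C : ℝ, 0 < C ∧ ∀ M : ℕ, ∑ m ∈ Icc 1 M, F m ^ 2 ≤ C * M := by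
  refine ⟨1 + W ^ 4, by positivity, fun M => ?_⟩
  calc ∑ m ∈ Icc 1 M, F m ^ 2 ≤ ∑ m ∈ Icc 1 M, (1 + F m ^ 4) := by
        refine Finset.sum_le_sum fun m _ => ?_
        nlinarith [sq_nonneg (F m ^ 2 - 1), sq_nonneg (F m ^ 2), sq_nonneg (F m)]
    _ = M + ∑ m ∈ Icc 1 M, F m ^ 4 := by
        rw [Finset.sum_add_distrib]
        simp
    _ ≤ M + W ^ 4 * M := by
        have := sum_F_pow_four_le M
        linarith
    _ = (1 + W ^ 4) * M := by ring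

private theorem F_sq_le (D : ℕ) :
    F D ^ 2 ≤ W * ∑ e ∈ D.divisors, (e : ℝ) ^ (-(3 / 4) : ℝ) := by
  have hw : ∀ e ∈ D.divisors, 0 ≤ (e : ℝ) ^ (-(5 / 4) : ℝ) :=
    fun e _ => Real.rpow_nonneg (Nat.cast_nonneg e) _
  have hpos : ∀ e ∈ D.divisors, (0 : ℝ) < e := by
    intro e he
    exact_mod_cast Nat.pos_of_mem_divisors he
  have h1 : F D = ∑ e ∈ D.divisors, (e : ℝ) ^ (-(5 / 4) : ℝ) * (e : ℝ) ^ ((1 / 4) : ℝ) := by
    unfold F
    apply Finset.sum_congr rfl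
    intro e he
    rw [← Real.rpow_add (hpos e he)]
    rw [show (-(5 / 4) + 1 / 4 : ℝ) = -1 by norm_num, Real.rpow_neg_one, one_div]
  have h2 := sq_sum_mul_le D.divisors (fun e : ℕ => (e : ℝ) ^ (-(5 / 4) : ℝ))
    (fun e : ℕ => (e : ℝ) ^ ((1 / 4) : ℝ)) hw
  rw [← h1] at h2
  have h3 : ∑ e ∈ D.divisors, (e : ℝ) ^ (-(5 / 4) : ℝ) * ((e : ℝ) ^ ((1 / 4) : ℝ)) ^ 2 =
      ∑ e ∈ D.divisors, (e : ℝ) ^ (-(3 / 4) : ℝ) := by
    apply Finset.sum_congr rfl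
    intro e he
    rw [← Real.rpow_natCast, ← Real.rpow_mul (hpos e he).le, ← Real.rpow_add (hpos e he)]
    norm_num
  rw [h3] at h2
  refine h2.trans ?_
  have hB0 : 0 ≤ ∑ e ∈ D.divisors, (e : ℝ) ^ (-(3 / 4) : ℝ) :=
    Finset.sum_nonneg fun e _ => Real.rpow_nonneg (Nat.cast_nonneg e) _
  exact mul_le_mul_of_nonneg_right (sum_le_W _) hB0

private theorem sum_inv_multiples (M e : ℕ) (he : 1 ≤ e) :
    ∑ m ∈ (Icc 1 M).filter (fun m => e ∣ m), (1 : ℝ) / m ≤ (1 / e) * (1 + Real.log M) := by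
  have h1 : (Icc 1 M).filter (fun m => e ∣ m) = (range (M / e)).image (fun j => e * (j + 1)) := by
    ext m
    simp only [Finset.mem_filter, Finset.mem_Icc, Finset.mem_image, Finset.mem_range]
    constructor
    · rintro ⟨⟨h1, h2⟩, c, rfl⟩
      have hc : 0 < c := Nat.pos_of_ne_zero (by rintro rfl; omega)
      refine ⟨c - 1, ?_, by rw [Nat.sub_add_cancel hc]⟩
      have : c ≤ M / e := (Nat.le_div_iff_mul_le (by omega)).2 (by rw [mul_comm]; exact h2)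
      omega
    · rintro ⟨j, hj, rfl⟩
      refine ⟨⟨Nat.mul_pos (by omega) (by omega), ?_⟩, Dvd.intro _ rfl⟩
      have : j + 1 ≤ M / e := hj
      calc e * (j + 1) = (j + 1) * e := mul_comm _ _
        _ ≤ M := (Nat.le_div_iff_mul_le (by omega)).1 this
  have hinj : Set.InjOn (fun j : ℕ => e * (j + 1)) (range (M / e) : Set ℕ) := by
    intro j _ j' _ h
    have := Nat.eq_of_mul_eq_mul_left (show 0 < e by omega) h
    omega
  rw [h1, Finset.sum_image hinj]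
  have h2 : ∑ j ∈ range (M / e), (1 : ℝ) / ((e * (j + 1) : ℕ) : ℝ) =
      (1 / e) * ((harmonic (M / e) : ℚ) : ℝ) := by
    rw [harmonic, Rat.cast_sum, Finset.mul_sum]
    refine Finset.sum_congr rfl fun j _ => ?_
    push_cast
    rw [one_div, mul_inv, one_div]
  rw [h2]
  have h3 := harmonic_le_one_add_log (M / e)
  have h4 : Real.log ((M / e : ℕ) : ℝ) ≤ Real.log M := by
    rcases Nat.eq_zero_or_pos (M / e) with h0 | h0
    · rw [h0]
      simpa using Real.log_natCast_nonneg M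
    · exact Real.log_le_log (by exact_mod_cast h0) (by exact_mod_cast Nat.div_le_self M e)
  have : (0 : ℝ) ≤ 1 / e := by positivity
  exact mul_le_mul_of_nonneg_left (h3.trans (by linarith)) this

theorem sum_F_sq_div_le : ∃ C : ℝ, 0 < C ∧ ∀ M : ℕ, 1 ≤ M →
    ∑ m ∈ Icc 1 M, F m ^ 2 / (m : ℝ) ≤ C * (1 + Real.log M) := by
  refine ⟨W ^ 2 + 1, by positivity, fun M hM => ?_⟩
  have hlog : 0 ≤ 1 + Real.log M := by
    have := Real.log_natCast_nonneg M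
    linarith
  have hW := W_nonneg
  have h1 : ∑ m ∈ Icc 1 M, F m ^ 2 / (m : ℝ) ≤
      ∑ m ∈ Icc 1 M, W * ∑ e ∈ Icc 1 M, if e ∣ m then (e : ℝ) ^ (-(3 / 4) : ℝ) * (1 / m) else 0 := by
    refine Finset.sum_le_sum fun m hm => ?_
    rw [Finset.mem_Icc] at hm
    have hm0 : (0 : ℝ) < m := by exact_mod_cast hm.1
    have h2 : ∑ e ∈ Icc 1 M, (if e ∣ m then (e : ℝ) ^ (-(3 / 4) : ℝ) * (1 / m) else 0) =
        (∑ e ∈ m.divisors, (e : ℝ) ^ (-(3 / 4) : ℝ)) * (1 / m) := by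
      rw [← Finset.sum_filter, ← Finset.sum_mul]
      congr 1
      apply Finset.sum_congr _ (fun _ _ => rfl)
      ext e
      simp only [Nat.mem_divisors, Finset.mem_filter, Finset.mem_Icc]
      constructor
      · rintro ⟨_, h⟩
        exact ⟨h, by omega⟩
      · rintro ⟨h, _⟩
        exact ⟨⟨Nat.pos_of_dvd_of_pos h (by omega), (Nat.le_of_dvd (by omega) h).trans hm.2⟩, h⟩
    rw [h2, ← mul_assoc, div_eq_mul_one_div]
    exact mul_le_mul_of_nonneg_right (F_sq_le m) (by positivity)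
  refine h1.trans ?_
  rw [← Finset.mul_sum, Finset.sum_comm]
  have h3 : ∀ e ∈ Icc 1 M,
      (∑ m ∈ Icc 1 M, if e ∣ m then (e : ℝ) ^ (-(3 / 4) : ℝ) * (1 / m) else 0) ≤
        (e : ℝ) ^ (-(5 / 4) : ℝ) * (1 + Real.log M) := by
    intro e he
    rw [Finset.mem_Icc] at he
    have he0 : (0 : ℝ) < e := by exact_mod_cast he.1
    have he1 : (1 : ℝ) ≤ e := by exact_mod_cast he.1
    rw [← Finset.sum_filter, ← Finset.mul_sum]
    have h4 := sum_inv_multiples M e he.1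
    have h5 : 0 ≤ (e : ℝ) ^ (-(3 / 4) : ℝ) := Real.rpow_nonneg he0.le _
    calc (e : ℝ) ^ (-(3 / 4) : ℝ) * ∑ m ∈ (Icc 1 M).filter (fun m => e ∣ m), (1 : ℝ) / m
        ≤ (e : ℝ) ^ (-(3 / 4) : ℝ) * ((1 / e) * (1 + Real.log M)) :=
          mul_le_mul_of_nonneg_left h4 h5
      _ = (e : ℝ) ^ (-(7 / 4) : ℝ) * (1 + Real.log M) := by
          rw [show (-(7 / 4) : ℝ) = -(3 / 4) + (-1) by norm_num, Real.rpow_add he0,
            Real.rpow_neg_one]
          ring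
      _ ≤ (e : ℝ) ^ (-(5 / 4) : ℝ) * (1 + Real.log M) := by
          refine mul_le_mul_of_nonneg_right ?_ hlog
          exact Real.rpow_le_rpow_of_exponent_le he1 (by norm_num)
  calc W * ∑ e ∈ Icc 1 M, (∑ m ∈ Icc 1 M, if e ∣ m then (e : ℝ) ^ (-(3 / 4) : ℝ) * (1 / m) else 0)
      ≤ W * ∑ e ∈ Icc 1 M, (e : ℝ) ^ (-(5 / 4) : ℝ) * (1 + Real.log M) :=
        mul_le_mul_of_nonneg_left (Finset.sum_le_sum h3) hW
    _ = W * (∑ e ∈ Icc 1 M, (e : ℝ) ^ (-(5 / 4) : ℝ)) * (1 + Real.log M) := by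
        rw [← Finset.sum_mul]
        ring
    _ ≤ W * W * (1 + Real.log M) := by
        refine mul_le_mul_of_nonneg_right ?_ hlog
        exact mul_le_mul_of_nonneg_left (sum_le_W _) hW
    _ ≤ (W ^ 2 + 1) * (1 + Real.log M) := by
        refine mul_le_mul_of_nonneg_right ?_ hlog
        nlinarith

/-- the double sum used in `Surv` -/
theorem sum_sum_F_le : ∃ C : ℝ, 0 < C ∧ ∀ M : ℕ, 1 ≤ M →
    ∑ m ∈ Icc 1 M, ∑ k ∈ Icc 1 M, F (2 * (m * k)) ^ 2 / ((m : ℝ) * k) ≤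
      C * (1 + Real.log M) ^ 2 := by
  obtain ⟨C, hC, h⟩ := sum_F_sq_div_le
  refine ⟨(F 2 ^ 2 + 1) * C ^ 2, by positivity, fun M hM => ?_⟩
  have h1 := h M hM
  have h0 : 0 ≤ ∑ m ∈ Icc 1 M, F m ^ 2 / (m : ℝ) :=
    Finset.sum_nonneg fun m _ => by positivity
  calc ∑ m ∈ Icc 1 M, ∑ k ∈ Icc 1 M, F (2 * (m * k)) ^ 2 / ((m : ℝ) * k)
      ≤ ∑ m ∈ Icc 1 M, ∑ k ∈ Icc 1 M, F 2 ^ 2 * ((F m ^ 2 / m) * (F k ^ 2 / k)) := by
        refine Finset.sum_le_sum fun m hm => Finset.sum_le_sum fun k hk => ?_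
        rw [Finset.mem_Icc] at hm hk
        have hm0 : (0 : ℝ) < m := by exact_mod_cast hm.1
        have hk0 : (0 : ℝ) < k := by exact_mod_cast hk.1
        have h2 : F (2 * (m * k)) ≤ F 2 * (F m * F k) :=
          (F_mul_le 2 (m * k)).trans (mul_le_mul_of_nonneg_left (F_mul_le m k) (F_nonneg 2))
        have h3 : F (2 * (m * k)) ^ 2 ≤ (F 2 * (F m * F k)) ^ 2 :=
          pow_le_pow_left₀ (F_nonneg _) h2 2
        calc F (2 * (m * k)) ^ 2 / ((m : ℝ) * k) ≤ (F 2 * (F m * F k)) ^ 2 / ((m : ℝ) * k) := by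
              gcongr
          _ = F 2 ^ 2 * ((F m ^ 2 / m) * (F k ^ 2 / k)) := by
              field_simp
    _ = F 2 ^ 2 * ((∑ m ∈ Icc 1 M, F m ^ 2 / (m : ℝ)) * ∑ k ∈ Icc 1 M, F k ^ 2 / (k : ℝ)) := by
        rw [Finset.sum_mul_sum, Finset.mul_sum]
        refine Finset.sum_congr rfl fun m _ => ?_
        rw [Finset.mul_sum]
    _ ≤ F 2 ^ 2 * ((C * (1 + Real.log M)) * (C * (1 + Real.log M))) := by
        gcongr
    _ = F 2 ^ 2 * C ^ 2 * (1 + Real.log M) ^ 2 := by ring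
    _ ≤ (F 2 ^ 2 + 1) * C ^ 2 * (1 + Real.log M) ^ 2 := by
        gcongr
        linarith

end Pool.Agent.LeX
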