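import Mathlib
import Pool.Agent.LeX.SumF

/-!
# LeX.RomDef: definitions for Romanoff's theorem with `x = a^k`
-/

namespace Pool.Agent.LeX

/-- the weight `30^ω(e)/e` -/
noncomputable def hh (e : ℕ) : ℝ := (30 : ℝ) ^ e.primeFactors.card / e

/-- the squarefree numbers coprime to `a` with all prime factors at most `K` -/
noncomputable def EE (a K : ℕ) : Finset ℕ := (primorial K).divisors.filter (fun e => e.Coprime a)

end Pool.Agent.LeX
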