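import Mathlib
import Pool.Agent.LeX.RomDef

/-!
# LeX.RomF: the fourth power of F(m) = sum_{e | m} 1/e

F(m) = sigma(m)/m <= prod_{p | m} (1 - 1/p)^(-1) = prod_{p | m} (1 + 1/(p-1)), and
(1 + 1/(p-1))^4 <= 1 + 30/p for p >= 2 ((1+x)^4 <= 1 + 15 x for 0 <= x <= 1, 1/(p-1) <= 2/p).
(F is multiplicative: F(p^k) <= 1/(1-1/p); or by induction on m with SumF.F_mul_le:
Nat.recOnPosPrimePosCoprime, F (p^k) <= sum of the geometric series, F(ab) <= F(a)F(b).)
So F(m)^4 <= prod_{p | m} (1+30/p).  The primes p > K dividing m are at most log m/log K many, m <=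
a^(3K), so their factors together are <= exp((30/K) * 3 K log a/log K) <= exp(90 log a/log 2) = C_a.
The product over p | m, p <= K is the sum of hh e over the squarefree e | m with all primes <= K
(Finset.prod_one_add over the subsets of the primes; e = product of the subset), all of which are in
EE a K because m is coprime to a.
-/

namespace Pool.Agent.LeX

open Finset Pool.Agent.Lib.PrimePairs

private theorem F_prime_pow_le (p k : ℕ) (hp : p.Prime) : F (p ^ k) ≤ 1 + 2 / (p : ℝ) := by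
  have hp2 : (2 : ℝ) ≤ p := by exact_mod_cast hp.two_le
  have h0 : (0 : ℝ) ≤ 1 / (p : ℝ) := by positivity
  have h1 : (1 : ℝ) / (p : ℝ) < 1 := by
    rw [div_lt_one (by linarith)]
    linarith
  have h2 : F (p ^ k) = ∑ i ∈ range (k + 1), (1 / (p : ℝ)) ^ i := by
    unfold F
    rw [Nat.divisors_prime_pow hp, Finset.sum_map]
    refine Finset.sum_congr rfl fun i _ => ?_
    simp
  rw [h2]
  calc ∑ i ∈ range (k + 1), (1 / (p : ℝ)) ^ i ≤ ∑' i : ℕ, (1 / (p : ℝ)) ^ i :=
        (summable_geometric_of_lt_one h0 h1).sum_le_tsum _ (fun i _ => by positivity)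
    _ = (1 - 1 / (p : ℝ))⁻¹ := tsum_geometric_of_lt_one h0 h1
    _ ≤ 1 + 2 / (p : ℝ) := by
      rw [inv_le_iff_one_le_mul₀' (by linarith)]
      have h3 : (1 - 1 / (p : ℝ)) * (1 + 2 / (p : ℝ)) = 1 + (p - 2) / (p : ℝ) ^ 2 := by
        field_simp
        ring
      rw [h3]
      have h4 : (0 : ℝ) ≤ (p - 2) / (p : ℝ) ^ 2 := div_nonneg (by linarith) (by positivity)
      linarith

private theorem F_nonneg' (m : ℕ) : 0 ≤ F m := by
  unfold F
  exact Finset.sum_nonneg fun i _ => by positivity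

theorem F4_le_prod (m : ℕ) (hm : 1 ≤ m) : F m ^ 4 ≤ ∏ p ∈ m.primeFactors, (1 + 30 / (p : ℝ)) := by
  induction m using Nat.recOnPosPrimePosCoprime with
  | prime_pow p k hp hk =>
    rw [Nat.primeFactors_prime_pow hk.ne' hp, Finset.prod_singleton]
    have hp2 : (2 : ℝ) ≤ p := by exact_mod_cast hp.two_le
    have h1 := F_prime_pow_le p k hp
    set y : ℝ := 2 / (p : ℝ) with hy
    have hy0 : 0 ≤ y := by positivity
    have hy1 : y ≤ 1 := by
      rw [hy, div_le_one (by linarith)]
      exact hp2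
    calc F (p ^ k) ^ 4 ≤ (1 + y) ^ 4 := pow_le_pow_left₀ (F_nonneg' _) h1 4
      _ ≤ 1 + 15 * y := by
        have h2 : y ^ 2 ≤ y := by nlinarith
        have h3 : y ^ 3 ≤ y := by nlinarith
        have h4 : y ^ 4 ≤ y := by nlinarith
        nlinarith
      _ = 1 + 30 / (p : ℝ) := by
        rw [hy]
        ring
  | zero => omega
  | one => simp [F]
  | coprime a b ha hb hab iha ihb =>
    rw [hab.primeFactors_mul, Finset.prod_union hab.disjoint_primeFactors]
    calc F (a * b) ^ 4 ≤ (F a * F b) ^ 4 := pow_le_pow_left₀ (F_nonneg' _) (F_mul_le a b) 4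
      _ = F a ^ 4 * F b ^ 4 := by ring
      _ ≤ _ := mul_le_mul (iha (by omega)) (ihb (by omega)) (pow_nonneg (F_nonneg' _) 4)
        (Finset.prod_nonneg fun p _ => by positivity)

private theorem large_le (a : ℕ) (ha : 2 ≤ a) (K m : ℕ) (hK : 2 ≤ K) (hm : 1 ≤ m)
    (hma : m ≤ a ^ (3 * K)) :
    ∏ p ∈ m.primeFactors.filter (fun p => ¬ p ≤ K), (1 + 30 / (p : ℝ)) ≤
      Real.exp (90 * Real.log a / Real.log 2) := by
  set L := m.primeFactors.filter (fun p => ¬ p ≤ K) with hL
  have hKr : (2 : ℝ) ≤ K := by exact_mod_cast hK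
  have hlog2 : 0 < Real.log 2 := Real.log_pos (by norm_num)
  have hlogK : Real.log 2 ≤ Real.log K := Real.log_le_log (by norm_num) hKr
  have har : (1 : ℝ) ≤ a := by
    have : 1 ≤ a := by omega
    exact_mod_cast this
  have hloga : 0 ≤ Real.log a := Real.log_nonneg har
  have hcard : (L.card : ℝ) * Real.log K ≤ 3 * K * Real.log a := by
    have h1 : K ^ L.card ≤ m := by
      calc K ^ L.card ≤ ∏ p ∈ L, p := by
            rw [← Finset.prod_const]
            refine Finset.prod_le_prod' fun p hp => ?_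
            have := (Finset.mem_filter.1 hp).2
            omega
        _ ≤ m := by
            refine Nat.le_of_dvd hm ?_
            exact (Finset.prod_dvd_prod_of_subset _ _ _ (Finset.filter_subset _ _)).trans
              (Nat.prod_primeFactors_dvd m)
    have h2 : (K : ℝ) ^ L.card ≤ (a : ℝ) ^ (3 * K) := by exact_mod_cast h1.trans hma
    have h3 := Real.log_le_log (by positivity) h2
    rw [Real.log_pow, Real.log_pow] at h3
    push_cast at h3
    exact h3
  have hcard2 : (L.card : ℝ) * Real.log 2 ≤ 3 * K * Real.log a :=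
    (mul_le_mul_of_nonneg_left hlogK (Nat.cast_nonneg _)).trans hcard
  calc ∏ p ∈ L, (1 + 30 / (p : ℝ)) ≤ ∏ _p ∈ L, Real.exp (30 / (K : ℝ)) := by
        refine Finset.prod_le_prod (fun p _ => by positivity) fun p hp => ?_
        have h1 : K < p := not_le.1 (Finset.mem_filter.1 hp).2
        have h2 : (K : ℝ) ≤ p := by exact_mod_cast h1.le
        calc 1 + 30 / (p : ℝ) ≤ 1 + 30 / (K : ℝ) := by gcongr
          _ ≤ Real.exp (30 / (K : ℝ)) := by
            have := Real.add_one_le_exp (30 / (K : ℝ))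
            linarith
    _ = Real.exp (L.card * (30 / (K : ℝ))) := by
        rw [Finset.prod_const, ← Real.exp_nat_mul]
    _ ≤ Real.exp (90 * Real.log a / Real.log 2) := by
        apply Real.exp_le_exp.2
        rw [le_div_iff₀ hlog2]
        have h1 : (L.card : ℝ) * (30 / K) * Real.log 2 = (L.card * Real.log 2) * (30 / K) := by ring
        rw [h1]
        calc (L.card * Real.log 2) * (30 / (K : ℝ)) ≤ (3 * K * Real.log a) * (30 / K) :=
              mul_le_mul_of_nonneg_right hcard2 (by positivity)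
          _ = 90 * Real.log a := by
            field_simp
            ring

private theorem small_le (a K m : ℕ) (hma : m.Coprime a) :
    ∏ p ∈ m.primeFactors.filter (fun p => p ≤ K), (1 + 30 / (p : ℝ)) ≤
      ∑ e ∈ (EE a K).filter (fun e => e ∣ m), hh e := by
  set S := m.primeFactors.filter (fun p => p ≤ K) with hS
  have hSp : ∀ T ∈ S.powerset, ∀ p ∈ T, p.Prime := by
    intro T hT p hp
    exact Nat.prime_of_mem_primeFactors (Finset.mem_filter.1 (Finset.mem_powerset.1 hT hp)).1
  have hpf : ∀ T ∈ S.powerset, (∏ p ∈ T, p).primeFactors = T := fun T hT =>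
    Nat.primeFactors_prod (hSp T hT)
  rw [Finset.prod_one_add]
  have h1 : ∀ T ∈ S.powerset, ∏ p ∈ T, (30 / (p : ℝ)) = hh (∏ p ∈ T, p) := by
    intro T hT
    unfold hh
    rw [hpf T hT, Finset.prod_div_distrib, Finset.prod_const, Nat.cast_prod]
  rw [Finset.sum_congr rfl h1]
  have hinj : Set.InjOn (fun T : Finset ℕ => ∏ p ∈ T, p) (S.powerset : Set (Finset ℕ)) := by
    intro T hT T' hT' h
    have h2 : (∏ p ∈ T, p).primeFactors = (∏ p ∈ T', p).primeFactors := congrArg _ h
    rwa [hpf T (Finset.mem_coe.1 hT), hpf T' (Finset.mem_coe.1 hT')] at h2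
  rw [← Finset.sum_image (f := hh) hinj]
  refine Finset.sum_le_sum_of_subset_of_nonneg ?_ fun e _ _ => by unfold hh; positivity
  intro e he
  obtain ⟨T, hT, rfl⟩ := Finset.mem_image.1 he
  have hT' := Finset.mem_powerset.1 hT
  have hdm : (∏ p ∈ T, p) ∣ m :=
    (Finset.prod_dvd_prod_of_subset _ _ _ (hT'.trans (Finset.filter_subset _ _))).trans
      (Nat.prod_primeFactors_dvd m)
  rw [Finset.mem_filter, EE, Finset.mem_filter, Nat.mem_divisors]
  refine ⟨⟨⟨?_, (primorial_pos K).ne'⟩, Nat.Coprime.coprime_dvd_left hdm hma⟩, hdm⟩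
  unfold primorial
  apply Finset.prod_dvd_prod_of_subset
  intro p hp
  rw [Finset.mem_filter, Finset.mem_range]
  have := (Finset.mem_filter.1 (hT' hp)).2
  exact ⟨by omega, hSp T hT p hp⟩

theorem F4_le (a : ℕ) (ha : 2 ≤ a) : ∃ C : ℝ, 0 < C ∧ ∀ K m : ℕ, 2 ≤ K → 1 ≤ m → m ≤ a ^ (3 * K) →
    m.Coprime a → F m ^ 4 ≤ C * ∑ e ∈ (EE a K).filter (fun e => e ∣ m), hh e := by
  refine ⟨Real.exp (90 * Real.log a / Real.log 2), Real.exp_pos _, fun K m hK hm hma hc => ?_⟩
  calc F m ^ 4 ≤ ∏ p ∈ m.primeFactors, (1 + 30 / (p : ℝ)) := F4_le_prod m hm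
    _ = (∏ p ∈ m.primeFactors.filter (fun p => p ≤ K), (1 + 30 / (p : ℝ))) *
        ∏ p ∈ m.primeFactors.filter (fun p => ¬ p ≤ K), (1 + 30 / (p : ℝ)) :=
      (Finset.prod_filter_mul_prod_filter_not _ _ _).symm
    _ ≤ (∑ e ∈ (EE a K).filter (fun e => e ∣ m), hh e) *
        Real.exp (90 * Real.log a / Real.log 2) :=
      mul_le_mul (small_le a K m hc) (large_le a ha K m hK hm hma)
        (Finset.prod_nonneg fun p _ => by positivity)
        (Finset.sum_nonneg fun e _ => by unfold hh; positivity)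
    _ = _ := mul_comm _ _

end Pool.Agent.LeX
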