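import Mathlib
import Pool.Agent.LeX.RomDef
import Pool.Agent.MRZ.PVb

/-!
# LeX.RomS: convergence of Romanoff's series

prod30_le: prod_{p <= K} (1 + 30/p) <= exp(30 sum 1/p) <= C (log K)^30 <= C' K.

romanoff_series. Let y >= 2 and let T be a set of squarefree e coprime to a with ord_e(a) <= y.
Such an e divides A_y = prod_{1 <= n <= y} (a^n - 1), so
sum_{e in T} hh e <= prod_{p | A_y} (1 + 30/p). The primes p <= y^2 contribute at most
C (log (y^2))^30; the primes p > y^2 dividing A_y are at most a y^2 many (A_y <= a^(y^2) <= 2^(a y^2)),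
so they contribute at most exp(30 a). Now cut dyadically: i = Nat.log 2 (ord_e(a)): the e with
2^i <= ord < 2^(i+1) contribute at most C_a (i+1)^30/2^i to the sum, and this series converges.
-/

namespace Pool.Agent.LeX

open Finset

namespace RomS

/-- Mertens' product. -/
theorem prod30_log : ∃ C : ℝ, 0 < C ∧ ∀ K : ℕ, 2 ≤ K →
    ∏ p ∈ (Icc 1 K).filter Nat.Prime, (1 + 30 / (p : ℝ)) ≤ C * Real.log K ^ 30 := by
  obtain ⟨C, hC, h⟩ := Pool.MRZ.PVb.mertens_nat
  refine ⟨Real.exp (30 * C), Real.exp_pos _, fun K hK => ?_⟩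
  have h1 : ∏ p ∈ (Icc 1 K).filter Nat.Prime, (1 + 30 / (p : ℝ)) ≤
      Real.exp (30 * Pool.MRZ.PVb.S K) := by
    unfold Pool.MRZ.PVb.S
    rw [Finset.mul_sum, Real.exp_sum]
    have e : (Icc 1 K).filter Nat.Prime = (Ioc 0 K).filter Nat.Prime := by
      ext p
      simp only [Finset.mem_filter, Finset.mem_Icc, Finset.mem_Ioc]
      constructor
      · rintro ⟨⟨h1, h2⟩, h3⟩
        exact ⟨⟨by omega, h2⟩, h3⟩
      · rintro ⟨⟨h1, h2⟩, h3⟩
        exact ⟨⟨by omega, h2⟩, h3⟩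
    rw [e]
    refine Finset.prod_le_prod (fun p _ => by positivity) fun p _ => ?_
    have := Real.add_one_le_exp (30 * (1 / (p : ℝ)))
    calc 1 + 30 / (p : ℝ) = 30 * (1 / (p : ℝ)) + 1 := by ring
      _ ≤ _ := this
  refine h1.trans ?_
  have h2 := (abs_le.1 (h K hK)).2
  have hK2 : (2 : ℝ) ≤ K := by exact_mod_cast hK
  have hl : 0 < Real.log K := Real.log_pos (by linarith)
  calc Real.exp (30 * Pool.MRZ.PVb.S K) ≤ Real.exp (30 * C + (30 : ℕ) * Real.log (Real.log K)) := by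
        apply Real.exp_le_exp.2
        push_cast
        linarith
    _ = Real.exp (30 * C) * Real.log K ^ 30 := by
        rw [Real.exp_add, Real.exp_nat_mul, Real.exp_log hl]

end RomS

theorem prod30_le : ∃ C : ℝ, 0 < C ∧ ∀ K : ℕ, 1 ≤ K →
    ∏ p ∈ (Icc 1 K).filter Nat.Prime, (1 + 30 / (p : ℝ)) ≤ C * K := by
  obtain ⟨C, hC, h⟩ := RomS.prod30_log
  refine ⟨max 1 (C * 30 ^ 30), by positivity, fun K hK => ?_⟩
  have hK1 : (1 : ℝ) ≤ K := by exact_mod_cast hK
  rcases Nat.lt_or_ge K 2 with h2 | h2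
  · have hK' : K = 1 := by omega
    subst hK'
    have : (Icc 1 1).filter Nat.Prime = ∅ := by decide
    rw [this, Finset.prod_empty]
    push_cast
    rw [mul_one]
    exact le_max_left _ _
  · refine (h K h2).trans ?_
    have h3 := Real.log_le_rpow_div (x := (K : ℝ)) (by linarith) (by norm_num : (0 : ℝ) < 1 / 30)
    have h4 : Real.log K ^ 30 ≤ 30 ^ 30 * (K : ℝ) := by
      calc Real.log K ^ 30 ≤ ((K : ℝ) ^ (1 / 30 : ℝ) / (1 / 30)) ^ 30 :=
            pow_le_pow_left₀ (Real.log_nonneg hK1) h3 30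
        _ = 30 ^ 30 * ((K : ℝ) ^ (1 / 30 : ℝ)) ^ 30 := by
            rw [div_pow]
            field_simp
        _ = 30 ^ 30 * (K : ℝ) := by
            congr 1
            rw [← Real.rpow_natCast, ← Real.rpow_mul (by linarith)]
            norm_num
    calc C * Real.log K ^ 30 ≤ C * (30 ^ 30 * (K : ℝ)) := by gcongr
      _ = C * 30 ^ 30 * K := by ring
      _ ≤ _ := by
        gcongr
        exact le_max_right _ _

namespace RomS

theorem hh_eq {e : ℕ} (he : Squarefree e) : hh e = ∏ p ∈ e.primeFactors, (30 / (p : ℝ)) := by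
  unfold hh
  rw [Finset.prod_div_distrib, Finset.prod_const]
  congr 1
  have := Nat.prod_primeFactors_of_squarefree he
  conv_lhs => rw [← this]
  push_cast
  rfl

theorem hh_nonneg (e : ℕ) : 0 ≤ hh e := by
  unfold hh
  positivity

/-- The sum over squarefree divisors is at most the product over the prime divisors. -/
theorem sum_le_prod {A : ℕ} (hA : A ≠ 0) (T : Finset ℕ) (hT : ∀ e ∈ T, Squarefree e ∧ e ∣ A) :
    ∑ e ∈ T, hh e ≤ ∏ p ∈ A.primeFactors, (1 + 30 / (p : ℝ)) := by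
  rw [Finset.prod_one_add]
  have hinj : Set.InjOn (fun e : ℕ => e.primeFactors) (T : Set ℕ) := by
    intro e he e' he' h
    have h1 := Nat.prod_primeFactors_of_squarefree (hT e he).1
    have h2 := Nat.prod_primeFactors_of_squarefree (hT e' he').1
    simp only at h
    rw [← h1, ← h2, h]
  have h1 : ∑ e ∈ T, hh e = ∑ s ∈ T.image (fun e : ℕ => e.primeFactors), ∏ p ∈ s, (30 / (p : ℝ)) := by
    rw [Finset.sum_image hinj]
    exact Finset.sum_congr rfl fun e he => hh_eq (hT e he).1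
  rw [h1]
  refine Finset.sum_le_sum_of_subset_of_nonneg ?_ fun s _ _ => Finset.prod_nonneg fun p _ => by positivity
  intro s hs
  rw [Finset.mem_image] at hs
  obtain ⟨e, he, rfl⟩ := hs
  rw [Finset.mem_powerset]
  exact Nat.primeFactors_mono (hT e he).2 hA

/-- The product of the `a ^ n - 1`, `n ≤ y`. -/
def Ay (a y : ℕ) : ℕ := ∏ n ∈ Icc 1 y, (a ^ n - 1)

theorem Ay_ne {a : ℕ} (ha : 2 ≤ a) (y : ℕ) : Ay a y ≠ 0 := by
  unfold Ay
  rw [Finset.prod_ne_zero_iff]
  intro n hn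
  rw [Finset.mem_Icc] at hn
  have : 1 < a ^ n := Nat.one_lt_pow (by omega) (by omega)
  omega

theorem Ay_le {a : ℕ} (ha : 2 ≤ a) (y : ℕ) : Ay a y ≤ 2 ^ (a * y ^ 2) := by
  unfold Ay
  have h1 : ∏ n ∈ Icc 1 y, (a ^ n - 1) ≤ ∏ _n ∈ Icc 1 y, a ^ y := by
    refine Finset.prod_le_prod (fun _ _ => Nat.zero_le _) fun n hn => ?_
    rw [Finset.mem_Icc] at hn
    exact (Nat.sub_le _ _).trans (Nat.pow_le_pow_right (by omega) hn.2)
  refine h1.trans ?_
  rw [Finset.prod_const, Nat.card_Icc, Nat.add_sub_cancel, ← pow_mul]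
  have h2 : a ≤ 2 ^ a := (Nat.lt_two_pow_self).le
  calc a ^ (y * y) ≤ (2 ^ a) ^ (y * y) := Nat.pow_le_pow_left h2 _
    _ = 2 ^ (a * y ^ 2) := by rw [← pow_mul, sq]

theorem dvd_Ay {a e y : ℕ} (h0 : 0 < orderOf (a : ZMod e)) (hy : orderOf (a : ZMod e) ≤ y) :
    e ∣ Ay a y := by
  have h1 : e ∣ a ^ orderOf (a : ZMod e) - 1 := by
    rcases Nat.eq_zero_or_pos (a ^ orderOf (a : ZMod e)) with h | h
    · rw [h]
      exact dvd_zero _
    · rw [← Nat.modEq_iff_dvd' h]
      have h2 : ((1 : ℕ) : ZMod e) = ((a ^ orderOf (a : ZMod e) : ℕ) : ZMod e) := by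
        push_cast
        exact (pow_orderOf_eq_one _).symm
      exact (ZMod.natCast_eq_natCast_iff _ _ _).1 h2
  exact h1.trans (Finset.dvd_prod_of_mem _ (Finset.mem_Icc.2 ⟨h0, hy⟩))

/-- The large prime divisors. -/
theorem large_le {a y : ℕ} (ha : 2 ≤ a) (hy : 1 ≤ y) :
    ∏ p ∈ (Ay a y).primeFactors.filter (fun p => y ^ 2 < p), (1 + 30 / (p : ℝ)) ≤
      Real.exp (30 * a) := by
  set P := (Ay a y).primeFactors.filter (fun p => y ^ 2 < p) with hP
  have hcard : P.card ≤ a * y ^ 2 := by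
    have h1 : 2 ^ P.card ≤ ∏ p ∈ P, p := by
      rw [← Finset.prod_const]
      refine Finset.prod_le_prod (fun _ _ => Nat.zero_le _) fun p hp => ?_
      rw [hP, Finset.mem_filter] at hp
      exact (Nat.prime_of_mem_primeFactors hp.1).two_le
    have h2 : ∏ p ∈ P, p ∣ Ay a y := by
      refine dvd_trans ?_ (Nat.prod_primeFactors_dvd (Ay a y))
      exact Finset.prod_dvd_prod_of_subset _ _ _ (Finset.filter_subset _ _)
    have h3 := h1.trans ((Nat.le_of_dvd (Nat.pos_of_ne_zero (Ay_ne ha y)) h2).trans (Ay_le ha y))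
    exact (Nat.pow_le_pow_iff_right (by norm_num)).1 h3
  have hy2 : (0 : ℝ) < (y : ℝ) ^ 2 := by positivity
  calc ∏ p ∈ P, (1 + 30 / (p : ℝ)) ≤ ∏ _p ∈ P, Real.exp (30 / (y : ℝ) ^ 2) := by
        refine Finset.prod_le_prod (fun p _ => by positivity) fun p hp => ?_
        rw [hP, Finset.mem_filter] at hp
        have h4 : (y : ℝ) ^ 2 ≤ p := by exact_mod_cast hp.2.le
        have h5 : 30 / (p : ℝ) ≤ 30 / (y : ℝ) ^ 2 := by gcongr
        have h6 := Real.add_one_le_exp (30 / (y : ℝ) ^ 2)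
        linarith
    _ = Real.exp (P.card * (30 / (y : ℝ) ^ 2)) := by
        rw [Finset.prod_const, ← Real.exp_nat_mul]
    _ ≤ Real.exp (30 * a) := by
        apply Real.exp_le_exp.2
        have h7 : (P.card : ℝ) ≤ a * (y : ℝ) ^ 2 := by exact_mod_cast hcard
        calc (P.card : ℝ) * (30 / (y : ℝ) ^ 2) ≤ ((a : ℝ) * (y : ℝ) ^ 2) * (30 / (y : ℝ) ^ 2) := by
              gcongr
          _ = 30 * (a : ℝ) := by field_simp

/-- The numbers with bounded order. -/
theorem E_le {a : ℕ} (ha : 2 ≤ a) : ∃ C : ℝ, 0 < C ∧ ∀ y : ℕ, 2 ≤ y → ∀ T : Finset ℕ,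
    (∀ e ∈ T, Squarefree e ∧ 0 < orderOf (a : ZMod e) ∧ orderOf (a : ZMod e) ≤ y) →
    ∑ e ∈ T, hh e ≤ C * Real.log y ^ 30 := by
  obtain ⟨C, hC, h⟩ := prod30_log
  refine ⟨C * 2 ^ 30 * Real.exp (30 * a), by positivity, fun y hy T hT => ?_⟩
  have h1 := sum_le_prod (Ay_ne ha y) T fun e he =>
    ⟨(hT e he).1, dvd_Ay (hT e he).2.1 (hT e he).2.2⟩
  refine h1.trans ?_
  rw [← Finset.prod_filter_mul_prod_filter_not (Ay a y).primeFactors (fun p => y ^ 2 < p)]
  have h2 := large_le (a := a) (y := y) ha (by omega)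
  have h3 : ∏ p ∈ (Ay a y).primeFactors.filter (fun p => ¬ y ^ 2 < p), (1 + 30 / (p : ℝ)) ≤
      ∏ p ∈ (Icc 1 (y ^ 2)).filter Nat.Prime, (1 + 30 / (p : ℝ)) := by
    have hsub : (Ay a y).primeFactors.filter (fun p => ¬ y ^ 2 < p) ⊆
        (Icc 1 (y ^ 2)).filter Nat.Prime := by
      intro p hp
      rw [Finset.mem_filter] at hp
      have hp1 := Nat.prime_of_mem_primeFactors hp.1
      rw [Finset.mem_filter, Finset.mem_Icc]
      exact ⟨⟨hp1.one_le, by omega⟩, hp1⟩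
    rw [← Finset.prod_sdiff hsub]
    have h8 : (1 : ℝ) ≤ ∏ p ∈ (Icc 1 (y ^ 2)).filter Nat.Prime \
        (Ay a y).primeFactors.filter (fun p => ¬ y ^ 2 < p), (1 + 30 / (p : ℝ)) := by
      calc (1 : ℝ) = ∏ _p ∈ (Icc 1 (y ^ 2)).filter Nat.Prime \
        (Ay a y).primeFactors.filter (fun p => ¬ y ^ 2 < p), (1 : ℝ) := by
            rw [Finset.prod_const_one]
        _ ≤ _ := by
          refine Finset.prod_le_prod (fun _ _ => by norm_num) fun p _ => ?_
          have : (0 : ℝ) ≤ 30 / (p : ℝ) := by positivity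
          linarith
    exact le_mul_of_one_le_left (Finset.prod_nonneg fun p _ => by positivity) h8
  have h4 := h (y ^ 2) (by nlinarith)
  have h5 : Real.log ((y ^ 2 : ℕ) : ℝ) = 2 * Real.log y := by
    push_cast
    rw [Real.log_pow]
    push_cast
    ring
  rw [h5, mul_pow] at h4
  have h6 : 0 ≤ ∏ p ∈ (Ay a y).primeFactors.filter (fun p => ¬ y ^ 2 < p), (1 + 30 / (p : ℝ)) :=
    Finset.prod_nonneg fun p _ => by positivity
  calc _ ≤ Real.exp (30 * a) * (C * (2 ^ 30 * Real.log y ^ 30)) :=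
        mul_le_mul h2 (h3.trans h4) h6 (Real.exp_pos _).le
    _ = _ := by ring

theorem summable_dyadic : Summable fun i : ℕ => ((i : ℝ) + 1) ^ 30 * (1 / 2) ^ i := by
  have h := summable_pow_mul_geometric_of_norm_lt_one (R := ℝ) 30 (r := 1 / 2) (by
    rw [Real.norm_eq_abs, abs_of_pos (by norm_num)]
    norm_num)
  have h1 := ((summable_nat_add_iff 1).2 h).mul_left 2
  refine h1.congr fun i => ?_
  push_cast
  rw [pow_succ (1 / 2 : ℝ)]
  ring

end RomS

theorem romanoff_series (a : ℕ) (ha : 2 ≤ a) : ∃ C : ℝ, 0 < C ∧ ∀ K : ℕ,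
    ∑ e ∈ EE a K, hh e / (orderOf (a : ZMod e) : ℝ) ≤ C := by
  obtain ⟨C, hC, h⟩ := RomS.E_le ha
  have hs := RomS.summable_dyadic
  refine ⟨C * ∑' i : ℕ, ((i : ℝ) + 1) ^ 30 * (1 / 2) ^ i + 1, ?_, fun K => ?_⟩
  · have : 0 ≤ ∑' i : ℕ, ((i : ℝ) + 1) ^ 30 * (1 / 2) ^ i := tsum_nonneg fun i => by positivity
    positivity
  have hE : ∀ e ∈ EE a K, Squarefree e ∧ 0 < orderOf (a : ZMod e) := by
    intro e he
    unfold EE at he
    rw [Finset.mem_filter, Nat.mem_divisors] at he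
    refine ⟨(squarefree_primorial K).squarefree_of_dvd he.1.1, ?_⟩
    have hne : e ≠ 0 := by
      rintro rfl
      exact he.1.2 (Nat.eq_zero_of_zero_dvd he.1.1)
    have : NeZero e := ⟨hne⟩
    have h1 : ((ZMod.unitOfCoprime a he.2.symm : (ZMod e)ˣ) : ZMod e) = (a : ZMod e) :=
      ZMod.coe_unitOfCoprime a he.2.symm
    rw [← h1, orderOf_units]
    exact orderOf_pos _
  set g : ℕ → ℕ := fun e => Nat.log 2 (orderOf (a : ZMod e)) with hg
  rw [← Finset.sum_fiberwise_of_maps_to (s := EE a K) (t := (EE a K).image g) (g := g)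
    (fun e he => Finset.mem_image_of_mem g he)]
  have h1 : ∀ i ∈ (EE a K).image g, ∑ e ∈ EE a K with g e = i, hh e / (orderOf (a : ZMod e) : ℝ) ≤
      C * (((i : ℝ) + 1) ^ 30 * (1 / 2) ^ i) := by
    intro i _
    have h2 : ∑ e ∈ EE a K with g e = i, hh e / (orderOf (a : ZMod e) : ℝ) ≤
        ∑ e ∈ EE a K with g e = i, hh e * (1 / 2) ^ i := by
      refine Finset.sum_le_sum fun e he => ?_
      rw [Finset.mem_filter] at he
      have h3 : 2 ^ i ≤ orderOf (a : ZMod e) := by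
        rw [← he.2]
        exact Nat.pow_log_le_self 2 (hE e he.1).2.ne'
      have h4 : (2 : ℝ) ^ i ≤ (orderOf (a : ZMod e) : ℝ) := by exact_mod_cast h3
      rw [div_eq_mul_inv]
      apply mul_le_mul_of_nonneg_left _ (RomS.hh_nonneg e)
      rw [one_div, inv_pow]
      exact inv_anti₀ (by positivity) h4
    refine h2.trans ?_
    rw [← Finset.sum_mul]
    have h5 := h (2 ^ (i + 1)) (by
      calc 2 = 2 ^ 1 := rfl
        _ ≤ 2 ^ (i + 1) := Nat.pow_le_pow_right (by norm_num) (by omega)) ((EE a K).filter (fun e => g e = i)) (by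
      intro e he
      rw [Finset.mem_filter] at he
      refine ⟨(hE e he.1).1, (hE e he.1).2, ?_⟩
      rw [← he.2]
      exact (Nat.lt_pow_succ_log_self (by norm_num) _).le)
    have h6 : Real.log ((2 ^ (i + 1) : ℕ) : ℝ) ≤ (i : ℝ) + 1 := by
      push_cast
      rw [Real.log_pow]
      push_cast
      have := Real.log_two_lt_d9
      have h7 : (0 : ℝ) ≤ (i : ℝ) + 1 := by positivity
      nlinarith
    have h8 : 0 ≤ Real.log ((2 ^ (i + 1) : ℕ) : ℝ) := Real.log_natCast_nonneg _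
    calc (∑ e ∈ EE a K with g e = i, hh e) * (1 / 2) ^ i
        ≤ (C * Real.log ((2 ^ (i + 1) : ℕ) : ℝ) ^ 30) * (1 / 2) ^ i := by gcongr
      _ ≤ (C * ((i : ℝ) + 1) ^ 30) * (1 / 2) ^ i := by gcongr
      _ = _ := by ring
  refine (Finset.sum_le_sum h1).trans ?_
  rw [← Finset.mul_sum]
  have h9 := hs.sum_le_tsum ((EE a K).image g) (fun i _ => by positivity)
  have h10 := mul_le_mul_of_nonneg_left h9 hC.le
  linarith

end Pool.Agent.LeX
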