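import Mathlib
import Pool.Agent.LeX.RomS
import Pool.Agent.LeX.RomF

/-!
# LeX.RomA: the averages of F^4 over a^d - 1 and over a^k + a^j + 1

From RomF.F4_le (m = a^d - 1 is coprime to a, 1 <= m <= a^(3K), since a >= 2, d >= 1) and exchange of
the sums: sum_{d <= K} F(a^d-1)^4 <= C sum_{e in EE a K} hh e #{d in [1,K] : e | a^d - 1}, and
e | a^d - 1 iff ord_e(a) | d (orderOf_dvd_iff_pow_eq_one in ZMod e), so the count is
floor(K/ord) <= K/ord (Nat.card_multiples or so); RomS.romanoff_series gives <= C K.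
Second: m = a^k + a^j + 1 (j, k >= 1) is coprime to a, m <= 3 a^K <= a^(3K).  For fixed k and e in
EE a K the j in [1,K] with e | a^k + a^j + 1 all have the same a^j in ZMod e, so they lie in one
residue class mod ord_e(a) (a is a unit mod e; pow_inj_mod / pow_eq_pow_iff_modEq in a group of units,
orderOf_units): at most K/ord + 1 of them.  So
sum_{j,k <= K} F^4 <= C sum_k sum_e hh e (K/ord_e + 1) <= C K (K C' + sum_{e in EE a K} hh e), and
sum_{e in EE a K} hh e <= prod_{p <= K} (1+30/p) <= C'' K (RomS.prod30_le).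
-/

namespace Pool.Agent.LeX

open Finset Pool.Agent.Lib.PrimePairs

private theorem hh_nonneg (e : ℕ) : 0 ≤ hh e := by unfold hh; positivity

private theorem EE_mem {a K e : ℕ} (he : e ∈ EE a K) : 0 < e ∧ Squarefree e ∧ e.Coprime a ∧
    ∀ p ∈ e.primeFactors, p.Prime ∧ p ≤ K := by
  unfold EE at he
  rw [Finset.mem_filter, Nat.mem_divisors] at he
  obtain ⟨⟨h1, h2⟩, h3⟩ := he
  refine ⟨Nat.pos_of_ne_zero fun h => h2 (by rw [h] at h1; exact Nat.eq_zero_of_zero_dvd h1),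
    (squarefree_primorial K).squarefree_of_dvd h1, h3, fun p hp => ?_⟩
  have hpp := Nat.prime_of_mem_primeFactors hp
  exact ⟨hpp, hpp.dvd_primorial_iff.mp ((Nat.dvd_of_mem_primeFactors hp).trans h1)⟩

private theorem sum_EE_le (a K : ℕ) :
    ∑ e ∈ EE a K, hh e ≤ ∏ p ∈ (Icc 1 K).filter Nat.Prime, (1 + 30 / (p : ℝ)) := by
  rw [Finset.prod_one_add]
  have h1 : ∀ e ∈ EE a K, hh e = ∏ p ∈ e.primeFactors, (30 / (p : ℝ)) := by
    intro e he
    obtain ⟨_, h2, _, _⟩ := EE_mem he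
    unfold hh
    rw [Finset.prod_div_distrib, Finset.prod_const]
    congr 1
    conv_lhs => rw [← Nat.prod_primeFactors_of_squarefree h2]
    rw [Nat.cast_prod]
  rw [Finset.sum_congr rfl h1]
  have hinj : Set.InjOn (fun e : ℕ => e.primeFactors) (EE a K : Set ℕ) := by
    intro e he e' he' h
    have h2 := (EE_mem (Finset.mem_coe.mp he)).2.1
    have h3 := (EE_mem (Finset.mem_coe.mp he')).2.1
    have h4 : e.primeFactors = e'.primeFactors := h
    rw [← Nat.prod_primeFactors_of_squarefree h2, ← Nat.prod_primeFactors_of_squarefree h3, h4]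
  rw [← Finset.sum_image (f := fun t : Finset ℕ => ∏ p ∈ t, (30 / (p : ℝ))) hinj]
  refine Finset.sum_le_sum_of_subset_of_nonneg ?_ fun t _ _ =>
    Finset.prod_nonneg fun p _ => by positivity
  intro t ht
  rw [Finset.mem_image] at ht
  obtain ⟨e, he, rfl⟩ := ht
  rw [Finset.mem_powerset]
  intro p hp
  obtain ⟨h2, h3⟩ := (EE_mem he).2.2.2 p hp
  rw [Finset.mem_filter, Finset.mem_Icc]
  exact ⟨⟨h2.one_le, h3⟩, h2⟩

private theorem exchange {a K : ℕ} {C : ℝ} (m : ℕ → ℕ)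
    (h : ∀ d ∈ Icc 1 K, F (m d) ^ 4 ≤ C * ∑ e ∈ (EE a K).filter (fun e => e ∣ m d), hh e) :
    ∑ d ∈ Icc 1 K, F (m d) ^ 4 ≤
      C * ∑ e ∈ EE a K, hh e * (((Icc 1 K).filter (fun d => e ∣ m d)).card : ℝ) := by
  refine (Finset.sum_le_sum h).trans (le_of_eq ?_)
  rw [← Finset.mul_sum]
  congr 1
  simp_rw [Finset.sum_filter]
  rw [Finset.sum_comm]
  refine Finset.sum_congr rfl fun e _ => ?_
  rw [← Finset.sum_filter, Finset.sum_const, nsmul_eq_mul, mul_comm]

private theorem count_sub {a K e : ℕ} (ha : 2 ≤ a) :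
    (((Icc 1 K).filter (fun d => e ∣ a ^ d - 1)).card : ℝ) ≤ (K : ℝ) / (orderOf (a : ZMod e) : ℝ) := by
  refine le_trans ?_ (Nat.cast_div_le (m := K) (n := orderOf (a : ZMod e)))
  rw [Nat.cast_le, ← Nat.Ioc_filter_dvd_card_eq_div]
  refine Finset.card_le_card fun d hd => ?_
  rw [Finset.mem_filter, Finset.mem_Icc] at hd
  rw [Finset.mem_filter, Finset.mem_Ioc]
  refine ⟨⟨by omega, hd.1.2⟩, ?_⟩
  rw [orderOf_dvd_iff_pow_eq_one]
  have h1 : ((a ^ d - 1 : ℕ) : ZMod e) = 0 := (ZMod.natCast_eq_zero_iff _ _).mpr hd.2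
  rw [Nat.cast_sub (Nat.one_le_pow _ _ (by omega)), Nat.cast_pow, Nat.cast_one, sub_eq_zero] at h1
  exact h1

private theorem count_add {a K e c : ℕ} (hc : e.Coprime a) :
    (((Icc 1 K).filter (fun j => e ∣ c + a ^ j + 1)).card : ℝ) ≤
      (K : ℝ) / (orderOf (a : ZMod e) : ℝ) + 1 := by
  set n := orderOf (a : ZMod e) with hn
  have h0 : (((Icc 1 K).filter (fun j => e ∣ c + a ^ j + 1)).card) ≤ K / n + 1 := by
    have h1 : ((Icc 1 K).filter (fun j => e ∣ c + a ^ j + 1)).card ≤ (Finset.range (K / n + 1)).card := by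
      refine Finset.card_le_card_of_injOn (fun j => j / n) ?_ ?_
      · intro j hj
        rw [Finset.mem_coe, Finset.mem_filter, Finset.mem_Icc] at hj
        rw [Finset.mem_coe, Finset.mem_range]
        exact Nat.lt_succ_of_le (Nat.div_le_div_right hj.1.2)
      · intro j hj j' hj' h
        rw [Finset.mem_coe, Finset.mem_filter, Finset.mem_Icc] at hj hj'
        have h2 : j / n = j' / n := h
        have h3 : ((c + a ^ j + 1 : ℕ) : ZMod e) = 0 := (ZMod.natCast_eq_zero_iff _ _).mpr hj.2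
        have h4 : ((c + a ^ j' + 1 : ℕ) : ZMod e) = 0 := (ZMod.natCast_eq_zero_iff _ _).mpr hj'.2
        rw [← h4] at h3
        push_cast at h3
        have h5 : (a : ZMod e) ^ j = (a : ZMod e) ^ j' := by
          exact add_left_cancel (add_right_cancel h3)
        have h6 : (ZMod.unitOfCoprime a hc.symm) ^ j = (ZMod.unitOfCoprime a hc.symm) ^ j' := by
          apply Units.ext
          rw [Units.val_pow_eq_pow_val, Units.val_pow_eq_pow_val, ZMod.coe_unitOfCoprime]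
          exact h5
        rw [pow_eq_pow_iff_modEq, ← orderOf_units, ZMod.coe_unitOfCoprime, ← hn] at h6
        have h7 : j % n = j' % n := h6
        rw [← Nat.div_add_mod j n, ← Nat.div_add_mod j' n, h2, h7]
    rwa [Finset.card_range] at h1
  calc (((Icc 1 K).filter (fun j => e ∣ c + a ^ j + 1)).card : ℝ) ≤ ((K / n + 1 : ℕ) : ℝ) := by
        exact_mod_cast h0
    _ = ((K / n : ℕ) : ℝ) + 1 := by push_cast; ring
    _ ≤ (K : ℝ) / (n : ℝ) + 1 := by
        have := Nat.cast_div_le (α := ℝ) (m := K) (n := n)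
        linarith

private theorem cop_sub {a d : ℕ} (ha : 2 ≤ a) (hd : 1 ≤ d) : (a ^ d - 1).Coprime a := by
  refine Nat.Coprime.coprime_dvd_right (dvd_pow_self a (by omega : d ≠ 0)) ?_
  have h1 : 1 ≤ a ^ d := Nat.one_le_pow _ _ (by omega)
  have h2 : (a ^ d - 1).Coprime (a ^ d - 1 + 1) := by
    rw [Nat.coprime_self_add_right]
    exact Nat.coprime_one_right _
  rwa [Nat.sub_add_cancel h1] at h2

private theorem cop_add {a k j : ℕ} (hk : 1 ≤ k) (hj : 1 ≤ j) : (a ^ k + a ^ j + 1).Coprime a := by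
  obtain ⟨x, hx⟩ : a ∣ a ^ k + a ^ j :=
    Dvd.dvd.add (dvd_pow_self a (by omega : k ≠ 0)) (dvd_pow_self a (by omega : j ≠ 0))
  rw [hx, Nat.coprime_mul_left_add_left]
  exact Nat.coprime_one_left _

theorem sum_pow_sub (a : ℕ) (ha : 2 ≤ a) : ∃ C : ℝ, 0 < C ∧ ∀ K : ℕ, 2 ≤ K →
    ∑ d ∈ Icc 1 K, F (a ^ d - 1) ^ 4 ≤ C * K := by
  obtain ⟨C, hC, h1⟩ := F4_le a ha
  obtain ⟨S, hS, h2⟩ := romanoff_series a ha
  refine ⟨C * S, mul_pos hC hS, fun K hK => ?_⟩
  have h3 := exchange (a := a) (K := K) (C := C) (fun d => a ^ d - 1) fun d hd => by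
    rw [Finset.mem_Icc] at hd
    refine h1 K _ hK ?_ ?_ (cop_sub ha hd.1)
    · have : a ^ 1 ≤ a ^ d := Nat.pow_le_pow_right (by omega) hd.1
      rw [pow_one] at this
      omega
    · refine (Nat.sub_le _ _).trans (Nat.pow_le_pow_right (by omega) (by omega))
  refine h3.trans ?_
  rw [mul_assoc]
  refine mul_le_mul_of_nonneg_left ?_ hC.le
  calc ∑ e ∈ EE a K, hh e * (((Icc 1 K).filter (fun d => e ∣ a ^ d - 1)).card : ℝ)
      ≤ ∑ e ∈ EE a K, hh e * ((K : ℝ) / (orderOf (a : ZMod e) : ℝ)) :=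
        Finset.sum_le_sum fun e _ => mul_le_mul_of_nonneg_left (count_sub ha) (hh_nonneg e)
    _ = (∑ e ∈ EE a K, hh e / (orderOf (a : ZMod e) : ℝ)) * K := by
        rw [Finset.sum_mul]
        exact Finset.sum_congr rfl fun e _ => by ring
    _ ≤ S * K := mul_le_mul_of_nonneg_right (h2 K) (Nat.cast_nonneg _)

theorem sum_pow_add (a : ℕ) (ha : 2 ≤ a) : ∃ C : ℝ, 0 < C ∧ ∀ K : ℕ, 2 ≤ K →
    ∑ k ∈ Icc 1 K, ∑ j ∈ Icc 1 K, F (a ^ k + a ^ j + 1) ^ 4 ≤ C * (K : ℝ) ^ 2 := by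
  obtain ⟨C, hC, h1⟩ := F4_le a ha
  obtain ⟨S, hS, h2⟩ := romanoff_series a ha
  obtain ⟨T, hT, h3⟩ := prod30_le
  refine ⟨C * (S + T), mul_pos hC (add_pos hS hT), fun K hK => ?_⟩
  have hKa : 3 * a ^ K ≤ a ^ (3 * K) := by
    calc 3 * a ^ K ≤ 2 ^ 2 * a ^ K := Nat.mul_le_mul_right _ (by norm_num)
      _ ≤ a ^ 2 * a ^ K := Nat.mul_le_mul_right _ (Nat.pow_le_pow_left ha 2)
      _ = a ^ (2 + K) := by rw [pow_add]
      _ ≤ a ^ (3 * K) := Nat.pow_le_pow_right (by omega) (by omega)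
  have hinner : ∀ k ∈ Icc 1 K, ∑ j ∈ Icc 1 K, F (a ^ k + a ^ j + 1) ^ 4 ≤ C * ((S + T) * K) := by
    intro k hk
    rw [Finset.mem_Icc] at hk
    have h4 := exchange (a := a) (K := K) (C := C) (fun j => a ^ k + a ^ j + 1) fun j hj => by
      rw [Finset.mem_Icc] at hj
      refine h1 K _ hK (by omega) ?_ (cop_add hk.1 hj.1)
      have h5 : a ^ k ≤ a ^ K := Nat.pow_le_pow_right (by omega) hk.2
      have h6 : a ^ j ≤ a ^ K := Nat.pow_le_pow_right (by omega) hj.2
      have h7 : 1 ≤ a ^ K := Nat.one_le_pow _ _ (by omega)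
      omega
    refine h4.trans ?_
    refine mul_le_mul_of_nonneg_left ?_ hC.le
    calc ∑ e ∈ EE a K, hh e * (((Icc 1 K).filter (fun j => e ∣ a ^ k + a ^ j + 1)).card : ℝ)
        ≤ ∑ e ∈ EE a K, hh e * ((K : ℝ) / (orderOf (a : ZMod e) : ℝ) + 1) :=
          Finset.sum_le_sum fun e he => mul_le_mul_of_nonneg_left
            (count_add (EE_mem he).2.2.1) (hh_nonneg e)
      _ = (∑ e ∈ EE a K, hh e / (orderOf (a : ZMod e) : ℝ)) * K + ∑ e ∈ EE a K, hh e := by
          rw [Finset.sum_mul, ← Finset.sum_add_distrib]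
          exact Finset.sum_congr rfl fun e _ => by ring
      _ ≤ S * K + T * K := add_le_add (mul_le_mul_of_nonneg_right (h2 K) (Nat.cast_nonneg _))
          ((sum_EE_le a K).trans (h3 K (by omega)))
      _ = (S + T) * K := by ring
  refine (Finset.sum_le_sum hinner).trans (le_of_eq ?_)
  rw [Finset.sum_const, Nat.card_Icc, nsmul_eq_mul, Nat.add_sub_cancel]
  ring

end Pool.Agent.LeX
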