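import Mathlib
import Pool.Agent.LeX.RomA

/-!
# LeX.RomD: the average of F over the differences of a^k (a^k + 1)

a^k(a^k+1) - a^j(a^j+1) = a^j (a^(k-j) - 1)(a^k + a^j + 1).  F(a^j) <= prod_{p | a} p/(p-1) <= a
(F_pow_le below).  So F(2 diff)^2 <= F(2)^2 a^2 F(a^(k-j)-1)^2 F(a^k+a^j+1)^2
<= F(2)^2 a^2 (F(a^(k-j)-1)^4 + F(a^k+a^j+1)^4)/2; sum over j < k <= K: the first is at most
K * sum_{d <= K} F(a^d-1)^4 <= C K^2, the second is RomA.sum_pow_add.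
-/

namespace Pool.Agent.LeX

open Finset Pool.Agent.Lib.PrimePairs

/-- `F` of a power of `a` is bounded -/
theorem F_pow_le (a : ℕ) (ha : 2 ≤ a) : ∃ C : ℝ, 0 < C ∧ ∀ j : ℕ, F (a ^ j) ≤ C := by
  set C : ℝ := ∏ p ∈ a.primeFactors, (1 + 30 / (p : ℝ)) with hC
  have hC1 : 1 ≤ C := by
    have h1 : ∏ p ∈ a.primeFactors, (1 : ℝ) ≤ ∏ p ∈ a.primeFactors, (1 + 30 / (p : ℝ)) :=
      Finset.prod_le_prod (fun _ _ => zero_le_one) fun p _ => by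
        have : (0 : ℝ) ≤ 30 / (p : ℝ) := by positivity
        linarith
    simpa using h1
  refine ⟨C, by linarith, fun j => ?_⟩
  have h1 : F (a ^ j) ^ 4 ≤ C := by
    refine (F4_le_prod (a ^ j) (Nat.one_le_pow _ _ (by omega))).trans ?_
    rcases Nat.eq_zero_or_pos j with hj | hj
    · rw [hj, pow_zero, Nat.primeFactors_one, Finset.prod_empty]
      exact hC1
    · rw [Nat.primeFactors_pow a hj.ne']
  by_contra hcon
  push Not at hcon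
  have h2 : 1 < F (a ^ j) := lt_of_le_of_lt hC1 hcon
  have h3 : F (a ^ j) ≤ F (a ^ j) ^ 4 := by
    calc F (a ^ j) = F (a ^ j) ^ 1 := by ring
      _ ≤ F (a ^ j) ^ 4 := pow_le_pow_right₀ h2.le (by norm_num)
  linarith

theorem sum_diff (a : ℕ) (ha : 2 ≤ a) : ∃ C : ℝ, 0 < C ∧ ∀ K : ℕ, 2 ≤ K →
    ∑ u ∈ ((Icc 1 K) ×ˢ (Icc 1 K)).filter (fun u => u.1 < u.2),
      F (2 * (a ^ u.2 * (a ^ u.2 + 1) - a ^ u.1 * (a ^ u.1 + 1))) ^ 2 ≤ C * (K : ℝ) ^ 2 := by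
  obtain ⟨C0, hC0, h0⟩ := F_pow_le a ha
  obtain ⟨C1, hC1, h1⟩ := sum_pow_sub a ha
  obtain ⟨C2, hC2, h2⟩ := sum_pow_add a ha
  have hF0 : ∀ n, 0 ≤ F n := F_nonneg
  refine ⟨F 2 ^ 2 * C0 ^ 2 * (C1 + C2) + 1, by
    have := hF0 2
    positivity, fun K hK => ?_⟩
  have hterm : ∀ j k : ℕ, j < k → F (2 * (a ^ k * (a ^ k + 1) - a ^ j * (a ^ j + 1))) ^ 2 ≤
      F 2 ^ 2 * C0 ^ 2 * (F (a ^ (k - j) - 1) ^ 4 + F (a ^ k + a ^ j + 1) ^ 4) := by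
    intro j k hjk
    have e1 : a ^ k * (a ^ k + 1) - a ^ j * (a ^ j + 1) =
        a ^ j * ((a ^ (k - j) - 1) * (a ^ k + a ^ j + 1)) := by
      obtain ⟨d, rfl⟩ : ∃ d, k = j + d := ⟨k - j, by omega⟩
      rw [Nat.add_sub_cancel_left, pow_add]
      obtain ⟨y, hy⟩ : ∃ y, a ^ d = y + 1 := ⟨a ^ d - 1, by
        have := Nat.one_le_pow d a (by omega)
        omega⟩
      rw [hy, Nat.add_sub_cancel, Nat.sub_eq_iff_eq_add (by
        have h3 : a ^ j ≤ a ^ j * (y + 1) := Nat.le_mul_of_pos_right _ (Nat.succ_pos y)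
        exact Nat.mul_le_mul h3 (Nat.add_le_add_right h3 1))]
      ring
    have e2 : F (2 * (a ^ k * (a ^ k + 1) - a ^ j * (a ^ j + 1))) ≤
        F 2 * (C0 * (F (a ^ (k - j) - 1) * F (a ^ k + a ^ j + 1))) := by
      rw [e1]
      refine (F_mul_le 2 _).trans (mul_le_mul_of_nonneg_left ?_ (hF0 2))
      refine (F_mul_le _ _).trans ?_
      exact mul_le_mul (h0 j) (F_mul_le _ _) (hF0 _) hC0.le
    set x := F (a ^ (k - j) - 1) with hx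
    set y := F (a ^ k + a ^ j + 1) with hy
    have hx0 : 0 ≤ x := hF0 _
    have hy0 : 0 ≤ y := hF0 _
    have h20 : 0 ≤ F 2 := hF0 2
    calc F (2 * (a ^ k * (a ^ k + 1) - a ^ j * (a ^ j + 1))) ^ 2 ≤ (F 2 * (C0 * (x * y))) ^ 2 :=
          pow_le_pow_left₀ (hF0 _) e2 2
      _ = F 2 ^ 2 * C0 ^ 2 * (x ^ 2 * y ^ 2) := by ring
      _ ≤ F 2 ^ 2 * C0 ^ 2 * (x ^ 4 + y ^ 4) := by
          have h3 : x ^ 2 * y ^ 2 ≤ x ^ 4 + y ^ 4 := by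
            nlinarith [sq_nonneg (x ^ 2 - y ^ 2), sq_nonneg (x ^ 2), sq_nonneg (y ^ 2)]
          gcongr
  have hA : ∑ u ∈ ((Icc 1 K) ×ˢ (Icc 1 K)).filter (fun u => u.1 < u.2),
      F (a ^ (u.2 - u.1) - 1) ^ 4 ≤ C1 * (K : ℝ) ^ 2 := by
    rw [Finset.sum_filter, Finset.sum_product]
    have h3 : ∀ j ∈ Icc 1 K, (∑ k ∈ Icc 1 K, if j < k then F (a ^ (k - j) - 1) ^ 4 else 0) ≤
        C1 * K := by
      intro j _
      rw [← Finset.sum_filter]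
      have h4 : ∑ k ∈ (Icc 1 K).filter (fun k => j < k), F (a ^ (k - j) - 1) ^ 4 =
          ∑ d ∈ ((Icc 1 K).filter (fun k => j < k)).image (fun k => k - j), F (a ^ d - 1) ^ 4 := by
        rw [Finset.sum_image]
        intro b hb c hc hbc
        rw [Finset.mem_coe, Finset.mem_filter] at hb hc
        simp only at hbc
        omega
      rw [h4]
      refine le_trans (Finset.sum_le_sum_of_subset_of_nonneg ?_ fun d _ _ => by
        have := hF0 (a ^ d - 1)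
        positivity) (h1 K hK)
      intro d hd
      rw [Finset.mem_image] at hd
      obtain ⟨k, hk, rfl⟩ := hd
      rw [Finset.mem_filter, Finset.mem_Icc] at hk
      rw [Finset.mem_Icc]
      omega
    refine (Finset.sum_le_sum h3).trans (le_of_eq ?_)
    rw [Finset.sum_const, Nat.card_Icc, nsmul_eq_mul, Nat.add_sub_cancel]
    ring
  have hB : ∑ u ∈ ((Icc 1 K) ×ˢ (Icc 1 K)).filter (fun u => u.1 < u.2),
      F (a ^ u.2 + a ^ u.1 + 1) ^ 4 ≤ C2 * (K : ℝ) ^ 2 := by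
    refine le_trans (Finset.sum_le_sum_of_subset_of_nonneg (Finset.filter_subset _ _)
      fun u _ _ => by
        have := hF0 (a ^ u.2 + a ^ u.1 + 1)
        positivity) ?_
    rw [Finset.sum_product, Finset.sum_comm]
    exact h2 K hK
  calc ∑ u ∈ ((Icc 1 K) ×ˢ (Icc 1 K)).filter (fun u => u.1 < u.2),
      F (2 * (a ^ u.2 * (a ^ u.2 + 1) - a ^ u.1 * (a ^ u.1 + 1))) ^ 2
      ≤ ∑ u ∈ ((Icc 1 K) ×ˢ (Icc 1 K)).filter (fun u => u.1 < u.2),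
        F 2 ^ 2 * C0 ^ 2 * (F (a ^ (u.2 - u.1) - 1) ^ 4 + F (a ^ u.2 + a ^ u.1 + 1) ^ 4) :=
        Finset.sum_le_sum fun u hu => hterm u.1 u.2 (Finset.mem_filter.mp hu).2
    _ = F 2 ^ 2 * C0 ^ 2 * (∑ u ∈ ((Icc 1 K) ×ˢ (Icc 1 K)).filter (fun u => u.1 < u.2),
        F (a ^ (u.2 - u.1) - 1) ^ 4 + ∑ u ∈ ((Icc 1 K) ×ˢ (Icc 1 K)).filter (fun u => u.1 < u.2),
        F (a ^ u.2 + a ^ u.1 + 1) ^ 4) := by
        rw [← Finset.mul_sum, Finset.sum_add_distrib]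
    _ ≤ F 2 ^ 2 * C0 ^ 2 * (C1 * (K : ℝ) ^ 2 + C2 * (K : ℝ) ^ 2) := by
        have := hF0 2
        gcongr
    _ = F 2 ^ 2 * C0 ^ 2 * (C1 + C2) * (K : ℝ) ^ 2 := by ring
    _ ≤ (F 2 ^ 2 * C0 ^ 2 * (C1 + C2) + 1) * (K : ℝ) ^ 2 := by
        have : (0 : ℝ) ≤ (K : ℝ) ^ 2 := by positivity
        nlinarith

end Pool.Agent.LeX
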