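import Mathlib
import Pool.Agent.Lib.PrimePairsMoment
import Pool.Agent.Lib.PNT

/-!
# LeX.Core: Romanoff's argument for a short set of shifts

Let Pr = primes in (P, 2P].  Finset.le_card_add_mul_addEnergy (Mathlib):
#Pr^2 * #T^2 <= #(Pr + T) * E[Pr, T].  The energy is the sum over (s,t) in T x T of
#{(p,q) in Pr x Pr : p + s = q + t}: at most #Pr for s = t, and at most rr P (|t - s|) for s <> t
(PrimePairsMoment.rr: n prime and n + d prime, n in (P, 2P]), so
E <= #T #Pr + 2 sum_{s<t} rr P (t-s), and rr_le (P >= 2^48):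
rr P d <= 8*48^2 F(2d)^2 P/log^2 P + sqrt P.
#Pr <= C P/log P and #Pr >= c P/log P for large P (Lib/PNT pi_nat: pi(n) log n/n -> 1, or the
Chebyshev bounds in Mathlib: Chebyshev.pi_ge, Chebyshev.pi_le_log4_mul_div; for the lower bound on
(P,2P] use pi_nat: pi(2P) - pi(P) ~ P/log P).
With #T <= log P: #T^2 P/log^2 P <= #T P/log P and #T^2 sqrt P <= #T log P sqrt P <= #T P/log P for
large P.  So E <= C'(1+B) #T P/log P, and #(Pr+T) >= (c P/log P)^2 #T^2 / E.  (T empty: trivial.)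
-/

namespace Pool.Agent.LeX

open Finset Filter Pool.Agent.Lib.PrimePairs
open scoped Pointwise

theorem card_primes_Ioc (P : ℕ) :
    (((Ioc P (2 * P)).filter Nat.Prime).card : ℝ) =
      (Nat.primeCounting (2 * P) : ℝ) - Nat.primeCounting P := by
  have h1 : ∀ n : ℕ, Nat.primeCounting n = ((range (n + 1)).filter Nat.Prime).card := by
    intro n
    rw [Nat.primeCounting, Nat.primeCounting', Nat.count_eq_card_filter_range]
  have h2 : (range (2 * P + 1)).filter Nat.Prime =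
      (range (P + 1)).filter Nat.Prime ∪ (Ioc P (2 * P)).filter Nat.Prime := by
    ext x
    simp only [mem_filter, mem_range, mem_union, mem_Ioc]
    constructor
    · rintro ⟨h, hp⟩
      by_cases hx : x < P + 1
      · exact Or.inl ⟨hx, hp⟩
      · exact Or.inr ⟨⟨by omega, by omega⟩, hp⟩
    · rintro (⟨h, hp⟩ | ⟨⟨h, h'⟩, hp⟩)
      · exact ⟨by omega, hp⟩
      · exact ⟨by omega, hp⟩
  have h3 : Disjoint ((range (P + 1)).filter Nat.Prime) ((Ioc P (2 * P)).filter Nat.Prime) := by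
    rw [Finset.disjoint_left]
    intro x hx hx'
    simp only [mem_filter, mem_range, mem_Ioc] at hx hx'
    omega
  rw [h1, h1, h2, card_union_of_disjoint h3]
  push_cast
  ring

theorem card_primes_tendsto :
    Tendsto (fun P : ℕ => (((Ioc P (2 * P)).filter Nat.Prime).card : ℝ) * Real.log P / P)
      atTop (nhds 1) := by
  have h1 := Pool.Agent.Lib.PNT.pi_nat
  have h2 : Tendsto (fun P : ℕ => 2 * P) atTop atTop :=
    tendsto_id.const_mul_atTop' (by norm_num : 0 < 2)
  have h3 := h1.comp h2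
  have h4 : Tendsto (fun P : ℕ => Real.log (P : ℝ)) atTop atTop :=
    Real.tendsto_log_atTop.comp tendsto_natCast_atTop_atTop
  have h5 : Tendsto (fun P : ℕ => (1 + Real.log 2 / Real.log (P : ℝ))⁻¹) atTop (nhds 1) := by
    have h6 : Tendsto (fun P : ℕ => Real.log 2 / Real.log (P : ℝ)) atTop (nhds 0) :=
      Tendsto.div_atTop tendsto_const_nhds h4
    have h7 := (h6.const_add 1).inv₀ (by norm_num)
    simpa using h7
  have h8 := ((h3.mul h5).mul_const 2).sub h1
  rw [show (1 : ℝ) * 1 * 2 - 1 = 1 by norm_num] at h8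
  refine h8.congr' ?_
  filter_upwards [eventually_ge_atTop 2] with P hP
  have hP0 : (0 : ℝ) < P := by
    have : 0 < P := by omega
    exact_mod_cast this
  have hlog : 0 < Real.log P := Real.log_pos (by
    have : 1 < P := by omega
    exact_mod_cast this)
  have hlog2 : 0 < Real.log 2 := Real.log_pos (by norm_num)
  rw [card_primes_Ioc]
  simp only [Function.comp]
  push_cast
  rw [Real.log_mul (by norm_num) hP0.ne']
  have h9 : (1 + Real.log 2 / Real.log (P : ℝ))⁻¹ =
      Real.log P / (Real.log 2 + Real.log P) := by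
    field_simp
    ring
  rw [h9]
  have h10 : Real.log 2 + Real.log P ≠ 0 := by positivity
  field_simp

theorem energy_le (P : ℕ) (T : Finset ℕ) :
    (Finset.addEnergy ((Ioc P (2 * P)).filter Nat.Prime) T : ℝ) ≤
      (T.card : ℝ) * ((Ioc P (2 * P)).filter Nat.Prime).card +
        2 * ∑ u ∈ (T ×ˢ T).filter (fun u => u.1 < u.2), rr P (u.2 - u.1) := by
  classical
  set Pr := (Ioc P (2 * P)).filter Nat.Prime with hPr
  have h1 : (Finset.addEnergy Pr T : ℝ) =
      ∑ u ∈ T ×ˢ T, (((Pr ×ˢ Pr).filter (fun x => x.1 + u.1 = x.2 + u.2)).card : ℝ) := by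
    rw [Finset.addEnergy, card_eq_sum_card_fiberwise (f := fun x => x.2) (t := T ×ˢ T)]
    · push_cast
      refine sum_congr rfl fun u hu => ?_
      congr 1
      refine card_nbij' (fun x => x.1) (fun x => (x, u)) ?_ ?_ ?_ ?_
      · rintro ⟨x, v⟩ hx
        simp only [coe_filter, mem_filter, mem_product, Set.mem_ofPred_eq] at hx ⊢
        obtain ⟨⟨⟨h1, h2⟩, h3⟩, rfl⟩ := hx
        exact ⟨h1, h3⟩
      · intro x hx
        simp only [coe_filter, mem_filter, mem_product, Set.mem_ofPred_eq] at hx hu ⊢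
        exact ⟨⟨⟨hx.1, hu⟩, hx.2⟩, trivial⟩
      · rintro ⟨x, v⟩ hx
        simp only [coe_filter, mem_filter, mem_product, Set.mem_ofPred_eq] at hx
        obtain ⟨_, rfl⟩ := hx
        rfl
      · intro x hx
        rfl
    · intro x hx
      simp only [coe_filter, mem_product, Set.mem_ofPred_eq] at hx
      simpa using hx.1.2
  have hrr : ∀ a b : ℕ, a < b →
      (((Pr ×ˢ Pr).filter (fun x => x.1 + a = x.2 + b)).card : ℝ) ≤ rr P (b - a) := by
    intro a b hab
    unfold rr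
    refine Nat.cast_le.mpr (card_le_card_of_injOn (fun x => x.2) ?_ ?_)
    · rintro ⟨p, q⟩ hx
      simp only [hPr, coe_filter, mem_filter, mem_product, mem_Ioc, Set.mem_ofPred_eq] at hx ⊢
      obtain ⟨⟨⟨h1, h2⟩, h3, h4⟩, h5⟩ := hx
      refine ⟨h3, h4, ?_⟩
      have h6 : q + (b - a) = p := by omega
      rw [h6]
      exact h2
    · rintro ⟨p, q⟩ hx ⟨p', q'⟩ hx' h
      simp only [coe_filter, mem_product, Set.mem_ofPred_eq] at hx hx' h
      rw [Prod.mk.injEq]
      omega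
  have hrr' : ∀ a b : ℕ, b < a →
      (((Pr ×ˢ Pr).filter (fun x => x.1 + a = x.2 + b)).card : ℝ) ≤ rr P (a - b) := by
    intro a b hab
    refine le_trans (le_of_eq ?_) (hrr b a hab)
    congr 1
    refine card_nbij' Prod.swap Prod.swap ?_ ?_ ?_ ?_
    · rintro ⟨p, q⟩ hx
      simp only [coe_filter, mem_product, Set.mem_ofPred_eq, Prod.swap] at hx ⊢
      exact ⟨⟨hx.1.2, hx.1.1⟩, hx.2.symm⟩
    · rintro ⟨p, q⟩ hx
      simp only [coe_filter, mem_product, Set.mem_ofPred_eq, Prod.swap] at hx ⊢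
      exact ⟨⟨hx.1.2, hx.1.1⟩, hx.2.symm⟩
    · rintro ⟨p, q⟩ hx
      rfl
    · rintro ⟨p, q⟩ hx
      rfl
  have hdiag : ∀ a : ℕ, (((Pr ×ˢ Pr).filter (fun x => x.1 + a = x.2 + a)).card : ℝ) ≤ Pr.card := by
    intro a
    refine Nat.cast_le.mpr (card_le_card_of_injOn (fun x => x.2) ?_ ?_)
    · rintro ⟨p, q⟩ hx
      simp only [coe_filter, mem_product, Set.mem_ofPred_eq] at hx
      exact mem_coe.mpr hx.1.2
    · rintro ⟨p, q⟩ hx ⟨p', q'⟩ hx' h
      simp only [coe_filter, mem_product, Set.mem_ofPred_eq] at hx hx' h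
      rw [Prod.mk.injEq]
      omega
  have h2 : T ×ˢ T = (T ×ˢ T).filter (fun u => u.1 < u.2) ∪
      ((T ×ˢ T).filter (fun u => u.2 < u.1) ∪ (T ×ˢ T).filter (fun u => u.1 = u.2)) := by
    ext u
    simp only [mem_union, mem_filter]
    have := lt_trichotomy u.1 u.2
    tauto
  have h3 : Disjoint ((T ×ˢ T).filter (fun u => u.1 < u.2))
      ((T ×ˢ T).filter (fun u => u.2 < u.1) ∪ (T ×ˢ T).filter (fun u => u.1 = u.2)) := by
    rw [Finset.disjoint_left]
    intro u hu hu'
    simp only [mem_union, mem_filter] at hu hu'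
    omega
  have h4 : Disjoint ((T ×ˢ T).filter (fun u => u.2 < u.1))
      ((T ×ˢ T).filter (fun u => u.1 = u.2)) := by
    rw [Finset.disjoint_left]
    intro u hu hu'
    simp only [mem_filter] at hu hu'
    omega
  rw [h1]
  conv_lhs => rw [h2]
  rw [sum_union h3, sum_union h4]
  have h5 : ∑ u ∈ (T ×ˢ T).filter (fun u => u.1 < u.2),
      (((Pr ×ˢ Pr).filter (fun x => x.1 + u.1 = x.2 + u.2)).card : ℝ) ≤
      ∑ u ∈ (T ×ˢ T).filter (fun u => u.1 < u.2), rr P (u.2 - u.1) :=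
    sum_le_sum fun u hu => hrr _ _ (mem_filter.mp hu).2
  have h6 : ∑ u ∈ (T ×ˢ T).filter (fun u => u.2 < u.1),
      (((Pr ×ˢ Pr).filter (fun x => x.1 + u.1 = x.2 + u.2)).card : ℝ) ≤
      ∑ u ∈ (T ×ˢ T).filter (fun u => u.1 < u.2), rr P (u.2 - u.1) := by
    refine (sum_le_sum fun u hu => hrr' _ _ (mem_filter.mp hu).2).trans (le_of_eq ?_)
    refine sum_nbij' Prod.swap Prod.swap ?_ ?_ ?_ ?_ ?_
    · rintro ⟨p, q⟩ hx
      simp only [mem_filter, mem_product, Prod.swap] at hx ⊢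
      exact ⟨⟨hx.1.2, hx.1.1⟩, hx.2⟩
    · rintro ⟨p, q⟩ hx
      simp only [mem_filter, mem_product, Prod.swap] at hx ⊢
      exact ⟨⟨hx.1.2, hx.1.1⟩, hx.2⟩
    · rintro ⟨p, q⟩ hx
      rfl
    · rintro ⟨p, q⟩ hx
      rfl
    · rintro ⟨p, q⟩ hx
      rfl
  have h7 : ∑ u ∈ (T ×ˢ T).filter (fun u => u.1 = u.2),
      (((Pr ×ˢ Pr).filter (fun x => x.1 + u.1 = x.2 + u.2)).card : ℝ) ≤ (T.card : ℝ) * Pr.card := by
    have h8 : (T ×ˢ T).filter (fun u => u.1 = u.2) = T.image (fun a => (a, a)) := by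
      ext ⟨a, b⟩
      simp only [mem_filter, mem_product, mem_image, Prod.mk.injEq]
      constructor
      · rintro ⟨⟨h, _⟩, rfl⟩
        exact ⟨a, h, rfl, rfl⟩
      · rintro ⟨c, hc, rfl, rfl⟩
        exact ⟨⟨hc, hc⟩, rfl⟩
    rw [h8, sum_image (fun a _ b _ h => (Prod.mk.inj h).1)]
    refine (sum_le_sum fun a _ => hdiag a).trans (le_of_eq ?_)
    rw [sum_const, nsmul_eq_mul]
  linarith

theorem romanoff_core (B : ℝ) (hB : 0 ≤ B) : ∃ c : ℝ, 0 < c ∧ ∀ᶠ P : ℕ in atTop,
    ∀ T : Finset ℕ, (T.card : ℝ) ≤ Real.log P →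
      ∑ u ∈ (T ×ˢ T).filter (fun u => u.1 < u.2), F (2 * (u.2 - u.1)) ^ 2 ≤
        B * (T.card : ℝ) ^ 2 →
      c * T.card * P / Real.log P ≤
        ((((Ioc P (2 * P)).filter Nat.Prime ×ˢ T).image (fun u => u.1 + u.2)).card : ℝ) := by
  obtain ⟨K, hK⟩ : ∃ K : ℝ, K = 8 * 48 ^ 2 := ⟨_, rfl⟩
  have hK0 : 0 < K := by rw [hK]; norm_num
  refine ⟨1 / (4 * (4 + 2 * K * B)), by positivity, ?_⟩
  have hlo := card_primes_tendsto.eventually (eventually_ge_nhds (show (1 / 2 : ℝ) < 1 by norm_num))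
  have hup := card_primes_tendsto.eventually (eventually_le_nhds (show (1 : ℝ) < 2 by norm_num))
  have hlog : ∀ᶠ P : ℕ in atTop, Real.log (P : ℝ) ^ 2 ≤ Real.sqrt P := by
    have h1 : (fun x : ℝ => Real.log x ^ 2) =o[atTop] fun x : ℝ => x ^ (1 / 2 : ℝ) := by
      have h2 := isLittleO_log_rpow_rpow_atTop (s := 1 / 2) 2 (by norm_num)
      refine h2.congr_left fun x => ?_
      norm_num
    have h2 := (h1.bound (show (0 : ℝ) < 1 by norm_num))
    have h3 := (tendsto_natCast_atTop_atTop (R := ℝ)).eventually h2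
    filter_upwards [h3] with P hP
    rw [Real.norm_of_nonneg (sq_nonneg _), Real.norm_of_nonneg (by positivity), one_mul] at hP
    rw [Real.sqrt_eq_rpow]
    exact hP
  filter_upwards [hlo, hup, hlog, eventually_ge_atTop (2 ^ 48)] with P h1 h2 h3 h48 T hT hsum
  have hP0 : (0 : ℝ) < P := by
    have : 0 < P := by omega
    exact_mod_cast this
  have hL : 0 < Real.log P := Real.log_pos (by
    have : 1 < P := by omega
    exact_mod_cast this)
  set L := Real.log (P : ℝ) with hLdef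
  set N : ℝ := (((Ioc P (2 * P)).filter Nat.Prime).card : ℝ) with hN
  set t : ℝ := (T.card : ℝ) with ht
  have ht0 : 0 ≤ t := Nat.cast_nonneg _
  have hM := Finset.image_add_product (s := (Ioc P (2 * P)).filter Nat.Prime) (t := T)
  rw [hM]
  set M : ℝ := (((Ioc P (2 * P)).filter Nat.Prime + T).card : ℝ) with hMdef
  have hM0 : 0 ≤ M := Nat.cast_nonneg _
  have h4 : N ^ 2 * t ^ 2 ≤ M * (Finset.addEnergy ((Ioc P (2 * P)).filter Nat.Prime) T : ℝ) := by
    have h5 := Finset.le_card_add_mul_addEnergy ((Ioc P (2 * P)).filter Nat.Prime) T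
    rw [hN, ht, hMdef]
    exact_mod_cast h5
  have h5 := energy_le P T
  rw [← hN, ← ht] at h5
  have h6 : ∑ u ∈ (T ×ˢ T).filter (fun u => u.1 < u.2), rr P (u.2 - u.1) ≤
      K * P / L ^ 2 * (B * t ^ 2) + t ^ 2 * Real.sqrt P := by
    have h7 : ∀ u ∈ (T ×ˢ T).filter (fun u => u.1 < u.2), rr P (u.2 - u.1) ≤
        K * P / L ^ 2 * F (2 * (u.2 - u.1)) ^ 2 + Real.sqrt P := by
      intro u hu
      have h8 := rr_le h48 (d := u.2 - u.1) (by
        have := (mem_filter.mp hu).2
        omega)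
      refine h8.trans (le_of_eq ?_)
      rw [hK]
      ring
    refine (sum_le_sum h7).trans ?_
    rw [sum_add_distrib, ← mul_sum, sum_const, nsmul_eq_mul]
    have h9 : (((T ×ˢ T).filter (fun u => u.1 < u.2)).card : ℝ) ≤ t ^ 2 := by
      have h10 : ((T ×ˢ T).filter (fun u => u.1 < u.2)).card ≤ T.card * T.card := by
        rw [← card_product]
        exact card_filter_le _ _
      rw [ht, sq]
      exact_mod_cast h10
    have h11 : 0 ≤ K * P / L ^ 2 := by positivity
    gcongr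
  have h7 : t ^ 2 * Real.sqrt P ≤ t * (P / L) := by
    have h8 : t * Real.sqrt P ≤ P / L := by
      rw [le_div_iff₀ hL]
      have h9 : Real.sqrt P * Real.sqrt P = P := Real.mul_self_sqrt hP0.le
      have h10 : 0 ≤ Real.sqrt P := Real.sqrt_nonneg _
      calc t * Real.sqrt P * L ≤ L * Real.sqrt P * L := by gcongr
        _ = L ^ 2 * Real.sqrt P := by ring
        _ ≤ Real.sqrt P * Real.sqrt P := by gcongr
        _ = P := h9
    calc t ^ 2 * Real.sqrt P = t * (t * Real.sqrt P) := by ring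
      _ ≤ t * (P / L) := by gcongr
  have h8 : K * P / L ^ 2 * (B * t ^ 2) ≤ K * B * (t * (P / L)) := by
    have h9 : K * P / L ^ 2 * (B * t ^ 2) = K * B * (t * (P / L)) * (t / L) := by
      field_simp
    rw [h9]
    have h10 : t / L ≤ 1 := by
      rw [div_le_one hL]
      exact hT
    have h11 : 0 ≤ K * B * (t * (P / L)) := by positivity
    calc K * B * (t * (P / L)) * (t / L) ≤ K * B * (t * (P / L)) * 1 := by gcongr
      _ = _ := mul_one _
  have h9 : N ≤ 2 * (P / L) := by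
    have h10 : N * L ≤ 2 * P := by
      rw [div_le_iff₀ hP0] at h2
      exact h2
    rw [← mul_div_assoc, le_div_iff₀ hL]
    exact h10
  have h10 : P / L / 2 ≤ N := by
    have h11 : 1 / 2 * (P : ℝ) ≤ N * L := by
      rw [le_div_iff₀ hP0] at h1
      exact h1
    rw [div_div, div_le_iff₀ (by positivity)]
    linarith
  set X : ℝ := P / L with hX
  have hX0 : 0 < X := by rw [hX]; positivity
  have h11 : (Finset.addEnergy ((Ioc P (2 * P)).filter Nat.Prime) T : ℝ) ≤
      (4 + 2 * K * B) * (t * X) := by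
    have h12 : t * N ≤ t * (2 * X) := by gcongr
    nlinarith
  have h12 : (X / 2) ^ 2 * t ^ 2 ≤ M * ((4 + 2 * K * B) * (t * X)) := by
    calc (X / 2) ^ 2 * t ^ 2 ≤ N ^ 2 * t ^ 2 := by gcongr
      _ ≤ _ := h4
      _ ≤ _ := by gcongr
  rcases ht0.eq_or_lt with h0 | h0
  · rw [← h0]
    simpa using hM0
  · have h13 : 0 < 4 + 2 * K * B := by positivity
    have h14 : X * t ≤ M * (4 * (4 + 2 * K * B)) := by
      have h15 : (X * t) * (X * t) ≤ (X * t) * (M * (4 * (4 + 2 * K * B))) := by nlinarith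
      exact le_of_mul_le_mul_left h15 (by positivity)
    have h15 : 1 / (4 * (4 + 2 * K * B)) * t * P / L = X * t / (4 * (4 + 2 * K * B)) := by
      rw [hX]
      field_simp
    rw [h15, div_le_iff₀ (by positivity)]
    exact h14

end Pool.Agent.LeX
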