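import Mathlib
import Pool.Agent.MRZ.PVb

/-!
# LeX.Greedy: choosing residue classes for x(x+1)

For an odd prime p the numbers x(x+1) take (p+1)/2 values mod p, since 4x(x+1)+1 = (2x+1)^2.  So for
every finite set S one value r mod p is taken by at least 2|S|/(p+1) elements of S (pigeonhole).
Iterating over the primes of Q leaves at most |S| times the product of 1 - 2/(p+1).
The product over 3 <= p <= z is at most C/log^2 z: 1 - t <= exp(-t), 2/(p+1) >= 2/p - 2/p^2, and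
Mertens (Pool.MRZ.PVb.mertens_nat : exists C, for x >= 2, |sum_{p <= x} 1/p - log log x| <= C).
-/

namespace Pool.Agent.LeX

open Finset

/-- representative of `x` or `-1-x` modulo `p` in the lower half -/
private def half (p x : ℕ) : ℕ := if x % p ≤ (p - 1) / 2 then x % p else p - 1 - x % p

private lemma half_lt {p : ℕ} (hp : 3 ≤ p) (x : ℕ) : half p x < (p + 1) / 2 := by
  have h := Nat.mod_lt x (show 0 < p by omega)
  unfold half
  split_ifs with h1 <;> omega

private lemma half_modEq {p : ℕ} (hp : 3 ≤ p) (x : ℕ) :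
    x * (x + 1) ≡ half p x * (half p x + 1) [MOD p] := by
  have h := Nat.mod_lt x (show 0 < p by omega)
  have h0 : x ≡ x % p [MOD p] := (Nat.mod_modEq x p).symm
  have h1 : x * (x + 1) ≡ x % p * (x % p + 1) [MOD p] := h0.mul (h0.add_right 1)
  refine h1.trans ?_
  unfold half
  split_ifs with h2
  · exact Nat.ModEq.refl _
  · obtain ⟨m, hm⟩ : ∃ m, m = x % p := ⟨_, rfl⟩
    rw [← hm] at h h2 ⊢
    obtain ⟨k, hk⟩ : ∃ k, k = p - 1 - m := ⟨_, rfl⟩
    have hp1 : p = m + k + 1 := by omega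
    rw [← hk]
    -- m (m+1) and k (k+1) with m + k + 1 = p
    have e1 : m * (m + 1) + m * k = m * p := by rw [hp1]; ring
    have e2 : k * (k + 1) + m * k = k * p := by rw [hp1]; ring
    have e3 : m * (m + 1) + m * k ≡ k * (k + 1) + m * k [MOD p] := by
      rw [e1, e2]
      exact (Nat.modEq_zero_iff_dvd.2 (Dvd.intro_left m rfl)).trans
        (Nat.modEq_zero_iff_dvd.2 (Dvd.intro_left k rfl)).symm
    exact Nat.ModEq.add_right_cancel' _ e3

/-- one prime -/
theorem greedy_step (S : Finset ℕ) (p : ℕ) (hp : p.Prime) (hp2 : p ≠ 2) :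
    ∃ r : ℕ, ((S.filter (fun x => ¬ x * (x + 1) ≡ r [MOD p])).card : ℝ) ≤
      (1 - 2 / ((p : ℝ) + 1)) * S.card := by
  have hp3 : 3 ≤ p := by
    have := hp.two_le
    omega
  have hodd : p % 2 = 1 := by
    rcases hp.eq_two_or_odd with h | h
    · exact absurd h hp2
    · exact h
  have ht : ((p + 1) / 2 : ℕ) * 2 = p + 1 := by omega
  have htR : (((p + 1) / 2 : ℕ) : ℝ) * 2 = (p : ℝ) + 1 := by exact_mod_cast ht
  have ht0 : (0 : ℝ) < (((p + 1) / 2 : ℕ) : ℝ) := by
    have : 0 < (p + 1) / 2 := by omega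
    exact_mod_cast this
  obtain ⟨k, hk, hb⟩ := Finset.exists_le_card_fiber_of_nsmul_le_card_of_maps_to
    (s := S) (t := range ((p + 1) / 2)) (f := half p)
    (b := (S.card : ℝ) / (((p + 1) / 2 : ℕ) : ℝ))
    (fun a _ => mem_range.2 (half_lt hp3 a)) ⟨0, by rw [mem_range]; omega⟩ (by
      rw [card_range, nsmul_eq_mul, mul_div_cancel₀ _ ht0.ne'])
  refine ⟨k * (k + 1), ?_⟩
  have hsub : S.filter (fun x => ¬ x * (x + 1) ≡ k * (k + 1) [MOD p]) ⊆
      S.filter (fun x => ¬ half p x = k) := by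
    intro x hx
    rw [mem_filter] at hx ⊢
    refine ⟨hx.1, fun h => hx.2 ?_⟩
    have := half_modEq hp3 x
    rwa [h] at this
  have h1 : ((S.filter (fun x => ¬ x * (x + 1) ≡ k * (k + 1) [MOD p])).card : ℝ) ≤
      ((S.filter (fun x => ¬ half p x = k)).card : ℝ) := by
    exact_mod_cast card_le_card hsub
  have h2 : ((S.filter (fun x => half p x = k)).card : ℝ) +
      ((S.filter (fun x => ¬ half p x = k)).card : ℝ) = S.card := by
    exact_mod_cast Finset.card_filter_add_card_filter_not (s := S) (fun x => half p x = k)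
  have h3 : 2 / ((p : ℝ) + 1) * S.card = (S.card : ℝ) / (((p + 1) / 2 : ℕ) : ℝ) := by
    rw [← htR]
    field_simp
  have h4 : (1 - 2 / ((p : ℝ) + 1)) * S.card = S.card - 2 / ((p : ℝ) + 1) * S.card := by ring
  rw [h4, h3]
  linarith

/-- all primes of a finite set `Q` -/
theorem greedy (Q : Finset ℕ) (hQ : ∀ p ∈ Q, p.Prime ∧ p ≠ 2) (S : Finset ℕ) :
    ∃ r : ℕ → ℕ, ((S.filter (fun x => ∀ p ∈ Q, ¬ x * (x + 1) ≡ r p [MOD p])).card : ℝ) ≤
      (∏ p ∈ Q, (1 - 2 / ((p : ℝ) + 1))) * S.card := by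
  induction Q using Finset.induction_on generalizing S with
  | empty =>
    refine ⟨fun _ => 0, ?_⟩
    simp
  | insert p Q hpQ ih =>
    have hp := hQ p (mem_insert_self _ _)
    obtain ⟨r0, hr0⟩ := greedy_step S p hp.1 hp.2
    obtain ⟨r, hr⟩ := ih (fun q hq => hQ q (mem_insert_of_mem hq))
      (S.filter (fun x => ¬ x * (x + 1) ≡ r0 [MOD p]))
    refine ⟨Function.update r p r0, ?_⟩
    have hprod : 0 ≤ ∏ q ∈ Q, (1 - 2 / ((q : ℝ) + 1)) := by
      refine prod_nonneg fun q hq => ?_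
      have h2 : (2 : ℝ) ≤ q := by exact_mod_cast (hQ q (mem_insert_of_mem hq)).1.two_le
      rw [sub_nonneg, div_le_one (by linarith)]
      linarith
    have hsub : S.filter (fun x => ∀ q ∈ insert p Q,
        ¬ x * (x + 1) ≡ Function.update r p r0 q [MOD q]) ⊆
        (S.filter (fun x => ¬ x * (x + 1) ≡ r0 [MOD p])).filter
          (fun x => ∀ q ∈ Q, ¬ x * (x + 1) ≡ r q [MOD q]) := by
      intro x hx
      rw [mem_filter] at hx
      rw [mem_filter, mem_filter]
      refine ⟨⟨hx.1, ?_⟩, fun q hq => ?_⟩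
      · have := hx.2 p (mem_insert_self _ _)
        rwa [Function.update_self] at this
      · have := hx.2 q (mem_insert_of_mem hq)
        rwa [Function.update_of_ne (by rintro rfl; exact hpQ hq)] at this
    rw [prod_insert hpQ]
    calc ((S.filter (fun x => ∀ q ∈ insert p Q,
          ¬ x * (x + 1) ≡ Function.update r p r0 q [MOD q])).card : ℝ)
        ≤ (((S.filter (fun x => ¬ x * (x + 1) ≡ r0 [MOD p])).filter
          (fun x => ∀ q ∈ Q, ¬ x * (x + 1) ≡ r q [MOD q])).card : ℝ) := by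
          exact_mod_cast card_le_card hsub
      _ ≤ (∏ q ∈ Q, (1 - 2 / ((q : ℝ) + 1))) *
          ((S.filter (fun x => ¬ x * (x + 1) ≡ r0 [MOD p])).card : ℝ) := hr
      _ ≤ (∏ q ∈ Q, (1 - 2 / ((q : ℝ) + 1))) * ((1 - 2 / ((p : ℝ) + 1)) * S.card) :=
          mul_le_mul_of_nonneg_left hr0 hprod
      _ = _ := by ring

private lemma sum_sq_le (z : ℕ) : ∑ n ∈ Icc 3 z, (1 : ℝ) / (n : ℝ) ^ 2 ≤ 1 := by
  have h : ∀ z : ℕ, 2 ≤ z → ∑ n ∈ Icc 3 z, (1 : ℝ) / (n : ℝ) ^ 2 ≤ 1 / 2 - 1 / (z : ℝ) := by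
    intro z hz
    induction z, hz using Nat.le_induction with
    | base => norm_num
    | succ z hz ih =>
      rw [Finset.sum_Icc_succ_top (by omega)]
      have hz0 : (2 : ℝ) ≤ z := by exact_mod_cast hz
      have h2 : (1 : ℝ) / ((z + 1 : ℕ) : ℝ) ^ 2 ≤ 1 / (z : ℝ) - 1 / ((z + 1 : ℕ) : ℝ) := by
        push_cast
        rw [div_sub_div _ _ (by positivity) (by positivity), div_le_div_iff₀ (by positivity)
          (by positivity)]
        nlinarith
      linarith
  rcases Nat.lt_or_ge z 3 with hz | hz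
  · rw [Finset.Icc_eq_empty (by omega)]
    simp
  · have h1 := h z (by omega)
    have h2 : (0 : ℝ) ≤ 1 / (z : ℝ) := by positivity
    linarith

theorem prod_le : ∃ C : ℝ, 0 < C ∧ ∀ z : ℕ, 2 ≤ z →
    ∏ p ∈ (Icc 3 z).filter Nat.Prime, (1 - 2 / ((p : ℝ) + 1)) ≤ C / Real.log z ^ 2 := by
  obtain ⟨C, hC0, hC⟩ := Pool.MRZ.PVb.mertens_nat
  refine ⟨Real.exp (2 * C + 3), Real.exp_pos _, fun z hz => ?_⟩
  have hzR : (2 : ℝ) ≤ z := by exact_mod_cast hz
  have hl : 0 < Real.log z := Real.log_pos (by linarith)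
  have h1 : ∏ p ∈ (Icc 3 z).filter Nat.Prime, (1 - 2 / ((p : ℝ) + 1)) ≤
      ∏ p ∈ (Icc 3 z).filter Nat.Prime, Real.exp (-(2 / ((p : ℝ) + 1))) := by
    refine prod_le_prod (fun p hp => ?_) (fun p hp => ?_)
    · rw [mem_filter, mem_Icc] at hp
      have h3 : (3 : ℝ) ≤ p := by exact_mod_cast hp.1.1
      rw [sub_nonneg, div_le_one (by linarith)]
      linarith
    · have := Real.add_one_le_exp (-(2 / ((p : ℝ) + 1)))
      linarith
  rw [← Real.exp_sum] at h1
  refine h1.trans ?_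
  have h2 : Real.exp (2 * C + 3) / Real.log z ^ 2 =
      Real.exp (2 * C + 3 - 2 * Real.log (Real.log z)) := by
    rw [Real.exp_sub]
    congr 1
    rw [two_mul, Real.exp_add, Real.exp_log hl]
    ring
  rw [h2, Real.exp_le_exp, sum_neg_distrib]
  have h3 : ∑ p ∈ (Icc 3 z).filter Nat.Prime, (2 * (1 / (p : ℝ)) - 2 * (1 / (p : ℝ) ^ 2)) ≤
      ∑ p ∈ (Icc 3 z).filter Nat.Prime, 2 / ((p : ℝ) + 1) := by
    refine sum_le_sum fun p hp => ?_
    rw [mem_filter, mem_Icc] at hp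
    have h3 : (3 : ℝ) ≤ p := by exact_mod_cast hp.1.1
    rw [mul_one_div, mul_one_div, div_sub_div _ _ (by positivity) (by positivity),
      div_le_div_iff₀ (by positivity) (by positivity)]
    nlinarith [sq_nonneg ((p : ℝ)), pow_pos (show (0 : ℝ) < p by linarith) 3]
  rw [sum_sub_distrib, ← mul_sum, ← mul_sum] at h3
  have h4 : ∑ p ∈ (Icc 3 z).filter Nat.Prime, 1 / (p : ℝ) ^ 2 ≤ 1 := by
    refine le_trans ?_ (sum_sq_le z)
    refine sum_le_sum_of_subset_of_nonneg (filter_subset _ _) fun n _ _ => by positivity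
  have h5 : Pool.MRZ.PVb.S z = 1 / 2 + ∑ p ∈ (Icc 3 z).filter Nat.Prime, 1 / (p : ℝ) := by
    unfold Pool.MRZ.PVb.S
    have h6 : (Ioc 0 z).filter Nat.Prime = insert 2 ((Icc 3 z).filter Nat.Prime) := by
      ext p
      simp only [mem_filter, mem_Ioc, mem_insert, mem_Icc]
      constructor
      · rintro ⟨⟨_, h⟩, hp⟩
        have := hp.two_le
        by_cases h2 : p = 2
        · exact Or.inl h2
        · exact Or.inr ⟨⟨by omega, h⟩, hp⟩
      · rintro (rfl | ⟨⟨h, h'⟩, hp⟩)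
        · exact ⟨⟨by norm_num, hz⟩, Nat.prime_two⟩
        · exact ⟨⟨by omega, h'⟩, hp⟩
    rw [h6, sum_insert (by simp)]
    norm_num
  have h6 := (abs_le.1 (hC z hz)).1
  rw [h5] at h6
  linarith

end Pool.Agent.LeX
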