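import Mathlib
import Pool.Agent.Lib.PrimePairs

/-!
# LeX.LinS: Selberg's upper bound for x with x/m and (x+1)/k both prime

The proof is that of Lib/PrimePairs.card_prime_pairs_le (pairs n, n+d) with the following change.
Let g = m k and let a be the residue mod g with a = 0 mod m, a = -1 mod k.  The sieve has
support := ((Icc 1 Y).filter (x = a [MOD g])).image (x(x+1)) (Ioc 0 Y is the same set, see
abs_count_modEq_sub_le), prodPrimes := primProd (2 g) z, totalMass := Y/g, nu := nuPair.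
For squarefree e coprime to g: the number of x in (0,Y], x = a [MOD g], e | x (x+1) is
sum over a' | e of the number with a' | x, (e/a') | x+1, x = a [MOD g]: one class mod e g each
(Chinese remainder, use abs_count_modEq_sub_le), so it is tau(e)/e * Y/g + O(tau(e)): |rem e| <= e.
Everything about G (G_ge, sq_sum_SQ_le, log_le_SQ with D = 2 g) is as there: with z = y^2,
G >= (log y)^2 / (8 F(2g)^2); error z^6 = y^12.
If x/m and (x+1)/k are primes > y^2 = z and m | x, k | x+1 then x(x+1) = m k * (two primes > z), so it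
is coprime to primProd (2 g) z.
-/

namespace Pool.Agent.LeX

open Finset BoundingSieve
open Pool.Agent.Lib.SelbergUpper Pool.Agent.Lib.PrimePairs

/-- one residue class modulo `a b g` -/
private lemma abs_pair_le (Y g c a b : ℕ) (ha : 0 < a) (hb : 0 < b) (hg : 0 < g) (hab : a.Coprime b)
    (habg : (a * b).Coprime g) :
    |(((Ioc 0 Y).filter (fun n => (a ∣ n ∧ b ∣ n + 1) ∧ n ≡ c [MOD g])).card : ℝ) -
      (Y : ℝ) / ((a * b * g : ℕ) : ℝ)| ≤ 1 := by
  obtain ⟨r, hr1, hr2⟩ := Nat.chineseRemainder hab 0 (b * 1 - 1)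
  obtain ⟨s, hs1, hs2⟩ := Nat.chineseRemainder habg r c
  have hset : (Ioc 0 Y).filter (fun n => (a ∣ n ∧ b ∣ n + 1) ∧ n ≡ c [MOD g]) =
      (Ioc 0 Y).filter (fun n => n ≡ s [MOD a * b * g]) := by
    apply Finset.filter_congr
    intro n _
    rw [← Nat.modEq_and_modEq_iff_modEq_mul habg]
    have h0 : (a ∣ n ∧ b ∣ n + 1) ↔ n ≡ s [MOD a * b] := by
      have e0 : n ≡ s [MOD a * b] ↔ n ≡ r [MOD a * b] :=
        ⟨fun h => h.trans hs1, fun h => h.trans hs1.symm⟩
      rw [e0, ← Nat.modEq_and_modEq_iff_modEq_mul hab]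
      have h1 : a ∣ n ↔ n ≡ r [MOD a] := by
        rw [← Nat.modEq_zero_iff_dvd]
        exact ⟨fun h => h.trans hr1.symm, fun h => h.trans hr1⟩
      have h2 : b ∣ n + 1 ↔ n ≡ r [MOD b] := by
        have h3 : b ∣ n + 1 ↔ n + 1 ≡ r + 1 [MOD b] := by
          have h4 : r + 1 ≡ 0 [MOD b] := by
            have h5 : r + 1 ≡ (b * 1 - 1) + 1 [MOD b] := Nat.ModEq.add_right 1 hr2
            have h6 : (b * 1 - 1) + 1 = b * 1 := Nat.sub_add_cancel (Nat.le_mul_of_pos_left 1 hb)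
            rw [h6] at h5
            exact h5.trans ((Nat.modEq_zero_iff_dvd).mpr (Dvd.intro _ rfl))
          rw [← Nat.modEq_zero_iff_dvd]
          exact ⟨fun h => h.trans h4.symm, fun h => h.trans h4⟩
        rw [h3]
        exact ⟨fun h => Nat.ModEq.add_right_cancel' 1 h, fun h => Nat.ModEq.add_right 1 h⟩
      rw [h1, h2]
    have h3 : n ≡ c [MOD g] ↔ n ≡ s [MOD g] := ⟨fun h => h.trans hs2.symm, fun h => h.trans hs2⟩
    rw [h0, h3]
  rw [hset]
  have := abs_count_modEq_sub_le 0 Y (a * b * g) s (by omega) (by positivity)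
  push_cast at this ⊢
  simpa using this

/-- counting solutions of `e ∣ n (n + 1)` in a residue class, for squarefree `e` coprime to the modulus -/
private lemma abs_mul_le (Y g c e : ℕ) (hg : 0 < g) (he : Squarefree e) (heg : e.Coprime g) :
    |((((Ioc 0 Y).filter (fun n => n ≡ c [MOD g])).filter (fun n => e ∣ n * (n + 1))).card : ℝ) -
      (e.divisors.card : ℝ) / e * ((Y : ℝ) / g)| ≤ e.divisors.card := by
  have he0 : e ≠ 0 := he.ne_zero
  have hepos : 0 < e := Nat.pos_of_ne_zero he0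
  have hcard : (((Ioc 0 Y).filter (fun n => n ≡ c [MOD g])).filter (fun n => e ∣ n * (n + 1))).card =
      ∑ a ∈ e.divisors, ((Ioc 0 Y).filter (fun n => (a ∣ n ∧ e / a ∣ n + 1) ∧ n ≡ c [MOD g])).card := by
    rw [Finset.card_eq_sum_card_fiberwise (f := fun n => Nat.gcd e n) (t := e.divisors)]
    · apply Finset.sum_congr rfl
      intro a ha
      have hae : a ∣ e := (Nat.mem_divisors.mp ha).1
      have ha0 : 0 < a := Nat.pos_of_dvd_of_pos hae hepos
      congr 1
      rw [Finset.filter_filter, Finset.filter_filter]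
      apply Finset.filter_congr
      intro n _
      obtain ⟨b, rfl⟩ := hae
      have hb0 : 0 < b := Nat.pos_of_ne_zero (right_ne_zero_of_mul he0)
      rw [Nat.mul_div_cancel_left b ha0]
      have hab : a.Coprime b := (Nat.squarefree_mul_iff.mp he).1
      have hkey : (a * b ∣ n * (n + 1) ∧ (a * b).gcd n = a) ↔ (a ∣ n ∧ b ∣ n + 1) := by
        constructor
        · rintro ⟨h1, h2⟩
          have han : a ∣ n := by rw [← h2]; exact Nat.gcd_dvd_right _ _
          obtain ⟨k, rfl⟩ := han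
          refine ⟨Dvd.intro _ rfl, ?_⟩
          have h3 : Nat.gcd b k = 1 := by
            rw [Nat.gcd_mul_left] at h2
            exact (Nat.eq_of_mul_eq_mul_left ha0 (by rw [h2, mul_one]))
          rw [mul_assoc] at h1
          have h4 : b ∣ k * (a * k + 1) := (Nat.mul_dvd_mul_iff_left ha0).mp h1
          exact Nat.Coprime.dvd_of_dvd_mul_left h3 h4
        · rintro ⟨h1, h2⟩
          refine ⟨Nat.mul_dvd_mul h1 h2, ?_⟩
          have hbn : b.Coprime n := by
            apply Nat.Coprime.symm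
            by_contra hcon
            obtain ⟨p, hp, hpn, hpb⟩ := Nat.Prime.not_coprime_iff_dvd.mp hcon
            have h3 : p ∣ 1 := (Nat.dvd_add_right hpn).mp (hpb.trans h2)
            exact hp.one_lt.ne' (Nat.dvd_one.mp h3)
          rw [Nat.Coprime.gcd_mul_right_cancel a hbn]
          exact Nat.gcd_eq_left h1
      constructor
      · intro h
        have h1 : n ≡ c [MOD g] := by tauto
        have h2 : a * b ∣ n * (n + 1) ∧ (a * b).gcd n = a := by tauto
        exact ⟨hkey.1 h2, h1⟩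
      · rintro ⟨h1, h2⟩
        have h3 := hkey.2 h1
        tauto
    · intro n _
      simp only [Finset.mem_coe, Nat.mem_divisors]
      exact ⟨Nat.gcd_dvd_left _ _, he0⟩
  rw [hcard]
  push_cast
  have h1 : (e.divisors.card : ℝ) / e * ((Y : ℝ) / g) = ∑ a ∈ e.divisors, (Y : ℝ) / ((e * g : ℕ) : ℝ) := by
    rw [Finset.sum_const, nsmul_eq_mul]
    push_cast
    rw [div_mul_div_comm, mul_div_assoc]
  rw [h1, ← Finset.sum_sub_distrib]
  refine (Finset.abs_sum_le_sum_abs _ _).trans ?_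
  have h2 : ∀ a ∈ e.divisors,
      |(((Ioc 0 Y).filter (fun n => (a ∣ n ∧ e / a ∣ n + 1) ∧ n ≡ c [MOD g])).card : ℝ) -
        (Y : ℝ) / ((e * g : ℕ) : ℝ)| ≤ 1 := by
    intro a ha
    have hae : a ∣ e := (Nat.mem_divisors.mp ha).1
    obtain ⟨b, rfl⟩ := hae
    have ha0 : 0 < a := Nat.pos_of_ne_zero (left_ne_zero_of_mul he0)
    have hb0 : 0 < b := Nat.pos_of_ne_zero (right_ne_zero_of_mul he0)
    rw [Nat.mul_div_cancel_left b ha0]
    exact abs_pair_le Y g c a b ha0 hb0 hg (Nat.squarefree_mul_iff.mp he).1 heg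
  refine (Finset.sum_le_sum h2).trans ?_
  simp

/-- the sieve for the pairs `x`, `x + 1` in the class of `c` modulo `g` -/
private noncomputable def linSieve (Y g c z : ℕ) : BoundingSieve where
  support := ((Ioc 0 Y).filter (fun n => n ≡ c [MOD g])).image (fun n => n * (n + 1))
  prodPrimes := primProd (2 * g) z
  prodPrimes_squarefree := primProd_squarefree _ _
  weights := fun _ => 1
  weights_nonneg := fun _ => zero_le_one
  totalMass := (Y : ℝ) / g
  nu := nuPair
  nu_mult := nuPair_mult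
  nu_pos_of_prime := by
    intro p hp _
    rw [nuPair_prime hp]
    have := hp.pos
    positivity
  nu_lt_one_of_prime := by
    intro p hp hpd
    rw [nuPair_prime hp]
    have h2 : p ≠ 2 := by
      rintro rfl
      exact ((dvd_primProd_iff hp).mp hpd).2 (Dvd.intro _ rfl)
    have h3 : 2 < p := lt_of_le_of_ne hp.two_le h2.symm
    rw [div_lt_one (by exact_mod_cast hp.pos)]
    exact_mod_cast h3

private lemma linSieve_multSum (Y g c z e : ℕ) :
    (linSieve Y g c z).multSum e =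
      ((((Ioc 0 Y).filter (fun n => n ≡ c [MOD g])).filter (fun n => e ∣ n * (n + 1))).card : ℝ) := by
  unfold BoundingSieve.multSum linSieve
  simp only
  rw [Finset.sum_image (fun a _ b _ h => inj_mul_add 1 h)]
  rw [Finset.card_filter _ ((Ioc 0 Y).filter (fun n => n ≡ c [MOD g]))]
  push_cast
  rfl

private lemma linSieve_rem (Y g c z e : ℕ) (hg : 0 < g) (he : e ∣ primProd (2 * g) z) :
    |(linSieve Y g c z).rem e| ≤ e := by
  have h1 := abs_mul_le Y g c e hg
    ((primProd_squarefree (2 * g) z).squarefree_of_dvd he)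
    (Nat.Coprime.coprime_dvd_right (Dvd.intro_left 2 rfl) (coprime_primProd _ _ he))
  unfold BoundingSieve.rem
  rw [linSieve_multSum]
  change |_ - nuPair e * ((Y : ℝ) / g)| ≤ _
  rw [nuPair_apply]
  refine h1.trans ?_
  exact_mod_cast Nat.card_divisors_le_self e

private lemma coprime_of_two_primes {g z m k x : ℕ} (hm : m ∣ g) (hk : k ∣ g) (h1 : m ∣ x ∧ (x / m).Prime ∧ z < x / m)
    (h2 : k ∣ x + 1 ∧ ((x + 1) / k).Prime ∧ z < (x + 1) / k) :
    Nat.Coprime (primProd (2 * g) z) (x * (x + 1)) := by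
  have hgen : ∀ {m x : ℕ}, m ∣ g → (m ∣ x ∧ (x / m).Prime ∧ z < x / m) → Nat.Coprime (primProd (2 * g) z) x := by
    intro m x hm h
    by_contra hcon
    obtain ⟨p, hp, hpe, hpx⟩ := Nat.Prime.not_coprime_iff_dvd.mp hcon
    obtain ⟨h3, h4⟩ := (dvd_primProd_iff hp).mp hpe
    rw [← Nat.mul_div_cancel' h.1] at hpx
    rcases (hp.dvd_mul).1 hpx with h5 | h5
    · exact h4 (Dvd.dvd.mul_left (h5.trans hm) 2)
    · have h6 := (Nat.prime_dvd_prime_iff_eq hp h.2.1).mp h5
      omega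
  exact Nat.Coprime.mul_right (hgen hm h1) (hgen hk h2)

private lemma card_le_sifted (Y g c z m k : ℕ) (hm : m ∣ g) (hk : k ∣ g)
    (hc : ∀ x : ℕ, m ∣ x → k ∣ x + 1 → x ≡ c [MOD g]) :
    (((Icc 1 Y).filter (fun x => (m ∣ x ∧ (x / m).Prime ∧ z < x / m) ∧
      (k ∣ x + 1 ∧ ((x + 1) / k).Prime ∧ z < (x + 1) / k))).card : ℝ) ≤
      (linSieve Y g c z).siftedSum := by
  unfold BoundingSieve.siftedSum linSieve
  simp only
  rw [Finset.sum_image (fun a _ b _ h => inj_mul_add 1 h)]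
  have hsub : (Icc 1 Y).filter (fun x => (m ∣ x ∧ (x / m).Prime ∧ z < x / m) ∧
      (k ∣ x + 1 ∧ ((x + 1) / k).Prime ∧ z < (x + 1) / k)) ⊆
      ((Ioc 0 Y).filter (fun n => n ≡ c [MOD g])).filter
        (fun n => Nat.Coprime (primProd (2 * g) z) (n * (n + 1))) := by
    intro x hx
    rw [Finset.mem_filter, Finset.mem_Icc] at hx
    rw [Finset.mem_filter, Finset.mem_filter, Finset.mem_Ioc]
    exact ⟨⟨⟨hx.1.1, hx.1.2⟩, hc x hx.2.1.1 hx.2.2.1⟩, coprime_of_two_primes hm hk hx.2.1 hx.2.2⟩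
  have h1 : (((Icc 1 Y).filter (fun x => (m ∣ x ∧ (x / m).Prime ∧ z < x / m) ∧
      (k ∣ x + 1 ∧ ((x + 1) / k).Prime ∧ z < (x + 1) / k))).card : ℝ) ≤
      ((((Ioc 0 Y).filter (fun n => n ≡ c [MOD g])).filter
        (fun n => Nat.Coprime (primProd (2 * g) z) (n * (n + 1)))).card : ℝ) := by
    exact_mod_cast Finset.card_le_card hsub
  refine h1.trans (le_of_eq ?_)
  rw [Finset.card_filter _ ((Ioc 0 Y).filter (fun n => n ≡ c [MOD g]))]
  push_cast
  rfl

/-- first form of the bound -/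
private lemma lin_le_div_G (Y g c z m k : ℕ) (hg : 0 < g) (hz : 1 ≤ z) (hm : m ∣ g) (hk : k ∣ g)
    (hc : ∀ x : ℕ, m ∣ x → k ∣ x + 1 → x ≡ c [MOD g]) :
    (((Icc 1 Y).filter (fun x => (m ∣ x ∧ (x / m).Prime ∧ z < x / m) ∧
      (k ∣ x + 1 ∧ ((x + 1) / k).Prime ∧ z < (x + 1) / k))).card : ℝ) ≤
      (Y : ℝ) / g / G (linSieve Y g c z) z + (z : ℝ) ^ 6 := by
  have h := siftedSum_le (linSieve Y g c z) z hz (z : ℝ) ((z : ℝ) ^ 2) (by positivity)
    (by
      intro e he hez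
      have he' : e ∣ primProd (2 * g) z := he
      have he0 : e ≠ 0 := ((primProd_squarefree (2 * g) z).squarefree_of_dvd he').ne_zero
      change (nuPair e)⁻¹ ≤ _
      rw [nuPair_apply, inv_div]
      have h1 : (1 : ℝ) ≤ e.divisors.card := by
        have : 0 < e.divisors.card := Finset.card_pos.mpr ⟨1, Nat.mem_divisors.mpr ⟨one_dvd _, he0⟩⟩
        exact_mod_cast this
      rw [div_le_iff₀ (by linarith)]
      have h2 : (e : ℝ) ≤ z := by exact_mod_cast hez
      nlinarith [h1, h2, (Nat.cast_nonneg e : (0 : ℝ) ≤ e), (Nat.cast_nonneg z : (0 : ℝ) ≤ z)])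
    (by
      intro e he hez
      have := linSieve_rem Y g c z e hg he
      refine this.trans ?_
      exact_mod_cast hez)
  refine (card_le_sifted Y g c z m k hm hk hc).trans (h.trans ?_)
  have : (z : ℝ) ^ 2 * (z : ℝ) ^ 2 * (z : ℝ) ^ 2 = (z : ℝ) ^ 6 := by ring
  rw [this]
  exact le_rfl

private lemma lin_G_ge (Y g c z : ℕ) :
    ∑ l ∈ SQ (2 * g) z, (l.divisors.card : ℝ) / l ≤ G (linSieve Y g c z) z := by
  unfold G
  have hP : primProd (2 * g) z ≠ 0 := (primProd_squarefree _ _).ne_zero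
  have hsub : SQ (2 * g) z ⊆
      ((linSieve Y g c z).prodPrimes.divisors.filter (fun l => l ≤ z)) := by
    intro l hl
    rw [mem_SQ] at hl
    rw [Finset.mem_filter, Nat.mem_divisors]
    exact ⟨⟨dvd_primProd_of_squarefree hl.2.1 hl.1.2 hl.2.2, hP⟩, hl.1.2⟩
  refine le_trans ?_ (Finset.sum_le_sum_of_subset_of_nonneg hsub ?_)
  · apply Finset.sum_le_sum
    intro l hl
    rw [mem_SQ] at hl
    have hlP : l ∣ (linSieve Y g c z).prodPrimes :=
      dvd_primProd_of_squarefree hl.2.1 hl.1.2 hl.2.2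
    rw [selbergTerms_apply]
    change _ ≤ nuPair l * _
    rw [nuPair_apply]
    have h1 : (1 : ℝ) ≤ ∏ p ∈ l.primeFactors, (1 - (linSieve Y g c z).nu p)⁻¹ := by
      have : ∀ p ∈ l.primeFactors, (1 : ℝ) ≤ (1 - (linSieve Y g c z).nu p)⁻¹ := by
        intro p hp
        have hp' := Nat.prime_of_mem_primeFactors hp
        have hpP := (Nat.dvd_of_mem_primeFactors hp).trans hlP
        have h2 := (linSieve Y g c z).nu_lt_one_of_prime p hp' hpP
        have h3 := (linSieve Y g c z).nu_pos_of_prime p hp' hpP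
        rw [one_le_inv₀ (by linarith)]
        linarith
      calc (1 : ℝ) = ∏ p ∈ l.primeFactors, (1 : ℝ) := by simp
        _ ≤ _ := Finset.prod_le_prod (fun _ _ => zero_le_one) this
    have h4 : (0 : ℝ) ≤ (l.divisors.card : ℝ) / l := by positivity
    nlinarith
  · intro l hl _
    rw [Finset.mem_filter, Nat.mem_divisors] at hl
    exact (selbergTerms_pos hl.1.1).le

theorem card_lin_le (m k Y y : ℕ) (hm : 0 < m) (hk : 0 < k) (hmk : m.Coprime k) (hy : 2 ≤ y) :
    (((Icc 1 Y).filter (fun x => (m ∣ x ∧ (x / m).Prime ∧ y ^ 2 < x / m) ∧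
      (k ∣ x + 1 ∧ ((x + 1) / k).Prime ∧ y ^ 2 < (x + 1) / k))).card : ℝ) ≤
      8 * F (2 * (m * k)) ^ 2 * ((Y : ℝ) / ((m : ℝ) * k)) / Real.log y ^ 2 + (y : ℝ) ^ 12 := by
  have hg : 0 < m * k := Nat.mul_pos hm hk
  obtain ⟨c, hc1, hc2⟩ := Nat.chineseRemainder hmk 0 (k * 1 - 1)
  have hc : ∀ x : ℕ, m ∣ x → k ∣ x + 1 → x ≡ c [MOD m * k] := by
    intro x hx1 hx2
    rw [← Nat.modEq_and_modEq_iff_modEq_mul hmk]
    refine ⟨((Nat.modEq_zero_iff_dvd).mpr hx1).trans hc1.symm, ?_⟩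
    have h5 : c + 1 ≡ (k * 1 - 1) + 1 [MOD k] := Nat.ModEq.add_right 1 hc2
    have h6 : (k * 1 - 1) + 1 = k * 1 := Nat.sub_add_cancel (Nat.le_mul_of_pos_left 1 hk)
    rw [h6] at h5
    have h7 : c + 1 ≡ 0 [MOD k] := h5.trans ((Nat.modEq_zero_iff_dvd).mpr (Dvd.intro _ rfl))
    have h8 : x + 1 ≡ c + 1 [MOD k] := ((Nat.modEq_zero_iff_dvd).mpr hx2).trans h7.symm
    exact Nat.ModEq.add_right_cancel' 1 h8
  have h1 := lin_le_div_G Y (m * k) c (y ^ 2) m k hg (by nlinarith) (Dvd.intro _ rfl) (Dvd.intro_left _ rfl) hc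
  have h2 := lin_G_ge Y (m * k) c (y ^ 2)
  have h3 := sq_sum_SQ_le (2 * (m * k)) y (y ^ 2) le_rfl
  have h4 := log_le_SQ (2 * (m * k)) y (by omega) (by omega)
  have hlog : 0 < Real.log y := Real.log_pos (by exact_mod_cast (by omega : 1 < y))
  have hG := G_pos (linSieve Y (m * k) c (y ^ 2)) (y ^ 2) (by nlinarith)
  set S := ∑ l ∈ SQ (2 * (m * k)) y, (1 : ℝ) / l with hS
  set G0 := G (linSieve Y (m * k) c (y ^ 2)) (y ^ 2) with hG0
  have h5 : Real.log y ^ 2 ≤ 8 * F (2 * (m * k)) ^ 2 * G0 := by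
    have h6 : Real.log y ^ 2 ≤ (2 * F (2 * (m * k)) * S) ^ 2 := by
      apply pow_le_pow_left₀ hlog.le h4
    have h7 : S ^ 2 ≤ 2 * G0 := h3.trans (by linarith)
    calc Real.log y ^ 2 ≤ (2 * F (2 * (m * k)) * S) ^ 2 := h6
      _ = 4 * F (2 * (m * k)) ^ 2 * S ^ 2 := by ring
      _ ≤ 4 * F (2 * (m * k)) ^ 2 * (2 * G0) := by gcongr
      _ = 8 * F (2 * (m * k)) ^ 2 * G0 := by ring
  have h8 : (Y : ℝ) / ((m * k : ℕ) : ℝ) / G0 ≤
      8 * F (2 * (m * k)) ^ 2 * ((Y : ℝ) / ((m : ℝ) * k)) / Real.log y ^ 2 := by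
    have e1 : ((m * k : ℕ) : ℝ) = (m : ℝ) * k := by push_cast; ring
    rw [e1, div_le_div_iff₀ hG (by positivity)]
    have : (0 : ℝ) ≤ (Y : ℝ) / ((m : ℝ) * k) := by positivity
    nlinarith
  calc _ ≤ _ := h1
    _ ≤ 8 * F (2 * (m * k)) ^ 2 * ((Y : ℝ) / ((m : ℝ) * k)) / Real.log y ^ 2 + (y : ℝ) ^ 12 := by
      have h9 : (((y ^ 2 : ℕ) : ℝ)) ^ 6 = (y : ℝ) ^ 12 := by push_cast; ring
      rw [h9]
      linarith

end Pool.Agent.LeX
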