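import Mathlib
import Pool.Agent.MRZ.PVb
import Pool.Agent.EK.Mertens

/-!
# LeX.Smooth: Rankin's bound for smooth numbers

Put eta = 1/log w, sigma = 1 - eta.  For n <= Y we have 1 <= (Y/n)^sigma, so the number of w-smooth
n <= Y is at most Y^sigma * prod_{p <= w} (1 - p^(-sigma))^(-1) (Euler product over w-smooth numbers,
Mathlib: EulerProduct.summable_and_hasSum_smoothNumbers_prod_primesBelow_geometric with N = w+1;
or induction).  Y^sigma = Y exp(-log Y/log w).  For p <= w: p^(-sigma) = p^eta/p <= e/p, and for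
w >= 16 (eta <= 0.37) p^(-sigma) <= 2^(-0.6) < 0.7, so (1-t)^(-1) <= exp(4 t) there, and the product
is at most exp(4 e sum_{p <= w} 1/p) <= exp(4 e (log log w + C)) <= C' (log w)^11
(Mertens: Pool.MRZ.PVb.mertens_nat).
-/

namespace Pool.Agent.LeX

open Finset

/-- the `w`-smooth numbers in `[1, Y]` -/
noncomputable def Sm (w Y : ℕ) : Finset ℕ := by
  classical
  exact (Icc 1 Y).filter (fun n => ∀ p : ℕ, p.Prime → p ∣ n → p ≤ w)

lemma mem_Sm {w Y n : ℕ} : n ∈ Sm w Y ↔ (1 ≤ n ∧ n ≤ Y) ∧ ∀ p : ℕ, p.Prime → p ∣ n → p ≤ w := by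
  unfold Sm
  simp only [Finset.mem_filter, Finset.mem_Icc]

/-- The function `n ↦ n ^ (-s)`. -/
private noncomputable def pw (s : ℝ) : ℕ →* ℝ where
  toFun n := (n : ℝ) ^ (-s)
  map_one' := by simp
  map_mul' a b := by
    rw [Nat.cast_mul, Real.mul_rpow (Nat.cast_nonneg a) (Nat.cast_nonneg b)]

private lemma pw_apply (s : ℝ) (n : ℕ) : pw s n = (n : ℝ) ^ (-s) := rfl

private lemma pw_nonneg (s : ℝ) (n : ℕ) : 0 ≤ pw s n := Real.rpow_nonneg (Nat.cast_nonneg n) _

private lemma sum_le_prod {s : ℝ} (hs : 0 < s) (w Y : ℕ) :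
    ∑ n ∈ Sm w Y, pw s n ≤ ∏ p ∈ (w + 1).primesBelow, (1 - pw s p)⁻¹ := by
  classical
  have h1 : ∀ {p : ℕ}, p.Prime → ‖pw s p‖ < 1 := by
    intro p hp
    rw [Real.norm_of_nonneg (pw_nonneg s p), pw_apply]
    exact Real.rpow_lt_one_of_one_lt_of_neg (by exact_mod_cast hp.one_lt) (by linarith)
  have h2 := (EulerProduct.summable_and_hasSum_smoothNumbers_prod_primesBelow_geometric h1 (w + 1)).2
  have h3 : ∀ n ∈ Sm w Y, n ∈ (w + 1).smoothNumbers := by
    intro n hn
    rw [mem_Sm] at hn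
    rw [Nat.mem_smoothNumbers']
    intro p hp hpn
    exact Nat.lt_succ_of_le (hn.2 p hp hpn)
  rw [← Finset.sum_subtype_of_mem (fun n => pw s n) h3]
  exact sum_le_hasSum _ (fun i _ => pw_nonneg s i) h2

private lemma card_le_sum {s : ℝ} (hs : 0 < s) (w Y : ℕ) :
    ((Sm w Y).card : ℝ) ≤ (Y : ℝ) ^ s * ∑ n ∈ Sm w Y, pw s n := by
  rw [Finset.mul_sum, Finset.card_eq_sum_ones, Nat.cast_sum]
  refine Finset.sum_le_sum ?_
  intro n hn
  rw [mem_Sm] at hn
  have hn0 : (0 : ℝ) < n := by exact_mod_cast hn.1.1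
  have hnY : (n : ℝ) ≤ Y := by exact_mod_cast hn.1.2
  rw [pw_apply, Real.rpow_neg hn0.le, ← div_eq_mul_inv, Nat.cast_one, one_le_div (Real.rpow_pos_of_pos hn0 s)]
  exact Real.rpow_le_rpow hn0.le hnY hs.le

private lemma inv_le {t : ℝ} (h0 : 0 ≤ t) (h1 : t ≤ 3 / 4) : (1 - t)⁻¹ ≤ Real.exp (4 * t) := by
  have h2 : 0 < 1 - t := by linarith
  have h3 : (1 - t)⁻¹ = t / (1 - t) + 1 := by
    field_simp
    ring
  have h4 : t / (1 - t) ≤ 4 * t := by
    rw [div_le_iff₀ h2]
    nlinarith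
  rw [h3]
  exact (Real.add_one_le_exp _).trans (Real.exp_le_exp.2 h4)

theorem smooth_le : ∃ (C : ℝ) (K : ℕ), 0 < C ∧ ∀ w Y : ℕ, 16 ≤ w → 1 ≤ Y →
    ((Sm w Y).card : ℝ) ≤ C * Y * Real.log w ^ K * Real.exp (-(Real.log Y / Real.log w)) := by
  obtain ⟨C, hC0, hC⟩ := Pool.MRZ.PVb.mertens_nat
  refine ⟨Real.exp (11 * C), 11, Real.exp_pos _, ?_⟩
  intro w Y hw hY
  have hw0 : (0 : ℝ) < w := by exact_mod_cast (by omega : 0 < w)
  have hY0 : (0 : ℝ) < Y := by exact_mod_cast hY
  have hlog : 4 * Real.log 2 ≤ Real.log w := by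
    rw [← Real.log_rpow (by norm_num)]
    refine Real.log_le_log (by positivity) ?_
    norm_num
    exact_mod_cast hw
  have hl2 := Real.log_two_gt_d9
  have hl1 : 1 ≤ Real.log w := by linarith
  have hlp : 0 < Real.log w := by linarith
  set η : ℝ := 1 / Real.log w with hη
  have hη0 : 0 < η := by positivity
  have hη1 : η * Real.log 2 ≤ 1 / 4 := by
    rw [hη, div_mul_eq_mul_div, one_mul, div_le_iff₀ hlp]
    linarith
  have hη2 : η < 1 := by
    by_contra h
    rw [not_lt] at h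
    nlinarith
  set s : ℝ := 1 - η with hs
  have hs0 : 0 < s := by linarith
  have hp34 : ∀ p : ℕ, p.Prime → pw s p ≤ 3 / 4 := by
    intro p hp
    rw [pw_apply]
    have h1 : (p : ℝ) ^ (-s) ≤ (2 : ℝ) ^ (-s) :=
      Real.rpow_le_rpow_of_nonpos (by norm_num) (by exact_mod_cast hp.two_le) (by linarith)
    refine h1.trans ?_
    have h2 : (2 : ℝ) ^ (-s) = 2⁻¹ * Real.exp (η * Real.log 2) := by
      rw [hs, neg_sub, Real.rpow_sub (by norm_num), Real.rpow_one, div_eq_inv_mul,
        Real.rpow_def_of_pos (by norm_num), mul_comm (Real.log 2)]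
    have h3 : Real.exp (1 / 4 : ℝ) ≤ 3 / 2 := by
      have h4 : (1 : ℝ) - 1 / 4 ≤ Real.exp (-(1 / 4)) := by
        have := Real.add_one_le_exp (-(1 / 4) : ℝ)
        linarith
      have h5 : Real.exp (1 / 4 : ℝ) * Real.exp (-(1 / 4)) = 1 := by
        rw [← Real.exp_add]
        norm_num
      nlinarith [Real.exp_pos (1 / 4 : ℝ)]
    have h6 := Real.exp_le_exp.2 hη1
    rw [h2]
    linarith
  have hpe : ∀ p : ℕ, p.Prime → p ≤ w → pw s p ≤ Real.exp 1 * (1 / p) := by
    intro p hp hpw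
    have hp0 : (0 : ℝ) < p := by exact_mod_cast hp.pos
    rw [pw_apply, hs, neg_sub, Real.rpow_sub hp0, Real.rpow_one, mul_one_div]
    refine div_le_div_of_nonneg_right ?_ hp0.le
    refine (Real.rpow_le_rpow hp0.le (by exact_mod_cast hpw : (p : ℝ) ≤ w) hη0.le).trans ?_
    rw [Real.rpow_def_of_pos hw0, hη, mul_one_div, div_self hlp.ne']
  have hsub : (w + 1).primesBelow = (Finset.Ioc 0 w).filter Nat.Prime := by
    ext p
    rw [Nat.mem_primesBelow, Finset.mem_filter, Finset.mem_Ioc]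
    constructor
    · rintro ⟨h1, h2⟩
      exact ⟨⟨h2.pos, by omega⟩, h2⟩
    · rintro ⟨⟨h1, h2⟩, h3⟩
      exact ⟨by omega, h3⟩
  have hprod : ∏ p ∈ (w + 1).primesBelow, (1 - pw s p)⁻¹ ≤ Real.exp (4 * Real.exp 1 * Pool.MRZ.PVb.S w) := by
    have h1 : Real.exp (4 * Real.exp 1 * Pool.MRZ.PVb.S w) =
        ∏ p ∈ (w + 1).primesBelow, Real.exp (4 * Real.exp 1 * (1 / (p : ℝ))) := by
      rw [← Real.exp_sum, ← Finset.mul_sum, hsub]
      rfl
    rw [h1]
    refine Finset.prod_le_prod ?_ ?_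
    · intro p hp
      have h2 := hp34 p (Nat.prime_of_mem_primesBelow hp)
      exact inv_nonneg.2 (by linarith)
    · intro p hp
      have h2 := hp34 p (Nat.prime_of_mem_primesBelow hp)
      refine (inv_le (pw_nonneg s p) h2).trans (Real.exp_le_exp.2 ?_)
      have h3 := hpe p (Nat.prime_of_mem_primesBelow hp)
        (Nat.lt_succ_iff.1 (Nat.mem_primesBelow.1 hp).1)
      rw [mul_assoc]
      linarith
  have hll : 0 ≤ Real.log (Real.log w) := Real.log_nonneg hl1
  have he : Real.exp 1 < 11 / 4 := by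
    have := Real.exp_one_lt_d9
    linarith
  have hS : 4 * Real.exp 1 * Pool.MRZ.PVb.S w ≤ 11 * C + 11 * Real.log (Real.log w) := by
    have h1 := (abs_le.1 (hC w (by omega))).2
    have h2 : 4 * Real.exp 1 * Pool.MRZ.PVb.S w ≤ 4 * Real.exp 1 * (C + Real.log (Real.log w)) := by
      refine mul_le_mul_of_nonneg_left (by linarith) (by positivity)
    have h3 : 4 * Real.exp 1 * (C + Real.log (Real.log w)) ≤ 11 * (C + Real.log (Real.log w)) := by
      refine mul_le_mul_of_nonneg_right (by linarith) (by positivity)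
    linarith
  have hE : Real.exp (11 * C + 11 * Real.log (Real.log w)) = Real.exp (11 * C) * Real.log w ^ 11 := by
    rw [Real.exp_add]
    congr 1
    have h1 : (11 : ℝ) * Real.log (Real.log w) = Real.log (Real.log w ^ 11) := by
      rw [Real.log_pow]
      norm_num
    rw [h1, Real.exp_log (by positivity)]
  have hYs : (Y : ℝ) ^ s = Y * Real.exp (-(Real.log Y / Real.log w)) := by
    rw [hs, sub_eq_add_neg, Real.rpow_add hY0, Real.rpow_one, Real.rpow_def_of_pos hY0, hη]
    congr 2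
    ring
  calc ((Sm w Y).card : ℝ) ≤ (Y : ℝ) ^ s * ∑ n ∈ Sm w Y, pw s n := card_le_sum hs0 w Y
    _ ≤ (Y : ℝ) ^ s * (Real.exp (11 * C) * Real.log w ^ 11) := by
        refine mul_le_mul_of_nonneg_left ?_ (by positivity)
        rw [← hE]
        exact (sum_le_prod hs0 w Y).trans (hprod.trans (Real.exp_le_exp.2 hS))
    _ = _ := by
        rw [hYs]
        ring

/-- Rankin's bound with a free parameter `η` -/
theorem smooth_le2 : ∃ C : ℝ, 0 < C ∧ ∀ w Y : ℕ, 16 ≤ w → 1 ≤ Y → ∀ η : ℝ, 0 ≤ η → η ≤ 1 / 4 →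
    ((Sm w Y).card : ℝ) ≤ C * Y * Real.exp (-(η * Real.log Y)) * Real.log w ^ 4 *
      Real.exp (8 * (η * Real.log w) * Real.exp (η * Real.log w)) := by
  obtain ⟨C, hC0, hC⟩ := Pool.MRZ.PVb.mertens_nat
  refine ⟨Real.exp (4 * C), Real.exp_pos _, ?_⟩
  intro w Y hw hY η hη0 hη1
  have hw0 : (0 : ℝ) < w := by exact_mod_cast (by omega : 0 < w)
  have hY0 : (0 : ℝ) < Y := by exact_mod_cast hY
  have hlog : 4 * Real.log 2 ≤ Real.log w := by
    rw [← Real.log_rpow (by norm_num)]
    refine Real.log_le_log (by positivity) ?_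
    norm_num
    exact_mod_cast hw
  have hl2 := Real.log_two_gt_d9
  have hl2' := Real.log_two_lt_d9
  have hl1 : 1 ≤ Real.log w := by linarith
  have hlp : 0 < Real.log w := by linarith
  have hlog4 : Real.log 4 ≤ Real.log w := by
    have h4 : (4 : ℝ) = 2 ^ 2 := by norm_num
    rw [h4, Real.log_pow]
    push_cast
    linarith
  set s : ℝ := 1 - η with hs
  have hs0 : 0 < s := by linarith
  have hp34 : ∀ p : ℕ, p.Prime → pw s p ≤ 3 / 4 := by
    intro p hp
    rw [pw_apply]
    have h1 : (p : ℝ) ^ (-s) ≤ (2 : ℝ) ^ (-s) :=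
      Real.rpow_le_rpow_of_nonpos (by norm_num) (by exact_mod_cast hp.two_le) (by linarith)
    refine h1.trans ?_
    have h2 : (2 : ℝ) ^ (-s) = 2⁻¹ * Real.exp (η * Real.log 2) := by
      rw [hs, neg_sub, Real.rpow_sub (by norm_num), Real.rpow_one, div_eq_inv_mul,
        Real.rpow_def_of_pos (by norm_num), mul_comm (Real.log 2)]
    have h3 : Real.exp (1 / 4 : ℝ) ≤ 3 / 2 := by
      have h4 : (1 : ℝ) - 1 / 4 ≤ Real.exp (-(1 / 4)) := by
        have := Real.add_one_le_exp (-(1 / 4) : ℝ)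
        linarith
      have h5 : Real.exp (1 / 4 : ℝ) * Real.exp (-(1 / 4)) = 1 := by
        rw [← Real.exp_add]
        norm_num
      nlinarith [Real.exp_pos (1 / 4 : ℝ)]
    have hη2 : η * Real.log 2 ≤ 1 / 4 := by nlinarith
    have h6 := Real.exp_le_exp.2 hη2
    rw [h2]
    linarith
  have hpe : ∀ p : ℕ, p.Prime → p ≤ w →
      pw s p ≤ 1 / p + η * Real.exp (η * Real.log w) * (Real.log p / p) := by
    intro p hp hpw
    have hp0 : (0 : ℝ) < p := by exact_mod_cast hp.pos
    have hlp0 : 0 ≤ Real.log p := Real.log_natCast_nonneg p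
    have h1 : pw s p = Real.exp (η * Real.log p) / p := by
      rw [pw_apply, hs, neg_sub, Real.rpow_sub hp0, Real.rpow_one, Real.rpow_def_of_pos hp0,
        mul_comm]
    have h2 : Real.exp (η * Real.log p) ≤ 1 + η * Real.log p * Real.exp (η * Real.log w) := by
      have h3 := Real.add_one_le_exp (-(η * Real.log p))
      have h4 : Real.exp (-(η * Real.log p)) * Real.exp (η * Real.log p) = 1 := by
        rw [← Real.exp_add]; simp
      have h5 : Real.exp (η * Real.log p) ≤ 1 + η * Real.log p * Real.exp (η * Real.log p) := by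
        nlinarith [Real.exp_pos (η * Real.log p)]
      have h6 : Real.exp (η * Real.log p) ≤ Real.exp (η * Real.log w) := by
        apply Real.exp_le_exp.mpr
        apply mul_le_mul_of_nonneg_left _ hη0
        exact Real.log_le_log hp0 (by exact_mod_cast hpw)
      refine h5.trans ?_
      have : 0 ≤ η * Real.log p := by positivity
      nlinarith
    rw [h1, div_le_iff₀ hp0]
    calc Real.exp (η * Real.log p) ≤ 1 + η * Real.log p * Real.exp (η * Real.log w) := h2
      _ = (1 / p + η * Real.exp (η * Real.log w) * (Real.log p / p)) * p := by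
          field_simp
  have hsub : (w + 1).primesBelow = (Finset.Ioc 0 w).filter Nat.Prime := by
    ext p
    rw [Nat.mem_primesBelow, Finset.mem_filter, Finset.mem_Ioc]
    constructor
    · rintro ⟨h1, h2⟩
      exact ⟨⟨h2.pos, by omega⟩, h2⟩
    · rintro ⟨⟨h1, h2⟩, h3⟩
      exact ⟨by omega, h3⟩
  have hsub2 : (w + 1).primesBelow = (Finset.range (w + 1)).filter Nat.Prime := rfl
  have hM1 := EK.mertens_first_upper w (by omega)
  have hprod : ∏ p ∈ (w + 1).primesBelow, (1 - pw s p)⁻¹ ≤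
      Real.exp (4 * (Pool.MRZ.PVb.S w + η * Real.exp (η * Real.log w) *
        ∑ p ∈ (Finset.range (w + 1)).filter Nat.Prime, Real.log p / p)) := by
    have h1 : Real.exp (4 * (Pool.MRZ.PVb.S w + η * Real.exp (η * Real.log w) *
        ∑ p ∈ (Finset.range (w + 1)).filter Nat.Prime, Real.log p / p)) =
        ∏ p ∈ (w + 1).primesBelow,
          Real.exp (4 * (1 / (p : ℝ) + η * Real.exp (η * Real.log w) * (Real.log p / p))) := by
      rw [← Real.exp_sum, ← Finset.mul_sum, Finset.sum_add_distrib, ← Finset.mul_sum, ← hsub2]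
      congr 3
      rw [hsub]
      rfl
    rw [h1]
    refine Finset.prod_le_prod ?_ ?_
    · intro p hp
      have h2 := hp34 p (Nat.prime_of_mem_primesBelow hp)
      exact inv_nonneg.2 (by linarith)
    · intro p hp
      have h2 := hp34 p (Nat.prime_of_mem_primesBelow hp)
      refine (inv_le (pw_nonneg s p) h2).trans (Real.exp_le_exp.2 ?_)
      have h3 := hpe p (Nat.prime_of_mem_primesBelow hp)
        (Nat.lt_succ_iff.1 (Nat.mem_primesBelow.1 hp).1)
      linarith
  have hll : 0 ≤ Real.log (Real.log w) := Real.log_nonneg hl1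
  have hS : 4 * (Pool.MRZ.PVb.S w + η * Real.exp (η * Real.log w) *
        ∑ p ∈ (Finset.range (w + 1)).filter Nat.Prime, Real.log p / p) ≤
      4 * C + 4 * Real.log (Real.log w) + 8 * (η * Real.log w) * Real.exp (η * Real.log w) := by
    have h1 := (abs_le.1 (hC w (by omega))).2
    have h2 : η * Real.exp (η * Real.log w) *
        ∑ p ∈ (Finset.range (w + 1)).filter Nat.Prime, Real.log p / p ≤
        η * Real.exp (η * Real.log w) * (2 * Real.log w) := by
      apply mul_le_mul_of_nonneg_left _ (by positivity)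
      linarith
    linarith
  have hE : Real.exp (4 * C + 4 * Real.log (Real.log w) +
      8 * (η * Real.log w) * Real.exp (η * Real.log w)) = Real.exp (4 * C) * Real.log w ^ 4 *
        Real.exp (8 * (η * Real.log w) * Real.exp (η * Real.log w)) := by
    rw [Real.exp_add, Real.exp_add]
    congr 2
    have h1 : (4 : ℝ) * Real.log (Real.log w) = Real.log (Real.log w ^ 4) := by
      rw [Real.log_pow]
      norm_num
    rw [h1, Real.exp_log (by positivity)]
  have hYs : (Y : ℝ) ^ s = Y * Real.exp (-(η * Real.log Y)) := by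
    rw [hs, sub_eq_add_neg, Real.rpow_add hY0, Real.rpow_one, Real.rpow_def_of_pos hY0]
    congr 2
    ring
  calc ((Sm w Y).card : ℝ) ≤ (Y : ℝ) ^ s * ∑ n ∈ Sm w Y, pw s n := card_le_sum hs0 w Y
    _ ≤ (Y : ℝ) ^ s * (Real.exp (4 * C) * Real.log w ^ 4 *
        Real.exp (8 * (η * Real.log w) * Real.exp (η * Real.log w))) := by
        refine mul_le_mul_of_nonneg_left ?_ (by positivity)
        rw [← hE]
        exact (sum_le_prod hs0 w Y).trans (hprod.trans (Real.exp_le_exp.2 hS))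
    _ = _ := by
        rw [hYs]
        ring

end Pool.Agent.LeX
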