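import Mathlib
import Pool.Agent.LeX.Smooth
import Pool.Agent.LeX.LinS
import Pool.Agent.LeX.SumF

/-!
# LeX.Surv: the numbers surviving the primes of `(w, z]`

If no prime in `(w, z]` divides `x(x+1)`, then `x` or `x+1` is `w`-smooth, or `x = m p`, `x + 1 = k q`
with primes `p, q > z` and small coprime `m, k`.
-/

namespace Pool.Agent.LeX

open Finset Pool.Agent.Lib.PrimePairs

/-- the `x ∈ [1, Y]` such that no prime in `(w, z]` divides `x (x + 1)` -/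
noncomputable def Med (w z Y : ℕ) : Finset ℕ := by
  classical
  exact (Icc 1 Y).filter (fun x => ∀ p : ℕ, p.Prime → w < p → p ≤ z → ¬ p ∣ x * (x + 1))

lemma mem_Med {w z Y x : ℕ} : x ∈ Med w z Y ↔
    (1 ≤ x ∧ x ≤ Y) ∧ ∀ p : ℕ, p.Prime → w < p → p ≤ z → ¬ p ∣ x * (x + 1) := by
  unfold Med
  simp only [Finset.mem_filter, Finset.mem_Icc]

/-- the set bounded in `card_lin_le` -/
noncomputable def Lin (m k Y y : ℕ) : Finset ℕ :=
  (Icc 1 Y).filter (fun x => (m ∣ x ∧ (x / m).Prime ∧ y ^ 2 < x / m) ∧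
      (k ∣ x + 1 ∧ ((x + 1) / k).Prime ∧ y ^ 2 < (x + 1) / k))

lemma exists_cofactor {w z Y x : ℕ} (hz : 0 < z) (hx1 : 1 ≤ x) (hxY : x ≤ Y)
    (h : ∀ p : ℕ, p.Prime → w < p → p ≤ z → ¬ p ∣ x) (hns : x ∉ Sm w Y) :
    ∃ m : ℕ, 1 ≤ m ∧ m ≤ Y / z ∧ m ∣ x ∧ (x / m).Prime ∧ z < x / m := by
  rw [mem_Sm] at hns
  push Not at hns
  obtain ⟨p, hp, hpx, hwp⟩ := hns ⟨hx1, hxY⟩
  have hzp : z < p := by
    by_contra hcon
    exact h p hp hwp (not_lt.mp hcon) hpx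
  obtain ⟨m, rfl⟩ := hpx
  have hp0 : 0 < p := hp.pos
  have hm0 : 0 < m := by
    rcases Nat.eq_zero_or_pos m with h0 | h0
    · rw [h0, mul_zero] at hx1; omega
    · exact h0
  refine ⟨m, hm0, ?_, Dvd.intro_left p rfl, ?_, ?_⟩
  · rw [Nat.le_div_iff_mul_le hz]
    calc m * z ≤ m * p := Nat.mul_le_mul_left m hzp.le
      _ = p * m := mul_comm _ _
      _ ≤ Y := hxY
  · rw [Nat.mul_div_cancel _ hm0]; exact hp
  · rw [Nat.mul_div_cancel _ hm0]; exact hzp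

lemma med_subset {w z y Y : ℕ} (hz : 0 < z) (hyz : y ^ 2 ≤ z) :
    Med w z Y ⊆ (Sm w (Y + 1) ∪ (Sm w (Y + 1)).image (fun x => x - 1)) ∪
      ((Icc 1 ((Y + 1) / z) ×ˢ Icc 1 ((Y + 1) / z)).filter (fun u => u.1.Coprime u.2)).biUnion
        (fun u => Lin u.1 u.2 Y y) := by
  classical
  intro x hx
  rw [mem_Med] at hx
  obtain ⟨⟨hx1, hxY⟩, hx2⟩ := hx
  rw [Finset.mem_union, Finset.mem_union]
  by_cases h1 : x ∈ Sm w (Y + 1)
  · exact Or.inl (Or.inl h1)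
  by_cases h2 : x + 1 ∈ Sm w (Y + 1)
  · refine Or.inl (Or.inr ?_)
    rw [Finset.mem_image]
    exact ⟨x + 1, h2, by simp⟩
  refine Or.inr ?_
  obtain ⟨m, hm1, hmM, hmx, hmp, hmz⟩ := exists_cofactor (w := w) hz hx1 (by omega : x ≤ Y + 1)
    (fun p hp h3 h4 h5 => hx2 p hp h3 h4 (Dvd.dvd.mul_right h5 _)) h1
  obtain ⟨k, hk1, hkM, hkx, hkp, hkz⟩ := exists_cofactor (w := w) hz (by omega : 1 ≤ x + 1)
    (by omega : x + 1 ≤ Y + 1)
    (fun p hp h3 h4 h5 => hx2 p hp h3 h4 (Dvd.dvd.mul_left h5 _)) h2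
  rw [Finset.mem_biUnion]
  refine ⟨(m, k), ?_, ?_⟩
  · rw [Finset.mem_filter, Finset.mem_product, Finset.mem_Icc, Finset.mem_Icc]
    refine ⟨⟨⟨hm1, hmM⟩, ⟨hk1, hkM⟩⟩, ?_⟩
    have h6 : Nat.Coprime x (x + 1) := by simp
    exact Nat.Coprime.coprime_dvd_left hmx (Nat.Coprime.coprime_dvd_right hkx h6)
  · unfold Lin
    rw [Finset.mem_filter, Finset.mem_Icc]
    exact ⟨⟨hx1, hxY⟩, ⟨hmx, hmp, lt_of_le_of_lt hyz hmz⟩, ⟨hkx, hkp, lt_of_le_of_lt hyz hkz⟩⟩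

theorem med_card_le : ∃ C : ℝ, 0 < C ∧ ∀ w z y Y : ℕ, 2 ≤ y → y ^ 2 ≤ z → z ≤ Y →
    ((Med w z Y).card : ℝ) ≤ 2 * ((Sm w (Y + 1)).card : ℝ) +
      C * Y * (1 + Real.log (((Y : ℝ) + 1) / z)) ^ 2 / Real.log y ^ 2 +
      (((Y : ℝ) + 1) / z) ^ 2 * (y : ℝ) ^ 12 := by
  classical
  obtain ⟨C, hC0, hC⟩ := sum_sum_F_le
  refine ⟨8 * C, by positivity, fun w z y Y hy hyz hzY => ?_⟩
  have hz0 : 0 < z := lt_of_lt_of_le (by positivity) hyz
  have hz0' : (0 : ℝ) < z := by exact_mod_cast hz0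
  set M := (Y + 1) / z with hM
  have hM1 : 1 ≤ M := by
    rw [hM, Nat.one_le_div_iff hz0]; omega
  have hM1' : (1 : ℝ) ≤ M := by exact_mod_cast hM1
  have hMR : (M : ℝ) ≤ ((Y : ℝ) + 1) / z := by
    rw [hM]
    have := @Nat.cast_div_le ℝ _ _ _ (Y + 1) z
    push_cast at this
    exact this
  have hlogy : 0 < Real.log y := Real.log_pos (by exact_mod_cast (by omega : 1 < y))
  have h1 := Finset.card_le_card (med_subset (w := w) (Y := Y) hz0 hyz)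
  have h2 := h1.trans ((Finset.card_union_le _ _).trans
    (Nat.add_le_add (Finset.card_union_le _ _) Finset.card_biUnion_le))
  have h3 : (((Sm w (Y + 1)).image (fun x => x - 1)).card) ≤ (Sm w (Y + 1)).card :=
    Finset.card_image_le
  have h4 : ((∑ u ∈ (Icc 1 M ×ˢ Icc 1 M).filter (fun u => u.1.Coprime u.2),
      (Lin u.1 u.2 Y y).card : ℕ) : ℝ) ≤
      8 * C * Y * (1 + Real.log (((Y : ℝ) + 1) / z)) ^ 2 / Real.log y ^ 2 +
      (((Y : ℝ) + 1) / z) ^ 2 * (y : ℝ) ^ 12 := by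
    push_cast
    have h5 : ∀ u ∈ (Icc 1 M ×ˢ Icc 1 M).filter (fun u => u.1.Coprime u.2),
        ((Lin u.1 u.2 Y y).card : ℝ) ≤
          8 * F (2 * (u.1 * u.2)) ^ 2 * ((Y : ℝ) / ((u.1 : ℝ) * u.2)) / Real.log y ^ 2 +
            (y : ℝ) ^ 12 := by
      intro u hu
      rw [Finset.mem_filter, Finset.mem_product, Finset.mem_Icc, Finset.mem_Icc] at hu
      exact card_lin_le u.1 u.2 Y y (by omega) (by omega) hu.2 hy
    refine (Finset.sum_le_sum h5).trans ?_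
    refine (Finset.sum_le_sum_of_subset_of_nonneg (Finset.filter_subset _ _)
      (fun u _ _ => by positivity)).trans ?_
    rw [Finset.sum_add_distrib, Finset.sum_const, nsmul_eq_mul, Finset.card_product, Nat.card_Icc,
      Finset.sum_product]
    have h6 : ∑ m ∈ Icc 1 M, ∑ k ∈ Icc 1 M,
        8 * F (2 * (m * k)) ^ 2 * ((Y : ℝ) / ((m : ℝ) * k)) / Real.log y ^ 2 =
        8 * Y / Real.log y ^ 2 * ∑ m ∈ Icc 1 M, ∑ k ∈ Icc 1 M,
          F (2 * (m * k)) ^ 2 / ((m : ℝ) * k) := by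
      rw [Finset.mul_sum]
      apply Finset.sum_congr rfl
      intro m _
      rw [Finset.mul_sum]
      apply Finset.sum_congr rfl
      intro k _
      ring
    have h7 := hC M hM1
    have h8 : (1 + Real.log M) ^ 2 ≤ (1 + Real.log (((Y : ℝ) + 1) / z)) ^ 2 := by
      have : 0 ≤ Real.log M := Real.log_nonneg hM1'
      have h9 : Real.log M ≤ Real.log (((Y : ℝ) + 1) / z) :=
        Real.log_le_log (by linarith) hMR
      gcongr
    apply add_le_add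
    · rw [h6]
      calc 8 * (Y : ℝ) / Real.log y ^ 2 * ∑ m ∈ Icc 1 M, ∑ k ∈ Icc 1 M,
          F (2 * (m * k)) ^ 2 / ((m : ℝ) * k)
          ≤ 8 * (Y : ℝ) / Real.log y ^ 2 * (C * (1 + Real.log (((Y : ℝ) + 1) / z)) ^ 2) := by
            gcongr
            exact h7.trans (by gcongr)
        _ = _ := by ring
    · simp only [Nat.add_sub_cancel]
      push_cast
      have h11 : (M : ℝ) * M ≤ (((Y : ℝ) + 1) / z) ^ 2 := by
        rw [sq]
        exact mul_le_mul hMR hMR (by linarith) (by linarith)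
      exact mul_le_mul_of_nonneg_right h11 (by positivity)
  have h2' : ((Med w z Y).card : ℝ) ≤ ((Sm w (Y + 1)).card : ℝ) +
      (((Sm w (Y + 1)).image (fun x => x - 1)).card : ℝ) +
      ((∑ u ∈ (Icc 1 M ×ˢ Icc 1 M).filter (fun u => u.1.Coprime u.2),
      (Lin u.1 u.2 Y y).card : ℕ) : ℝ) := by
    exact_mod_cast h2
  have h3' : (((Sm w (Y + 1)).image (fun x => x - 1)).card : ℝ) ≤ ((Sm w (Y + 1)).card : ℝ) := by
    exact_mod_cast h3
  linarith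

end Pool.Agent.LeX
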