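import Mathlib
import Pool.Agent.LeX.Surv
import Pool.Agent.LeX.Greedy

/-!
# LeX.Asy: the number of survivors
-/

namespace Pool.Agent.LeX

open Finset Filter

/-- the length of the interval of `x` -/
noncomputable def YY (c : ℝ) (y : ℕ) : ℕ :=
  ⌊c * y * (Real.log y ^ 3 * Real.log (Real.log (Real.log y)) ^ 2 / Real.log (Real.log y) ^ 4)⌋₊

lemma ev_log : Tendsto (fun y : ℕ => Real.log (y : ℝ)) atTop atTop :=
  Real.tendsto_log_atTop.comp tendsto_natCast_atTop_atTop

lemma ev_loglog : Tendsto (fun y : ℕ => Real.log (Real.log (y : ℝ))) atTop atTop :=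
  Real.tendsto_log_atTop.comp ev_log

lemma ev_logloglog :
    Tendsto (fun y : ℕ => Real.log (Real.log (Real.log (y : ℝ)))) atTop atTop :=
  Real.tendsto_log_atTop.comp ev_loglog

lemma ev_ll_pow (c : ℝ) (hc : 0 < c) :
    ∀ᶠ y : ℕ in atTop, Real.log (Real.log (y : ℝ)) ^ 4 ≤ c * Real.log y := by
  have h := (Real.isLittleO_pow_log_id_atTop (n := 4)).bound hc
  have h2 := ev_log.eventually h
  have h3 := ev_log.eventually (eventually_ge_atTop (0 : ℝ))
  filter_upwards [h2, h3] with y h4 h5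
  simp only [id, Real.norm_eq_abs] at h4
  rw [abs_of_nonneg h5] at h4
  exact (le_abs_self _).trans h4

lemma ev_log_pow : ∀ᶠ y : ℕ in atTop, Real.log (y : ℝ) ^ 20 ≤ Real.exp (Real.log y / 8) := by
  have h : ∀ᶠ x : ℝ in atTop, x ^ 20 ≤ Real.exp (x / 8) := by
    have h1 := (isLittleO_pow_exp_pos_mul_atTop (k := 20) (b := (1 / 8 : ℝ)) (by norm_num)).bound
      (c := 1) one_pos
    filter_upwards [h1] with x hx
    rw [Real.norm_eq_abs, Real.norm_eq_abs, one_mul, abs_of_pos (Real.exp_pos _)] at hx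
    have : (1 : ℝ) / 8 * x = x / 8 := by ring
    rw [this] at hx
    exact (le_abs_self _).trans hx
  exact ev_log.eventually h

lemma floor_ge_half {s : ℝ} (hs : 2 ≤ s) : s / 2 ≤ (⌊s⌋₊ : ℝ) := by
  have := Nat.lt_floor_add_one s
  linarith

/-- the core computation: everything expressed by `L = log y`, `l = log log y` -/
theorem surv_asymp : ∃ C : ℝ, 0 < C ∧ ∀ c : ℝ, 0 < c → c ≤ 1 → ∀ᶠ y : ℕ in atTop, ∃ w z : ℕ,
    3 ≤ w ∧ w ≤ z ∧ (z : ℝ) ≤ y / Real.log y ^ 2 ∧
    (∏ p ∈ (Icc 3 w).filter Nat.Prime, (1 - 2 / ((p : ℝ) + 1))) * ((Med w z (YY c y)).card : ℝ) ≤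
      C * c * y / Real.log y := by
  obtain ⟨C1, hC1, hSm⟩ := smooth_le2
  obtain ⟨C2, hC2, hMed⟩ := med_card_le
  obtain ⟨C4, hC4, hProd⟩ := prod_le
  set C3 : ℝ := 4 * C1 + 490000 * C2 + 1 with hC3
  have hC3pos : 0 < C3 := by positivity
  refine ⟨C3 * C4 * 1024, by positivity, fun c hc hc1 => ?_⟩
  have e0 := ev_logloglog.eventually (eventually_ge_atTop (32 : ℝ))
  have e1 := ev_loglog.eventually (eventually_ge_atTop (100 : ℝ))
  have e2 := ev_ll_pow (c / 2) (by positivity)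
  have e3 := ev_log_pow
  have e4 := ev_log.eventually (eventually_ge_atTop (1000 : ℝ))
  filter_upwards [e0, e1, e2, e3, e4, eventually_ge_atTop 2] with y e0 e1 e2 e3 e4 hy2
  set L := Real.log (y : ℝ) with hL
  set l := Real.log L with hl
  set m := Real.log l with hm
  have hy0 : (0 : ℝ) < y := by exact_mod_cast (by omega : 0 < y)
  have hyexp : (y : ℝ) = Real.exp L := by rw [hL, Real.exp_log hy0]
  have hL0 : 0 < L := by linarith
  have hl1 : 1 ≤ l := by linarith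
  have hl0 : 0 < l := by linarith
  have hl12 : 12 ≤ l := by linarith
  have hexpl : Real.exp l = L := by rw [hl, Real.exp_log hL0]
  have hm0 : 0 < m := by linarith
  have hm1 : 1 ≤ m := by linarith
  have hexpm : Real.exp m = l := by rw [hm, Real.exp_log hl0]
  have hml : m ≤ l := by
    have := Real.add_one_le_exp m
    rw [hexpm] at this
    linarith
  have hm4 : 4 * m * Real.exp (m / 2) ≤ l := by
    have h1 : 4 * m ≤ Real.exp (m / 2) := by
      have := Real.quadratic_le_exp_of_nonneg (x := m / 2) (by positivity)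
      nlinarith
    calc 4 * m * Real.exp (m / 2) ≤ Real.exp (m / 2) * Real.exp (m / 2) := by gcongr
      _ = Real.exp m := by rw [← Real.exp_add]; congr 1; ring
      _ = l := hexpm
  -- sizes of powers of `L`
  have hL2 : 1 ≤ L ^ 2 := one_le_pow₀ (by linarith)
  have hP20 : L ^ 20 ≤ Real.exp (L / 8) := e3
  have hPk : ∀ k : ℕ, k ≤ 20 → L ^ k ≤ Real.exp (L / 8) := fun k hk =>
    (pow_le_pow_right₀ (by linarith) hk).trans hP20
  have hbig : (1000 : ℝ) ≤ Real.exp (L / 8) := by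
    calc (1000 : ℝ) ≤ L ^ 1 := by linarith
      _ ≤ _ := hPk 1 (by norm_num)
  -- the parameter Y
  set Q : ℝ := c * L ^ 3 * m ^ 2 / l ^ 4 with hQ
  have hm21 : 1 ≤ m ^ 2 := one_le_pow₀ hm1
  have hQge : 2 * L ^ 2 ≤ Q := by
    rw [hQ, le_div_iff₀ (by positivity)]
    calc 2 * L ^ 2 * l ^ 4 ≤ 2 * L ^ 2 * (c / 2 * L) := by gcongr
      _ = c * L ^ 3 * 1 := by ring
      _ ≤ c * L ^ 3 * m ^ 2 := by gcongr
  have hQle : Q ≤ L ^ 3 := by
    rw [hQ, div_le_iff₀ (by positivity)]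
    have h1 : m ^ 2 ≤ l ^ 4 := by
      calc m ^ 2 ≤ l ^ 2 := by gcongr
        _ ≤ l ^ 4 := pow_le_pow_right₀ hl1 (by norm_num)
    calc c * L ^ 3 * m ^ 2 ≤ 1 * L ^ 3 * l ^ 4 := by gcongr
      _ = L ^ 3 * l ^ 4 := by ring
  have hYdef : (c * y * (L ^ 3 * m ^ 2 / l ^ 4) : ℝ) = y * Q := by rw [hQ]; ring
  set Y := YY c y with hYY
  have hYeq : Y = ⌊(y : ℝ) * Q⌋₊ := by
    rw [hYY]; unfold YY
    rw [← hL, ← hl, ← hm, hYdef]
  have hQ2 : (2 : ℝ) ≤ Q := by linarith
  have hyQ : 2 ≤ (y : ℝ) * Q := by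
    have h1 : (1 : ℝ) ≤ y := by exact_mod_cast (by omega : 1 ≤ y)
    calc (2 : ℝ) = 1 * 2 := by norm_num
      _ ≤ y * Q := by gcongr
  have hYle : (Y : ℝ) ≤ y * Q := by
    rw [hYeq]; exact Nat.floor_le (by positivity)
  have hYge : (y : ℝ) * Q / 2 ≤ Y := by
    rw [hYeq]; exact floor_ge_half hyQ
  have hYy : (y : ℝ) ≤ Y := by
    have h1 : (y : ℝ) * 2 ≤ y * Q := by gcongr
    linarith
  have hY1 : (1 : ℝ) ≤ Y := by
    have h1 : (1 : ℝ) ≤ y := by exact_mod_cast (by omega : 1 ≤ y)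
    linarith
  -- the parameter z
  set z := ⌊(y : ℝ) / L ^ 2⌋₊ with hz
  have hexp78 : Real.exp (7 * L / 8) ≤ (y : ℝ) / L ^ 2 := by
    rw [le_div_iff₀ (by positivity)]
    calc Real.exp (7 * L / 8) * L ^ 2 ≤ Real.exp (7 * L / 8) * Real.exp (L / 8) := by
          gcongr
          exact hPk 2 (by norm_num)
      _ = y := by rw [← Real.exp_add, hyexp]; congr 1; ring
  have hbig2 : (1000 : ℝ) ≤ Real.exp (7 * L / 8) := by
    refine hbig.trans (Real.exp_le_exp.mpr ?_)
    linarith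
  have hzle : (z : ℝ) ≤ y / L ^ 2 := Nat.floor_le (by positivity)
  have hzge : (y : ℝ) / L ^ 2 / 2 ≤ z := floor_ge_half (by linarith)
  have hz1 : Real.exp (6 * L / 8) ≤ z := by
    refine le_trans ?_ hzge
    have h1 : Real.exp (6 * L / 8) * 2 ≤ Real.exp (7 * L / 8) := by
      calc Real.exp (6 * L / 8) * 2 ≤ Real.exp (6 * L / 8) * Real.exp (L / 8) := by
            gcongr; linarith
        _ = _ := by rw [← Real.exp_add]; congr 1; ring
    linarith
  have hz0 : (0 : ℝ) < z := lt_of_lt_of_le (Real.exp_pos _) hz1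
  -- the parameter u
  set u := ⌊Real.exp (L / 48)⌋₊ with hu
  have hs2 : (2 : ℝ) ≤ Real.exp (L / 48) := by
    have := Real.add_one_le_exp (L / 48)
    linarith
  have hule : (u : ℝ) ≤ Real.exp (L / 48) := Nat.floor_le (Real.exp_pos _).le
  have huge : Real.exp (L / 48) / 2 ≤ u := floor_ge_half hs2
  have hu2 : 2 ≤ u := by
    apply Nat.le_floor
    exact_mod_cast hs2
  have hu0 : (0 : ℝ) < u := by exact_mod_cast (by omega : 0 < u)
  have hlogu : L / 100 ≤ Real.log u := by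
    have h1 : Real.log (Real.exp (L / 48) / 2) ≤ Real.log u := Real.log_le_log (by positivity) huge
    rw [Real.log_div (Real.exp_pos _).ne' (by norm_num), Real.log_exp] at h1
    have h2 : Real.log 2 ≤ 1 := by
      have := Real.log_two_lt_d9
      linarith
    linarith
  have huz : u ^ 2 ≤ z := by
    have h1 : (u : ℝ) ^ 2 ≤ z := by
      calc (u : ℝ) ^ 2 ≤ Real.exp (L / 48) ^ 2 := by gcongr
        _ = Real.exp (L / 24) := by rw [← Real.exp_nat_mul]; congr 1; push_cast; ring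
        _ ≤ Real.exp (6 * L / 8) := Real.exp_le_exp.mpr (by linarith)
        _ ≤ z := hz1
    exact_mod_cast h1
  have hu12 : (u : ℝ) ^ 12 ≤ Real.exp (L / 4) := by
    calc (u : ℝ) ^ 12 ≤ Real.exp (L / 48) ^ 12 := by gcongr
      _ = Real.exp (L / 4) := by rw [← Real.exp_nat_mul]; congr 1; push_cast; ring
  -- the parameter w
  set W : ℝ := Real.exp (L * m / (16 * l)) with hW
  set w := ⌊W⌋₊ with hw
  have hl4L : l ^ 4 ≤ L := by
    calc l ^ 4 ≤ c / 2 * L := e2
      _ ≤ 1 * L := by gcongr; linarith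
      _ = L := one_mul L
  have hl1600 : 1600 * l ≤ L := by
    have h3 : 1600 * l ≤ l ^ 4 := by
      have h4 : (100 : ℝ) ^ 3 ≤ l ^ 3 := by gcongr
      calc 1600 * l ≤ l ^ 3 * l := by gcongr; linarith
        _ = l ^ 4 := by ring
    linarith
  have hLAl : 100 ≤ L * m / (16 * l) := by
    rw [le_div_iff₀ (by positivity)]
    calc 100 * (16 * l) = 1600 * l * 1 := by ring
      _ ≤ L * m := by gcongr
  have hW101 : 101 ≤ W := by
    have := Real.add_one_le_exp (L * m / (16 * l))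
    rw [hW]; linarith
  have hwle : (w : ℝ) ≤ W := Nat.floor_le (by linarith)
  have hwge : W / 2 ≤ w := floor_ge_half (by linarith)
  have hw16 : 16 ≤ w := by
    apply Nat.le_floor
    push_cast
    linarith
  have hw0 : (0 : ℝ) < w := by exact_mod_cast (by omega : 0 < w)
  have hw1 : (1 : ℝ) < w := by exact_mod_cast (by omega : 1 < w)
  have hlogw0 : 0 < Real.log w := Real.log_pos hw1
  have hlogwle : Real.log w ≤ L * m / (16 * l) := by
    have h1 : Real.log w ≤ Real.log W := Real.log_le_log hw0 hwle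
    rwa [hW, Real.log_exp] at h1
  have hlogwge : L * m / (32 * l) ≤ Real.log w := by
    have h1 : Real.log (W / 2) ≤ Real.log w := Real.log_le_log (by linarith) hwge
    rw [Real.log_div (by linarith) (by norm_num), hW, Real.log_exp] at h1
    have h2 : Real.log 2 ≤ 1 := by
      have := Real.log_two_lt_d9
      linarith
    have h3 : L * m / (32 * l) = L * m / (16 * l) / 2 := by
      rw [div_div]; congr 1; ring
    rw [h3]
    linarith
  have hLm16 : L * m / (16 * l) ≤ L / 16 := by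
    rw [div_le_iff₀ (by positivity)]
    calc L * m ≤ L * l := by gcongr
      _ = L / 16 * (16 * l) := by ring
  have hlogwL : Real.log w ≤ L := by
    refine hlogwle.trans (hLm16.trans ?_)
    linarith
  have hwz : w ≤ z := by
    have h1 : (w : ℝ) ≤ z := by
      refine hwle.trans (le_trans ?_ hz1)
      rw [hW]
      apply Real.exp_le_exp.mpr
      linarith
    exact_mod_cast h1
  have hzY : z ≤ Y := by
    have h1 : (z : ℝ) ≤ Y := by
      refine hzle.trans (le_trans ?_ hYy)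
      exact div_le_self hy0.le hL2
    exact_mod_cast h1
  -- the ratio (Y+1)/z
  have hratio : ((Y : ℝ) + 1) / z ≤ L ^ 6 := by
    rw [div_le_iff₀ hz0]
    have h1 : (Y : ℝ) + 1 ≤ 2 * (y * L ^ 3) := by
      have h2 : (Y : ℝ) ≤ y * L ^ 3 := hYle.trans (by gcongr)
      have h3 : (1 : ℝ) ≤ y * L ^ 3 := hY1.trans h2
      linarith
    refine h1.trans ?_
    calc 2 * ((y : ℝ) * L ^ 3) = 4 * L ^ 5 * (y / L ^ 2 / 2) := by
          field_simp; ring
      _ ≤ L * L ^ 5 * z := by gcongr; linarith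
      _ = L ^ 6 * z := by ring
  have hratio1 : 1 ≤ ((Y : ℝ) + 1) / z := by
    rw [le_div_iff₀ hz0]
    have : (z : ℝ) ≤ Y := by exact_mod_cast hzY
    linarith
  have hlogratio : 1 + Real.log (((Y : ℝ) + 1) / z) ≤ 7 * l := by
    have h1 : Real.log (((Y : ℝ) + 1) / z) ≤ Real.log (L ^ 6) :=
      Real.log_le_log (by linarith) hratio
    rw [Real.log_pow] at h1
    push_cast at h1
    rw [← hl] at h1
    linarith
  have hlogratio0 : 0 ≤ 1 + Real.log (((Y : ℝ) + 1) / z) := by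
    have := Real.log_nonneg hratio1
    linarith
  -- smooth numbers
  have hSm' : ((Sm w (Y + 1)).card : ℝ) ≤ 2 * C1 * Y / L ^ 2 := by
    have hη : 8 * l / L ≤ 1 / 4 := by
      rw [div_le_iff₀ hL0]; linarith
    have h1 := hSm w (Y + 1) hw16 (by omega) (8 * l / L) (by positivity) hη
    push_cast at h1
    have h2 : L ≤ Real.log ((Y : ℝ) + 1) := by
      rw [hL]
      exact Real.log_le_log hy0 (by linarith)
    have h3 : 8 * l ≤ 8 * l / L * Real.log ((Y : ℝ) + 1) := by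
      calc 8 * l = 8 * l / L * L := by field_simp
        _ ≤ _ := by gcongr
    have h4 : Real.exp (-(8 * l / L * Real.log ((Y : ℝ) + 1))) ≤ (L ^ 8)⁻¹ := by
      calc Real.exp (-(8 * l / L * Real.log ((Y : ℝ) + 1))) ≤ Real.exp (-(((8 : ℕ) : ℝ) * l)) :=
            Real.exp_le_exp.mpr (by push_cast; linarith)
        _ = (L ^ 8)⁻¹ := by rw [Real.exp_neg, Real.exp_nat_mul, hexpl]
    have h5 : Real.log w ^ 4 ≤ L ^ 4 := by gcongr
    have h6 : 8 * l / L * Real.log w ≤ m / 2 := by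
      calc 8 * l / L * Real.log w ≤ 8 * l / L * (L * m / (16 * l)) := by gcongr
        _ = m / 2 := by field_simp; norm_num
    have h7 : Real.exp (8 * (8 * l / L * Real.log w) * Real.exp (8 * l / L * Real.log w)) ≤ L := by
      refine le_trans (Real.exp_le_exp.mpr ?_) hexpl.le
      calc 8 * (8 * l / L * Real.log w) * Real.exp (8 * l / L * Real.log w)
          ≤ 8 * (m / 2) * Real.exp (m / 2) := by
            gcongr
        _ = 4 * m * Real.exp (m / 2) := by ring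
        _ ≤ l := hm4
    calc ((Sm w (Y + 1)).card : ℝ) ≤ _ := h1
      _ ≤ C1 * ((Y : ℝ) + 1) * (L ^ 8)⁻¹ * L ^ 4 * L := by gcongr
      _ = C1 * ((Y : ℝ) + 1) / L ^ 3 := by
          have hLne : L ≠ 0 := hL0.ne'
          field_simp
      _ ≤ C1 * ((Y : ℝ) + 1) / L ^ 2 := by
          apply div_le_div_of_nonneg_left (by positivity) (by positivity)
          exact pow_le_pow_right₀ (by linarith) (by norm_num)
      _ ≤ C1 * (2 * Y) / L ^ 2 := by gcongr; linarith
      _ = 2 * C1 * Y / L ^ 2 := by ring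
  -- survivors of the medium primes
  have hMed' : ((Med w z Y).card : ℝ) ≤ C3 * Y * l ^ 2 / L ^ 2 := by
    have h1 := hMed w z u Y hu2 huz hzY
    have h2 : C2 * Y * (1 + Real.log (((Y : ℝ) + 1) / z)) ^ 2 / Real.log u ^ 2 ≤
        490000 * C2 * Y * l ^ 2 / L ^ 2 := by
      calc C2 * Y * (1 + Real.log (((Y : ℝ) + 1) / z)) ^ 2 / Real.log u ^ 2
          ≤ C2 * Y * (7 * l) ^ 2 / (L / 100) ^ 2 := by gcongr
        _ = 490000 * C2 * Y * l ^ 2 / L ^ 2 := by field_simp; ring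
    have h3 : (((Y : ℝ) + 1) / z) ^ 2 * (u : ℝ) ^ 12 ≤ Y * l ^ 2 / L ^ 2 := by
      calc (((Y : ℝ) + 1) / z) ^ 2 * (u : ℝ) ^ 12 ≤ (L ^ 6) ^ 2 * Real.exp (L / 4) := by
            gcongr
        _ = L ^ 12 * Real.exp (L / 4) := by ring
        _ ≤ Real.exp (L / 8) * Real.exp (L / 4) := by
            gcongr
            exact hPk 12 (by norm_num)
        _ ≤ Real.exp (7 * L / 8) := by
            rw [← Real.exp_add]
            exact Real.exp_le_exp.mpr (by linarith)
        _ ≤ (y : ℝ) / L ^ 2 := hexp78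
        _ ≤ Y * l ^ 2 / L ^ 2 := by
            gcongr
            calc (y : ℝ) ≤ Y * 1 := by linarith
              _ ≤ Y * l ^ 2 := by gcongr; exact one_le_pow₀ hl1
    have h4 : 2 * ((Sm w (Y + 1)).card : ℝ) ≤ 4 * C1 * Y * l ^ 2 / L ^ 2 := by
      calc 2 * ((Sm w (Y + 1)).card : ℝ) ≤ 2 * (2 * C1 * Y / L ^ 2) := by gcongr
        _ = 4 * C1 * Y * 1 / L ^ 2 := by ring
        _ ≤ 4 * C1 * Y * l ^ 2 / L ^ 2 := by
            gcongr
            exact one_le_pow₀ hl1
    calc ((Med w z Y).card : ℝ) ≤ _ := h1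
      _ ≤ 4 * C1 * Y * l ^ 2 / L ^ 2 + 490000 * C2 * Y * l ^ 2 / L ^ 2 + Y * l ^ 2 / L ^ 2 := by
          linarith
      _ = C3 * Y * l ^ 2 / L ^ 2 := by rw [hC3]; ring
  -- the product
  have hPr : ∏ p ∈ (Icc 3 w).filter Nat.Prime, (1 - 2 / ((p : ℝ) + 1)) ≤
      C4 * 1024 * l ^ 2 / (L ^ 2 * m ^ 2) := by
    refine (hProd w (by omega)).trans ?_
    calc C4 / Real.log w ^ 2 ≤ C4 / (L * m / (32 * l)) ^ 2 := by gcongr
      _ = C4 * 1024 * l ^ 2 / (L ^ 2 * m ^ 2) := by field_simp; ring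
  have hPr0 : 0 ≤ ∏ p ∈ (Icc 3 w).filter Nat.Prime, (1 - 2 / ((p : ℝ) + 1)) := by
    apply Finset.prod_nonneg
    intro p hp
    rw [Finset.mem_filter, Finset.mem_Icc] at hp
    have : (3 : ℝ) ≤ p := by exact_mod_cast hp.1.1
    rw [sub_nonneg, div_le_one (by linarith)]
    linarith
  refine ⟨w, z, by omega, hwz, hzle, ?_⟩
  have hQl : Q * l ^ 4 = c * L ^ 3 * m ^ 2 := by
    rw [hQ]; exact div_mul_cancel₀ _ (pow_ne_zero 4 hl0.ne')
  have hL34 : L ^ 3 * m ^ 2 / (L ^ 4 * m ^ 2) = 1 / L := by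
    rw [div_eq_div_iff (by positivity) (by positivity)]; ring
  calc _ ≤ (C4 * 1024 * l ^ 2 / (L ^ 2 * m ^ 2)) * (C3 * Y * l ^ 2 / L ^ 2) :=
        mul_le_mul hPr hMed' (Nat.cast_nonneg _) (by positivity)
    _ = C3 * C4 * 1024 * (Y * (l ^ 4 / (L ^ 4 * m ^ 2))) := by
        rw [div_mul_div_comm]
        have h1 : L ^ 2 * m ^ 2 * L ^ 2 = L ^ 4 * m ^ 2 := by ring
        rw [h1]; ring
    _ ≤ C3 * C4 * 1024 * ((y * Q) * (l ^ 4 / (L ^ 4 * m ^ 2))) := by gcongr
    _ = C3 * C4 * 1024 * y * (Q * l ^ 4) / (L ^ 4 * m ^ 2) := by ring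
    _ = C3 * C4 * 1024 * c * y * (L ^ 3 * m ^ 2 / (L ^ 4 * m ^ 2)) := by rw [hQl]; ring
    _ = C3 * C4 * 1024 * c * y / L := by rw [hL34]; ring

end Pool.Agent.LeX
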