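import Mathlib
import Pool.Agent.LeX.SumF

/-!
# LeX.AvgF: the average of F over differences of pronic numbers

x'(x'+1) - x(x+1) = (x'-x)(x'+x+1); F(2AB) <= F(2) F(A) F(B) (SumF.F_mul_le); the map
(x, x') |-> (x'-x, x'+x+1) is injective into [1,K] x [1,3K] (K >= 1), so the sum is at most
F(2)^2 (sum_{A <= K} F(A)^2) (sum_{B <= 3K} F(B)^2) <= C K^2 (SumF.sum_F_sq_le).
-/

namespace Pool.Agent.LeX

open Finset Pool.Agent.Lib.PrimePairs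

theorem sum_pronic_F : ∃ C : ℝ, 0 < C ∧ ∀ K : ℕ,
    ∑ u ∈ ((Icc 1 K) ×ˢ (Icc 1 K)).filter (fun u => u.1 < u.2),
      F (2 * (u.2 * (u.2 + 1) - u.1 * (u.1 + 1))) ^ 2 ≤ C * (K : ℝ) ^ 2 := by
  obtain ⟨C, hC0, hC⟩ := sum_F_sq_le
  have hF0 : ∀ n : ℕ, 0 ≤ F n := fun n => by
    unfold F
    exact Finset.sum_nonneg fun e _ => by positivity
  refine ⟨F 2 ^ 2 * (C * (C * 3)) + 1, by positivity, fun K => ?_⟩
  rcases Nat.eq_zero_or_pos K with hK | hK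
  · subst hK
    simp
  have hterm : ∀ u ∈ ((Icc 1 K) ×ˢ (Icc 1 K)).filter (fun u => u.1 < u.2),
      F (2 * (u.2 * (u.2 + 1) - u.1 * (u.1 + 1))) ^ 2 ≤
        F 2 ^ 2 * (F (u.2 - u.1) ^ 2 * F (u.2 + u.1 + 1) ^ 2) := by
    intro u hu
    rw [mem_filter, mem_product, mem_Icc, mem_Icc] at hu
    obtain ⟨⟨⟨h1, _⟩, _⟩, h4⟩ := hu
    have he : u.2 * (u.2 + 1) - u.1 * (u.1 + 1) = (u.2 - u.1) * (u.2 + u.1 + 1) := by
      obtain ⟨d, hd⟩ : ∃ d, u.2 = u.1 + d := ⟨u.2 - u.1, by omega⟩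
      rw [hd]
      have h5 : (u.1 + d) * (u.1 + d + 1) = u.1 * (u.1 + 1) + d * (u.1 + d + u.1 + 1) := by ring
      rw [h5, Nat.add_sub_cancel_left, Nat.add_sub_cancel_left]
    rw [he]
    have h6 : F (2 * ((u.2 - u.1) * (u.2 + u.1 + 1))) ≤
        F 2 * (F (u.2 - u.1) * F (u.2 + u.1 + 1)) :=
      (F_mul_le _ _).trans (mul_le_mul_of_nonneg_left (F_mul_le _ _) (hF0 2))
    calc F (2 * ((u.2 - u.1) * (u.2 + u.1 + 1))) ^ 2 ≤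
        (F 2 * (F (u.2 - u.1) * F (u.2 + u.1 + 1))) ^ 2 := pow_le_pow_left₀ (hF0 _) h6 2
      _ = _ := by ring
  refine (sum_le_sum hterm).trans ?_
  rw [← mul_sum]
  have hinj : Set.InjOn (fun u : ℕ × ℕ => ((u.2 - u.1, u.2 + u.1 + 1) : ℕ × ℕ))
      ((((Icc 1 K) ×ˢ (Icc 1 K)).filter (fun u => u.1 < u.2) : Finset (ℕ × ℕ)) : Set (ℕ × ℕ)) := by
    intro u hu v hv h
    have hu' := (mem_filter.1 (mem_coe.1 hu)).2
    have hv' := (mem_filter.1 (mem_coe.1 hv)).2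
    have h1 : u.2 - u.1 = v.2 - v.1 := congrArg Prod.fst h
    have h2 : u.2 + u.1 + 1 = v.2 + v.1 + 1 := congrArg Prod.snd h
    exact Prod.ext (by omega) (by omega)
  have h1 : ∑ u ∈ ((Icc 1 K) ×ˢ (Icc 1 K)).filter (fun u => u.1 < u.2),
      F (u.2 - u.1) ^ 2 * F (u.2 + u.1 + 1) ^ 2 =
      ∑ w ∈ (((Icc 1 K) ×ˢ (Icc 1 K)).filter (fun u => u.1 < u.2)).image
        (fun u : ℕ × ℕ => ((u.2 - u.1, u.2 + u.1 + 1) : ℕ × ℕ)), F w.1 ^ 2 * F w.2 ^ 2 := by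
    rw [sum_image hinj]
  have h2 : ∑ w ∈ (((Icc 1 K) ×ˢ (Icc 1 K)).filter (fun u => u.1 < u.2)).image
        (fun u : ℕ × ℕ => ((u.2 - u.1, u.2 + u.1 + 1) : ℕ × ℕ)), F w.1 ^ 2 * F w.2 ^ 2 ≤
      ∑ w ∈ (Icc 1 K) ×ˢ (Icc 1 (3 * K)), F w.1 ^ 2 * F w.2 ^ 2 := by
    refine sum_le_sum_of_subset_of_nonneg ?_ fun w _ _ => by positivity
    intro w hw
    rw [mem_image] at hw
    obtain ⟨u, hu, rfl⟩ := hw
    rw [mem_filter, mem_product, mem_Icc, mem_Icc] at hu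
    rw [mem_product, mem_Icc, mem_Icc]
    omega
  have h3 : ∑ w ∈ (Icc 1 K) ×ˢ (Icc 1 (3 * K)), F w.1 ^ 2 * F w.2 ^ 2 =
      (∑ a ∈ Icc 1 K, F a ^ 2) * ∑ b ∈ Icc 1 (3 * K), F b ^ 2 := by
    rw [sum_product, sum_mul_sum]
  have h4 : (∑ a ∈ Icc 1 K, F a ^ 2) * ∑ b ∈ Icc 1 (3 * K), F b ^ 2 ≤
      (C * K) * (C * (3 * K)) := by
    refine mul_le_mul (hC K) ?_ (sum_nonneg fun _ _ => by positivity) (by positivity)
    have := hC (3 * K)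
    push_cast at this
    exact this
  have hF2 : 0 ≤ F 2 ^ 2 := by positivity
  calc F 2 ^ 2 * ∑ u ∈ ((Icc 1 K) ×ˢ (Icc 1 K)).filter (fun u => u.1 < u.2),
      F (u.2 - u.1) ^ 2 * F (u.2 + u.1 + 1) ^ 2 ≤ F 2 ^ 2 * ((C * K) * (C * (3 * K))) := by
        refine mul_le_mul_of_nonneg_left ?_ hF2
        rw [h1]
        exact h2.trans (h3.le.trans h4)
    _ = (F 2 ^ 2 * (C * (C * 3))) * (K : ℝ) ^ 2 := by ring
    _ ≤ (F 2 ^ 2 * (C * (C * 3)) + 1) * (K : ℝ) ^ 2 := by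
        refine mul_le_mul_of_nonneg_right (by linarith) (by positivity)

end Pool.Agent.LeX
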