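import Mathlib
import Pool.Agent.LeX.Asy

/-!
# LeX.Main: the least `x` in `n = p + x (x + 1)`
-/

namespace Pool.Agent.LeX

open Finset Filter

lemma crt_class (y : ℕ) (a : ℕ → ℕ) : ∃ n0 : ℕ, ∀ n : ℕ, n ≡ n0 [MOD primorial y] →
    ∀ p : ℕ, p.Prime → p ≤ y → n ≡ a p [MOD p] := by
  classical
  obtain ⟨n0, hn0⟩ := Nat.chineseRemainderOfFinset a (fun p : ℕ => p)
    ((range (y + 1)).filter Nat.Prime)
    (fun i hi => (Finset.mem_filter.mp hi).2.ne_zero)
    (fun p hp q hq hpq => (Nat.coprime_primes (Finset.mem_filter.mp hp).2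
      (Finset.mem_filter.mp hq).2).mpr hpq)
  refine ⟨n0, fun n hn p hp hpy => ?_⟩
  have hmem : p ∈ (range (y + 1)).filter Nat.Prime := by
    rw [Finset.mem_filter, Finset.mem_range]; exact ⟨by omega, hp⟩
  have hdvd : p ∣ primorial y := Finset.dvd_prod_of_mem _ hmem
  exact (hn.of_dvd hdvd).trans (hn0 p hmem)

lemma card_primes_ge : ∀ᶠ y : ℕ in atTop, ∀ z : ℕ, (z : ℝ) ≤ y / Real.log y ^ 2 →
    (y : ℝ) / (4 * Real.log y) ≤ (((Ioc z y).filter Nat.Prime).card : ℝ) := by
  have h1 : ∀ᶠ x : ℝ in atTop, Real.log x ≤ 1 / 20 * x := by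
    have h := Real.isLittleO_log_id_atTop.bound (c := 1 / 20) (by norm_num)
    filter_upwards [h, eventually_ge_atTop (0 : ℝ)] with x hx hx0
    simp only [id, Real.norm_eq_abs] at hx
    rw [abs_of_nonneg hx0] at hx
    exact (le_abs_self _).trans hx
  have h2 := tendsto_natCast_atTop_atTop.eventually h1
  filter_upwards [h2, ev_log.eventually (eventually_ge_atTop (4 : ℝ)), eventually_ge_atTop 2]
    with y h3 h4 hy2 z hz
  have hy2' : (2 : ℝ) ≤ y := by exact_mod_cast hy2
  have hL0 : 0 < Real.log (y : ℝ) := by linarith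
  have h5 := Chebyshev.pi_ge y
  have h6 : Real.log ((y : ℝ) + 1) ≤ 1 / 10 * y := by
    have h7 : Real.log ((y : ℝ) + 1) ≤ Real.log ((y : ℝ) ^ 2) := by
      apply Real.log_le_log (by linarith)
      nlinarith
    rw [Real.log_pow] at h7
    push_cast at h7
    linarith
  have h8 : (y : ℝ) / (2 * Real.log y) ≤ (Nat.primeCounting y : ℝ) := by
    refine le_trans ?_ h5
    rw [div_le_div_iff₀ (by positivity) hL0]
    have := Real.log_two_gt_d9
    have h9 : (y : ℝ) / 2 ≤ y * Real.log 2 - Real.log ((y : ℝ) + 1) := by nlinarith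
    nlinarith
  have h10 : Nat.primeCounting y ≤ z + ((Ioc z y).filter Nat.Prime).card := by
    have h11 : Nat.primeCounting y = ((range (y + 1)).filter Nat.Prime).card := by
      rw [Nat.primeCounting, Nat.primeCounting', Nat.count_eq_card_filter_range]
    rw [h11]
    have h12 : (range (y + 1)).filter Nat.Prime ⊆ Icc 1 z ∪ (Ioc z y).filter Nat.Prime := by
      intro p hp
      rw [Finset.mem_filter, Finset.mem_range] at hp
      rw [Finset.mem_union, Finset.mem_Icc, Finset.mem_filter, Finset.mem_Ioc]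
      have := hp.2.one_lt
      by_cases h : p ≤ z
      · exact Or.inl ⟨by omega, h⟩
      · exact Or.inr ⟨⟨by omega, by omega⟩, hp.2⟩
    refine (Finset.card_le_card h12).trans ((Finset.card_union_le _ _).trans ?_)
    rw [Nat.card_Icc]
    omega
  have h13 : (Nat.primeCounting y : ℝ) ≤ z + (((Ioc z y).filter Nat.Prime).card : ℝ) := by
    exact_mod_cast h10
  have h14 : (z : ℝ) ≤ y / (4 * Real.log y) := by
    refine hz.trans ?_
    apply div_le_div_of_nonneg_left (by linarith) (by positivity)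
    nlinarith
  have h15 : (y : ℝ) / (2 * Real.log y) = y / (4 * Real.log y) + y / (4 * Real.log y) := by
    field_simp; ring
  linarith

/-- the residue classes -/
lemma exists_classes (c : ℝ) (y w z : ℕ) (hw3 : 3 ≤ w) (hwz : w ≤ z)
    (hcard : (∏ p ∈ (Icc 3 w).filter Nat.Prime, (1 - 2 / ((p : ℝ) + 1))) *
      ((Med w z (YY c y)).card : ℝ) ≤ (((Ioc z y).filter Nat.Prime).card : ℝ)) :
    ∃ a : ℕ → ℕ, a 2 = 1 ∧ ∀ x : ℕ, 1 ≤ x → x ≤ YY c y →
      ∃ q : ℕ, q.Prime ∧ (q ≤ y ∨ q ≤ z) ∧ x * (x + 1) ≡ a q [MOD q] := by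
  classical
  obtain ⟨r, hr⟩ := greedy ((Icc 3 w).filter Nat.Prime) (by
    intro p hp
    rw [Finset.mem_filter, Finset.mem_Icc] at hp
    exact ⟨hp.2, by omega⟩) (Med w z (YY c y))
  set T := (Med w z (YY c y)).filter
    (fun x => ∀ p ∈ (Icc 3 w).filter Nat.Prime, ¬ x * (x + 1) ≡ r p [MOD p]) with hT
  have hle : T.card ≤ ((Ioc z y).filter Nat.Prime).card := by
    have := hr.trans hcard
    exact_mod_cast this
  obtain ⟨φ⟩ := Function.Embedding.nonempty_of_card_le (α := T)
    (β := ((Ioc z y).filter Nat.Prime : Finset ℕ)) (by simpa using hle)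
  let a : ℕ → ℕ := fun q =>
    if q = 2 then 1 else if q ≤ w then r q else if q ≤ z then 0 else
      if h : ∃ x : T, (φ x : ℕ) = q then (h.choose : ℕ) * ((h.choose : ℕ) + 1) else 0
  refine ⟨a, by simp [a], fun x hx1 hxY => ?_⟩
  by_cases h1 : x ∈ Med w z (YY c y)
  · by_cases h2 : x ∈ T
    · -- large prime
      set q : ℕ := (φ ⟨x, h2⟩ : ℕ) with hq
      have hqm := (φ ⟨x, h2⟩).2
      rw [← hq, Finset.mem_filter, Finset.mem_Ioc] at hqm
      refine ⟨q, hqm.2, Or.inl hqm.1.2, ?_⟩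
      have hex : ∃ x' : T, (φ x' : ℕ) = q := ⟨⟨x, h2⟩, rfl⟩
      have haq : a q = (hex.choose : ℕ) * ((hex.choose : ℕ) + 1) := by
        simp only [a]
        rw [if_neg (by omega), if_neg (by omega), if_neg (by omega), dif_pos hex]
      have hxe : (hex.choose : ℕ) = x := by
        have h3 := hex.choose_spec
        have h4 : φ hex.choose = φ ⟨x, h2⟩ := Subtype.ext h3
        exact congrArg Subtype.val (φ.injective h4)
      rw [haq, hxe]
    · -- small prime
      rw [hT, Finset.mem_filter] at h2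
      push Not at h2
      obtain ⟨q, hqm, hq⟩ := h2 h1
      rw [Finset.mem_filter, Finset.mem_Icc] at hqm
      refine ⟨q, hqm.2, Or.inr (by omega), ?_⟩
      have haq : a q = r q := by
        simp only [a]
        rw [if_neg (by omega), if_pos (by omega)]
      rw [haq]
      exact hq
  · -- medium prime
    rw [mem_Med] at h1
    push Not at h1
    obtain ⟨q, hqp, hwq, hqz, hq⟩ := h1 ⟨hx1, hxY⟩
    refine ⟨q, hqp, Or.inr hqz, ?_⟩
    have haq : a q = 0 := by
      simp only [a]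
      rw [if_neg (by omega), if_neg (by omega), if_pos (by omega)]
    rw [haq]
    exact (Nat.modEq_zero_iff_dvd).mpr hq

/-- the class of integers `n` without small `x` -/
theorem core_y : ∃ c : ℝ, 0 < c ∧ ∀ᶠ y : ℕ in atTop, ∃ n0 : ℕ, ∀ n : ℕ,
    n ≡ n0 [MOD primorial y] → y ^ 5 < n → Odd n ∧
    ∀ p x : ℕ, p.Prime → 1 ≤ x → n = p + x * (x + 1) →
      c * y * (Real.log y ^ 3 * Real.log (Real.log (Real.log y)) ^ 2 /
        Real.log (Real.log y) ^ 4) < x := by
  obtain ⟨C, hC, hS⟩ := surv_asymp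
  set c : ℝ := 1 / (4 * C + 1) with hc
  have hc0 : 0 < c := by positivity
  have hc1 : c ≤ 1 := by
    rw [hc, div_le_one (by positivity)]; linarith
  have hCc : C * c ≤ 1 / 4 := by
    rw [hc, mul_one_div, div_le_div_iff₀ (by positivity) (by norm_num)]; linarith
  refine ⟨c, hc0, ?_⟩
  filter_upwards [hS c hc0 hc1, card_primes_ge,
    ev_loglog.eventually (eventually_ge_atTop (10 : ℝ)), ev_log_pow,
    ev_log.eventually (eventually_ge_atTop (1000 : ℝ)), eventually_ge_atTop 10]
    with y hS' hcp e4 e7 e8 hy10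
  obtain ⟨w, z, hw3, hwz, hz, hsur⟩ := hS'
  set L := Real.log (y : ℝ) with hL
  set l := Real.log L with hl
  set m := Real.log l with hm
  have hy0 : (0 : ℝ) < y := by exact_mod_cast (by omega : 0 < y)
  have hyR : (10 : ℝ) ≤ y := by exact_mod_cast hy10
  have hyexp : (y : ℝ) = Real.exp L := by rw [hL, Real.exp_log hy0]
  have hL0 : 0 < L := by linarith
  have hl0 : 0 < l := by linarith
  -- z ≤ y
  have hzy : z ≤ y := by
    have : (z : ℝ) ≤ y := by
      refine hz.trans ?_
      exact div_le_self hy0.le (one_le_pow₀ (by linarith))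
    exact_mod_cast this
  obtain ⟨a, ha2, ha⟩ := exists_classes c y w z hw3 hwz (by
    refine hsur.trans (le_trans ?_ (hcp z hz))
    calc C * c * y / L ≤ 1 / 4 * y / L := by gcongr
      _ = y / (4 * L) := by field_simp)
  set Y := YY c y with hY
  obtain ⟨n0, hn0⟩ := crt_class y a
  -- bounds for Y
  have hYle : (Y : ℝ) ≤ c * y * (L ^ 3 * m ^ 2 / l ^ 4) := by
    rw [hY]; unfold YY; rw [← hL, ← hl, ← hm]
    exact Nat.floor_le (by positivity)
  have hYlt : c * y * (L ^ 3 * m ^ 2 / l ^ 4) < (Y : ℝ) + 1 := by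
    rw [hY]; unfold YY; rw [← hL, ← hl, ← hm]
    exact Nat.lt_floor_add_one _
  have hm0 : 0 < m := Real.log_pos (by linarith)
  have hml : m ≤ l := by
    have := Real.log_le_sub_one_of_pos hl0
    linarith
  have hml4 : m ^ 2 ≤ l ^ 4 := by
    calc m ^ 2 ≤ l ^ 2 := by gcongr
      _ ≤ l ^ 4 := pow_le_pow_right₀ (by linarith) (by norm_num)
  have hYy2 : Y ≤ y ^ 2 := by
    have h1 : L ^ 3 ≤ y := by
      calc L ^ 3 ≤ L ^ 20 := pow_le_pow_right₀ (by linarith) (by norm_num)
        _ ≤ Real.exp (L / 8) := e7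
        _ ≤ Real.exp L := Real.exp_le_exp.mpr (by linarith)
        _ = y := hyexp.symm
    have h2 : (Y : ℝ) ≤ (y : ℝ) ^ 2 := by
      calc (Y : ℝ) ≤ c * y * (L ^ 3 * m ^ 2 / l ^ 4) := hYle
        _ ≤ 1 * y * (L ^ 3 * l ^ 4 / l ^ 4) := by gcongr
        _ = y * L ^ 3 := by
            rw [mul_div_assoc, div_self (pow_ne_zero 4 hl0.ne'), mul_one, one_mul]
        _ ≤ y * y := by gcongr
        _ = (y : ℝ) ^ 2 := by ring
    exact_mod_cast h2
  have hbig : y + Y * (Y + 1) ≤ y ^ 5 := by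
    have h1 : Y * (Y + 1) ≤ y ^ 2 * (y ^ 2 + 1) := Nat.mul_le_mul hYy2 (by omega)
    have h2 : y ≤ y ^ 4 := Nat.le_self_pow (by norm_num) y
    have h3 : y ^ 2 ≤ y ^ 4 := Nat.pow_le_pow_right (by omega) (by norm_num)
    have h4 : 3 * y ^ 4 ≤ y ^ 5 := by
      rw [pow_succ y 4, mul_comm]
      exact Nat.mul_le_mul_left _ (by omega)
    have h5 : y ^ 2 * (y ^ 2 + 1) = y ^ 4 + y ^ 2 := by ring
    omega
  refine ⟨n0, fun n hn hny => ⟨?_, ?_⟩⟩
  · have h1 := hn0 n hn 2 Nat.prime_two (by omega)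
    rw [ha2] at h1
    exact Nat.odd_iff.mpr h1
  · intro p x hp hx1 hpx
    have hxY : Y < x := by
      by_contra hcon
      push Not at hcon
      obtain ⟨q, hq, hqy, hxq⟩ := ha x hx1 hcon
      have hqy' : q ≤ y := by omega
      have h1 := (hn0 n hn q hq hqy').trans hxq.symm
      -- q ∣ p
      have h2 : q ∣ p := by
        have h3 : x * (x + 1) ≡ n [MOD q] := h1.symm
        have h4 := (Nat.modEq_iff_dvd' (by rw [hpx]; exact Nat.le_add_left _ _)).mp h3
        have h5 : n - x * (x + 1) = p := by omega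
        rwa [h5] at h4
      have h6 : q = p := (Nat.prime_dvd_prime_iff_eq hq hp).mp h2
      have h7 : x * (x + 1) ≤ Y * (Y + 1) := Nat.mul_le_mul hcon (by omega)
      omega
    have hxY' : (Y : ℝ) + 1 ≤ x := by exact_mod_cast hxY
    exact lt_of_lt_of_le hYlt hxY'

lemma ev_y (δ : ℝ) (hδ : 0 < δ) :
    Tendsto (fun X : ℕ => ⌊δ / 2 * Real.log (X : ℝ)⌋₊) atTop atTop :=
  tendsto_nat_floor_atTop.comp (ev_log.const_mul_atTop (by positivity))

theorem least_x_lower (δ : ℝ) (hδ : 0 < δ) (hδ1 : δ < 1) : ∃ c : ℝ, 0 < c ∧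
    ∀ᶠ X : ℕ in atTop, (X : ℝ) ^ (1 - δ) ≤
      (Set.ncard {n : ℕ | (X < 2 * n ∧ n ≤ X) ∧ Odd n ∧
        ∀ p x : ℕ, p.Prime → 1 ≤ x → n = p + x * (x + 1) →
          c * Real.log X * Real.log (Real.log X) ^ 3 *
            Real.log (Real.log (Real.log (Real.log X))) ^ 2 /
            Real.log (Real.log (Real.log X)) ^ 4 < x} : ℝ) := by
  classical
  obtain ⟨c, hc, hcore⟩ := core_y
  refine ⟨c * δ / 128, by positivity, ?_⟩
  have EP : ∀ᶠ X : ℕ in atTop, (Real.log (X : ℝ)) ^ 5 ≤ Real.exp (Real.log X / 2) := by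
    have h : ∀ᶠ x : ℝ in atTop, x ^ 5 ≤ Real.exp (x / 2) := by
      have h1 := (isLittleO_pow_exp_pos_mul_atTop (k := 5) (b := (1 / 2 : ℝ)) (by norm_num)).bound
        (c := 1) one_pos
      filter_upwards [h1] with x hx
      rw [Real.norm_eq_abs, Real.norm_eq_abs, one_mul, abs_of_pos (Real.exp_pos _)] at hx
      have : (1 : ℝ) / 2 * x = x / 2 := by ring
      rw [this] at hx
      exact (le_abs_self _).trans hx
    exact ev_log.eventually h
  filter_upwards [(ev_y δ hδ).eventually hcore, (ev_y δ hδ).eventually (eventually_ge_atTop 10),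
    ev_log.eventually (eventually_ge_atTop (40 / δ)), EP,
    ev_loglog.eventually (eventually_ge_atTop (2 * Real.log (4 / δ) + 10)),
    (Real.tendsto_log_atTop.comp ev_loglog).eventually (eventually_ge_atTop (10 : ℝ)),
    (Real.tendsto_log_atTop.comp (Real.tendsto_log_atTop.comp ev_loglog)).eventually
      (eventually_ge_atTop (10 : ℝ))]
    with X hcore' hy10 et eP el ell elll
  set y := ⌊δ / 2 * Real.log (X : ℝ)⌋₊ with hy
  set t := Real.log (X : ℝ) with ht
  have ht40 : 40 ≤ t := by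
    have : (40 : ℝ) ≤ 40 / δ := by
      rw [le_div_iff₀ hδ]; linarith
    linarith
  have ht0 : 0 < t := by linarith
  have hX0 : (0 : ℝ) < X := by
    by_contra hcon
    have h1 : (X : ℝ) = 0 := le_antisymm (not_lt.mp hcon) (Nat.cast_nonneg X)
    rw [ht, h1, Real.log_zero] at ht0
    exact lt_irrefl _ ht0
  have hXexp : (X : ℝ) = Real.exp t := by rw [ht, Real.exp_log hX0]
  have hδt : 40 ≤ δ * t := by
    have et' : 40 / δ ≤ t := et
    rw [div_le_iff₀ hδ] at et'
    linarith
  have hyle : (y : ℝ) ≤ δ / 2 * t := Nat.floor_le (by positivity)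
  have hyge : δ / 4 * t ≤ y := by
    have := floor_ge_half (s := δ / 2 * t) (by linarith)
    rw [← hy] at this
    linarith
  have hyR : (10 : ℝ) ≤ y := by exact_mod_cast hy10
  have hy0 : (0 : ℝ) < y := by linarith
  have hyt : (y : ℝ) ≤ t := by
    calc (y : ℝ) ≤ δ / 2 * t := hyle
      _ ≤ 1 * t := by gcongr; linarith
      _ = t := one_mul t
  -- logarithms
  set lt := Real.log t with hlt
  set L := Real.log (y : ℝ) with hL
  have hl4 : 0 ≤ Real.log (4 / δ) := Real.log_nonneg (by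
    rw [le_div_iff₀ hδ]; linarith)
  have hlt10 : 10 ≤ lt := by
    have : 2 * Real.log (4 / δ) + 10 ≤ lt := el
    linarith
  have hLge : lt / 2 ≤ L := by
    have h1 : Real.log (δ / 4 * t) ≤ L := Real.log_le_log (by positivity) hyge
    rw [Real.log_mul (by positivity) ht0.ne'] at h1
    have h2 : Real.log (δ / 4) = -Real.log (4 / δ) := by
      rw [← Real.log_inv, inv_div]
    have h3 : 2 * Real.log (4 / δ) + 10 ≤ lt := el
    rw [h2, ← hlt] at h1
    linarith
  have hLle : L ≤ lt := Real.log_le_log hy0 hyt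
  have hL0 : 0 < L := by linarith
  have hlL : Real.log L ≤ Real.log lt := Real.log_le_log hL0 hLle
  have hlL0 : 0 < Real.log L := by
    apply Real.log_pos
    linarith
  have hllt : 10 ≤ Real.log lt := ell
  have hlllt : 10 ≤ Real.log (Real.log lt) := elll
  have hlog2 : Real.log 2 ≤ 1 := by
    have := Real.log_two_lt_d9
    linarith
  have hlLge : Real.log lt / 2 ≤ Real.log L := by
    have h1 : Real.log (lt / 2) ≤ Real.log L := Real.log_le_log (by linarith) hLge
    rw [Real.log_div (by linarith) (by norm_num)] at h1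
    linarith
  have hmge : Real.log (Real.log lt) / 2 ≤ Real.log (Real.log L) := by
    have h1 : Real.log (Real.log lt / 2) ≤ Real.log (Real.log L) :=
      Real.log_le_log (by linarith) hlLge
    rw [Real.log_div (by linarith) (by norm_num)] at h1
    linarith
  -- the modulus
  set P := primorial y with hP
  have hP0 : 0 < P := primorial_pos y
  have hP0' : (0 : ℝ) < P := by exact_mod_cast hP0
  have hPle : (P : ℝ) ≤ Real.exp (0.7 * δ * t) := by
    have h1 : (P : ℝ) ≤ (4 : ℝ) ^ y := by exact_mod_cast primorial_le_four_pow y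
    refine h1.trans ?_
    have h5 : (4 : ℝ) = Real.exp (Real.log 4) := (Real.exp_log (by norm_num)).symm
    rw [h5, ← Real.exp_nat_mul]
    apply Real.exp_le_exp.mpr
    have h6 : Real.log 4 ≤ 1.4 := by
      have : (4 : ℝ) = 2 ^ 2 := by norm_num
      rw [this, Real.log_pow]
      have := Real.log_two_lt_d9
      push_cast; linarith
    have h7 : 0 < Real.log 4 := Real.log_pos (by norm_num)
    calc (y : ℝ) * Real.log 4 ≤ (δ / 2 * t) * 1.4 := by gcongr
      _ = 0.7 * δ * t := by ring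
  obtain ⟨n0, hn0⟩ := hcore'
  -- the set of integers
  have hcount := Pool.Agent.Lib.PrimePairs.abs_count_modEq_sub_le (X / 2) X P n0 (Nat.div_le_self _ _) hP0
  set S := (Ioc (X / 2) X).filter (fun n => n ≡ n0 [MOD P]) with hS
  have hSge : (X : ℝ) ^ (1 - δ) ≤ (S.card : ℝ) := by
    have h1 := (abs_le.mp hcount).1
    have h2 : ((X / 2 : ℕ) : ℝ) ≤ X / 2 := by
      have := @Nat.cast_div_le ℝ _ _ _ X 2
      push_cast at this
      exact this
    have h3 : Real.exp ((1 - 0.7 * δ) * t) / 2 ≤ ((X : ℝ) - ((X / 2 : ℕ) : ℝ)) / P := by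
      calc Real.exp ((1 - 0.7 * δ) * t) / 2 = ((X : ℝ) / 2) / Real.exp (0.7 * δ * t) := by
            rw [hXexp, div_div, mul_comm 2, ← div_div, ← Real.exp_sub]
            congr 2; ring
        _ ≤ ((X : ℝ) / 2) / P := by gcongr
        _ ≤ _ := by gcongr; linarith
    have h4 : (X : ℝ) ^ (1 - δ) = Real.exp ((1 - δ) * t) := by
      rw [Real.rpow_def_of_pos hX0, mul_comm]
    have h5 : (4 : ℝ) ≤ Real.exp (0.3 * δ * t) := by
      have h8 := Real.add_one_le_exp (0.3 * δ * t)
      have h9 : 0.3 * δ * t = 0.3 * (δ * t) := by ring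
      linarith
    have h6 : (1 : ℝ) ≤ Real.exp ((1 - δ) * t) := Real.one_le_exp
      (mul_nonneg (by linarith) ht0.le)
    have h7 : 4 * Real.exp ((1 - δ) * t) ≤ Real.exp ((1 - 0.7 * δ) * t) := by
      calc 4 * Real.exp ((1 - δ) * t) ≤ Real.exp (0.3 * δ * t) * Real.exp ((1 - δ) * t) := by
            gcongr
        _ = _ := by rw [← Real.exp_add]; congr 1; ring
    rw [h4]
    linarith
  refine hSge.trans ?_
  have hsub : (S : Set ℕ) ⊆ {n : ℕ | (X < 2 * n ∧ n ≤ X) ∧ Odd n ∧
        ∀ p x : ℕ, p.Prime → 1 ≤ x → n = p + x * (x + 1) →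
          c * δ / 128 * t * lt ^ 3 * Real.log (Real.log lt) ^ 2 / Real.log lt ^ 4 < x} := by
    intro n hn
    rw [hS, Finset.mem_coe, Finset.mem_filter, Finset.mem_Ioc] at hn
    obtain ⟨⟨h1, h2⟩, h3⟩ := hn
    have h4 : y ^ 5 < n := by
      have h5 : (y : ℝ) ^ 5 < n := by
        have h6 : (X : ℝ) / 2 < n := by
          have : X < 2 * n := by omega
          have : (X : ℝ) < 2 * n := by exact_mod_cast this
          linarith
        refine lt_of_le_of_lt ?_ h6
        calc (y : ℝ) ^ 5 ≤ t ^ 5 := by gcongr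
          _ ≤ Real.exp (t / 2) := eP
          _ ≤ X / 2 := by
              rw [hXexp, le_div_iff₀ (by norm_num)]
              calc Real.exp (t / 2) * 2 ≤ Real.exp (t / 2) * Real.exp (t / 2) := by
                    gcongr
                    have := Real.add_one_le_exp (t / 2)
                    linarith
                _ = Real.exp t := by rw [← Real.exp_add]; congr 1; ring
      exact_mod_cast h5
    obtain ⟨h7, h8⟩ := hn0 n h3 h4
    refine ⟨⟨by omega, h2⟩, h7, fun p x hp hx hpx => ?_⟩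
    refine lt_of_le_of_lt ?_ (h8 p x hp hx hpx)
    have hlt0 : 0 < Real.log lt := by linarith
    calc c * δ / 128 * t * lt ^ 3 * Real.log (Real.log lt) ^ 2 / Real.log lt ^ 4
        = c * (δ / 4 * t) * ((lt / 2) ^ 3 * (Real.log (Real.log lt) / 2) ^ 2 / Real.log lt ^ 4) := by
          ring
      _ ≤ c * y * (L ^ 3 * Real.log (Real.log L) ^ 2 / Real.log L ^ 4) := by
          gcongr
  have hfin : {n : ℕ | (X < 2 * n ∧ n ≤ X) ∧ Odd n ∧
        ∀ p x : ℕ, p.Prime → 1 ≤ x → n = p + x * (x + 1) →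
          c * δ / 128 * t * lt ^ 3 * Real.log (Real.log lt) ^ 2 / Real.log lt ^ 4 < x}.Finite :=
    (Set.finite_Iic X).subset (fun n hn => hn.1.2)
  have := Set.ncard_le_ncard hsub hfin
  rw [Set.ncard_coe_finset] at this
  exact_mod_cast this

end Pool.Agent.LeX
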