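import Mathlib
import Pool.Agent.LeX.Core
import Pool.Agent.LeX.AvgF

/-!
# LeX.Prop: the odd n = p + x(x+1) with x <= eps log n

Upper bound: for fixed x the n <= X are at most pi(X) many, x runs over 1 <= x <= eps log X
(x <= eps log n <= eps log X), so the number is <= eps log X * pi(X) <= C eps X
(pi(X) <= C X/log X: Lib/PNT pi_nat).
Lower bound: K = floor((eps/2) log X), P = X/4 (Nat division), T = {x(x+1) : 1 <= x <= K}, #T = K.
Core.romanoff_core with B = C of AvgF.sum_pronic_F (the sum over T x T equals the sum over x < x' by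
injectivity of x |-> x(x+1)); #T <= log P for large X.  Every n in the image is odd (p > P >= 2 odd,
x(x+1) even), n <= 2P + K(K+1) <= X for large X, and n > P >= sqrt X, so log n >= (1/2) log X and
x <= K <= (eps/2) log X <= eps log n.  The number is >= c K P/log P >= c' eps X
(K >= (eps/4) log X, P >= X/5, log P <= log X for large X).
-/

namespace Pool.Agent.LeX

open Finset Filter

/-- upper bound for the number of primes -/
private lemma prop_pi : ∀ᶠ n : ℕ in atTop,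
    (Nat.primeCounting n : ℝ) * Real.log n ≤ 11 / 10 * n := by
  have h := Pool.Agent.Lib.PNT.pi_nat
  have h1 : ∀ᶠ n : ℕ in atTop, (Nat.primeCounting n : ℝ) * Real.log n / n < 11 / 10 :=
    h.eventually (gt_mem_nhds (by norm_num))
  filter_upwards [h1, eventually_gt_atTop 0] with n hn hn0
  have hn' : (0 : ℝ) < n := by exact_mod_cast hn0
  rw [div_lt_iff₀ hn'] at hn
  exact hn.le

private lemma pron_lt {a b : ℕ} (h : a < b) : a * (a + 1) < b * (b + 1) := by
  have : a * (a + 1) ≤ a * (b + 1) := Nat.mul_le_mul_left _ (by omega)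
  have h2 : a * (b + 1) < b * (b + 1) := Nat.mul_lt_mul_of_pos_right h (by omega)
  omega

private lemma pron_inj : Function.Injective (fun x : ℕ => x * (x + 1)) := by
  intro a b h
  rcases lt_trichotomy a b with h1 | h1 | h1
  · exact absurd h (pron_lt h1).ne
  · exact h1
  · exact absurd h (pron_lt h1).ne'

private lemma prop_upper : ∀ ε : ℝ, 0 < ε → ∀ᶠ X : ℕ in atTop,
    (Set.ncard {n : ℕ | n ≤ X ∧ Odd n ∧ ∃ p x : ℕ, p.Prime ∧ 1 ≤ x ∧
      (x : ℝ) ≤ ε * Real.log n ∧ n = p + x * (x + 1)} : ℝ) ≤ 2 * ε * X := by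
  intro ε hε
  filter_upwards [prop_pi, eventually_ge_atTop 2] with X hX hX2
  have hXr : (2 : ℝ) ≤ X := by exact_mod_cast hX2
  have hL : 0 < Real.log X := Real.log_pos (by linarith)
  have hsub : {n : ℕ | n ≤ X ∧ Odd n ∧ ∃ p x : ℕ, p.Prime ∧ 1 ≤ x ∧
      (x : ℝ) ≤ ε * Real.log n ∧ n = p + x * (x + 1)} ⊆
      ((((range (X + 1)).filter Nat.Prime ×ˢ Icc 1 ⌊ε * Real.log X⌋₊).image
        (fun u : ℕ × ℕ => u.1 + u.2 * (u.2 + 1)) : Finset ℕ) : Set ℕ) := by
    rintro n ⟨hn, -, p, x, hp, hx1, hx2, rfl⟩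
    rw [Finset.mem_coe, Finset.mem_image]
    refine ⟨(p, x), ?_, rfl⟩
    rw [Finset.mem_product, Finset.mem_filter, Finset.mem_range, Finset.mem_Icc]
    refine ⟨⟨?_, hp⟩, hx1, ?_⟩
    · simp only
      have := Nat.zero_le (x * (x + 1))
      omega
    · apply Nat.le_floor
      refine hx2.trans ?_
      have hn0 : (0 : ℝ) < ((p + x * (x + 1) : ℕ) : ℝ) := by
        have : 0 < p + x * (x + 1) := by
          have := hp.pos
          omega
        exact_mod_cast this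
      have h1 : Real.log ((p + x * (x + 1) : ℕ) : ℝ) ≤ Real.log X :=
        Real.log_le_log hn0 (by exact_mod_cast hn)
      gcongr
  have hcard := Set.ncard_le_ncard hsub (Finset.finite_toSet _)
  rw [Set.ncard_coe_finset] at hcard
  have h1 : ((((range (X + 1)).filter Nat.Prime ×ˢ Icc 1 ⌊ε * Real.log X⌋₊).image
        (fun u : ℕ × ℕ => u.1 + u.2 * (u.2 + 1))).card : ℝ) ≤
      (Nat.primeCounting X : ℝ) * (⌊ε * Real.log X⌋₊ : ℝ) := by
    have h2 : (((range (X + 1)).filter Nat.Prime ×ˢ Icc 1 ⌊ε * Real.log X⌋₊).image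
        (fun u : ℕ × ℕ => u.1 + u.2 * (u.2 + 1))).card ≤
        Nat.primeCounting X * ⌊ε * Real.log X⌋₊ := by
      refine Finset.card_image_le.trans (le_of_eq ?_)
      rw [Finset.card_product, Nat.card_Icc, Nat.add_sub_cancel, Nat.primeCounting,
        Nat.primeCounting', Nat.count_eq_card_filter_range]
    exact_mod_cast h2
  have h2 : (⌊ε * Real.log X⌋₊ : ℝ) ≤ ε * Real.log X := Nat.floor_le (by positivity)
  calc (Set.ncard {n : ℕ | n ≤ X ∧ Odd n ∧ ∃ p x : ℕ, p.Prime ∧ 1 ≤ x ∧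
      (x : ℝ) ≤ ε * Real.log n ∧ n = p + x * (x + 1)} : ℝ) ≤
      (Nat.primeCounting X : ℝ) * (⌊ε * Real.log X⌋₊ : ℝ) := le_trans (by exact_mod_cast hcard) h1
    _ ≤ (Nat.primeCounting X : ℝ) * (ε * Real.log X) := by gcongr
    _ = ε * ((Nat.primeCounting X : ℝ) * Real.log X) := by ring
    _ ≤ ε * (11 / 10 * X) := by gcongr
    _ ≤ 2 * ε * X := by
      have : 0 < ε * X := by positivity
      linarith

private lemma prop_lower : ∃ c : ℝ, 0 < c ∧ ∀ ε : ℝ, 0 < ε → ε ≤ 1 → ∀ᶠ X : ℕ in atTop,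
    c * ε * X ≤ (Set.ncard {n : ℕ | n ≤ X ∧ Odd n ∧ ∃ p x : ℕ, p.Prime ∧ 1 ≤ x ∧
      (x : ℝ) ≤ ε * Real.log n ∧ n = p + x * (x + 1)} : ℝ) := by
  obtain ⟨B, hB, hsum⟩ := sum_pronic_F
  obtain ⟨c, hc, hcore⟩ := romanoff_core B hB.le
  refine ⟨c / 20, by positivity, fun ε hε hε1 => ?_⟩
  have ht : Tendsto (fun X : ℕ => X / 4) atTop atTop := Nat.tendsto_div_const_atTop (by norm_num)
  have hlogT : Tendsto (fun X : ℕ => Real.log (X : ℝ)) atTop atTop :=
    Real.tendsto_log_atTop.comp tendsto_natCast_atTop_atTop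
  have hsq : ∀ᶠ X : ℕ in atTop, Real.log (X : ℝ) ^ 2 ≤ 1 / 4 * (X : ℝ) := by
    have h1 : (fun x : ℝ => Real.log x ^ 2) =o[atTop] (fun x : ℝ => x) := Real.isLittleO_pow_log_id_atTop
    have h2 := (h1.bound (show (0 : ℝ) < 1 / 4 by norm_num))
    have h3 := tendsto_natCast_atTop_atTop (R := ℝ) |>.eventually h2
    filter_upwards [h3] with X hX
    rw [Real.norm_of_nonneg (by positivity), Real.norm_of_nonneg (by positivity)] at hX
    exact hX
  filter_upwards [ht.eventually hcore, hlogT.eventually_ge_atTop (4 / ε),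
    hsq, eventually_ge_atTop 1000] with X hXc hXl hXs hX
  have hXr : (1000 : ℝ) ≤ X := by exact_mod_cast hX
  set P := X / 4 with hP
  set L := Real.log (X : ℝ) with hL
  have hεL : 4 ≤ ε * L := by
    rw [div_le_iff₀ hε] at hXl
    linarith
  have hL4 : 4 ≤ L := by nlinarith
  set K := ⌊ε / 2 * L⌋₊ with hK
  have hK1 : (K : ℝ) ≤ ε / 2 * L := Nat.floor_le (by positivity)
  have hK2 : ε / 2 * L < K + 1 := Nat.lt_floor_add_one _
  have hK3 : ε / 4 * L ≤ (K : ℝ) := by linarith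
  have hK4 : (K : ℝ) ≤ L / 2 := by
    have : ε / 2 * L ≤ 1 / 2 * L := by gcongr
    linarith
  have hP1 : (X : ℝ) / 5 ≤ (P : ℝ) := by
    have h1 : X ≤ 5 * P := by omega
    have h2 : (X : ℝ) ≤ 5 * (P : ℝ) := by exact_mod_cast h1
    linarith
  have hP2 : (P : ℝ) ≤ X := by exact_mod_cast Nat.div_le_self X 4
  have hP4 : 4 * (P : ℝ) ≤ X := by
    have : 4 * P ≤ X := by omega
    exact_mod_cast this
  have hPpos : (0 : ℝ) < P := by linarith
  have hlogP : 0 < Real.log P := Real.log_pos (by linarith)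
  have hlogPL : Real.log P ≤ L := Real.log_le_log hPpos hP2
  -- `P ≥ √X`
  have hPL : L / 2 ≤ Real.log P := by
    rw [hL, ← Real.log_sqrt (by linarith)]
    apply Real.log_le_log (Real.sqrt_pos.mpr (by linarith))
    refine le_trans ?_ hP1
    rw [Real.sqrt_le_left (by linarith)]
    nlinarith
  set T := (Icc 1 K).image (fun x : ℕ => x * (x + 1)) with hT
  have hTc : T.card = K := by
    rw [hT, Finset.card_image_of_injective _ pron_inj, Nat.card_Icc, Nat.add_sub_cancel]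
  have hTl : (T.card : ℝ) ≤ Real.log P := by
    rw [hTc]
    linarith
  have hTs : ∑ u ∈ (T ×ˢ T).filter (fun u => u.1 < u.2),
      Pool.Agent.Lib.PrimePairs.F (2 * (u.2 - u.1)) ^ 2 ≤ B * (T.card : ℝ) ^ 2 := by
    rw [hTc]
    refine le_trans (le_of_eq ?_) (hsum K)
    have himg : (T ×ˢ T).filter (fun u => u.1 < u.2) =
        (((Icc 1 K) ×ˢ (Icc 1 K)).filter (fun u => u.1 < u.2)).image
          (fun u : ℕ × ℕ => ((u.1 * (u.1 + 1), u.2 * (u.2 + 1)) : ℕ × ℕ)) := by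
      ext ⟨a, b⟩
      simp only [Finset.mem_filter, Finset.mem_product, Finset.mem_image, hT, Prod.mk.injEq,
        Prod.exists]
      constructor
      · rintro ⟨⟨⟨x, hx, rfl⟩, ⟨y, hy, rfl⟩⟩, hlt⟩
        refine ⟨x, y, ⟨⟨hx, hy⟩, ?_⟩, rfl, rfl⟩
        by_contra hcon
        rcases (not_lt.mp hcon).lt_or_eq with h | h
        · exact absurd (pron_lt h) (not_lt.mpr hlt.le)
        · rw [h] at hlt
          exact lt_irrefl _ hlt
      · rintro ⟨x, y, ⟨⟨hx, hy⟩, hlt⟩, rfl, rfl⟩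
        exact ⟨⟨⟨x, hx, rfl⟩, ⟨y, hy, rfl⟩⟩, pron_lt hlt⟩
    rw [himg, Finset.sum_image]
    intro u _ v _ huv
    have h1 := congrArg Prod.fst huv
    have h2 := congrArg Prod.snd huv
    exact Prod.ext (pron_inj h1) (pron_inj h2)
  have hmain := hXc T hTl hTs
  rw [hTc] at hmain
  have hsub : (((((Ioc P (2 * P)).filter Nat.Prime ×ˢ T).image (fun u => u.1 + u.2)) : Finset ℕ) :
      Set ℕ) ⊆ {n : ℕ | n ≤ X ∧ Odd n ∧ ∃ p x : ℕ, p.Prime ∧ 1 ≤ x ∧
      (x : ℝ) ≤ ε * Real.log n ∧ n = p + x * (x + 1)} := by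
    intro n hn
    rw [Finset.mem_coe, Finset.mem_image] at hn
    obtain ⟨⟨p, t⟩, hpt, rfl⟩ := hn
    rw [Finset.mem_product, Finset.mem_filter, Finset.mem_Ioc, hT, Finset.mem_image] at hpt
    obtain ⟨⟨⟨hp1, hp2⟩, hpp⟩, x, hx, hxt⟩ := hpt
    simp only at hp1 hp2 hpp hxt
    subst hxt
    rw [Finset.mem_Icc] at hx
    have hxK : (x : ℝ) ≤ K := by exact_mod_cast hx.2
    have hx1 : (1 : ℝ) ≤ x := by exact_mod_cast hx.1
    refine ⟨?_, ?_, p, x, hpp, hx.1, ?_, rfl⟩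
    · have h1 : (p : ℝ) ≤ 2 * P := by exact_mod_cast hp2
      have h2 : (x : ℝ) * (x + 1) ≤ L ^ 2 := by
        have h3 : (x : ℝ) ≤ L / 2 := by linarith
        have h4 : (x : ℝ) + 1 ≤ L := by linarith
        nlinarith
      have h3 : ((p + x * (x + 1) : ℕ) : ℝ) ≤ X := by
        push_cast
        linarith
      exact_mod_cast h3
    · have hodd : Odd p := by
        apply hpp.odd_of_ne_two
        omega
      exact hodd.add_even (Nat.even_mul_succ_self x)
    · have h1 : Real.log P ≤ Real.log ((p + x * (x + 1) : ℕ) : ℝ) := by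
        apply Real.log_le_log hPpos
        have : P ≤ p + x * (x + 1) := by
          have := Nat.zero_le (x * (x + 1))
          omega
        exact_mod_cast this
      have h2 : ε * (L / 2) ≤ ε * Real.log ((p + x * (x + 1) : ℕ) : ℝ) := by
        gcongr
        linarith
      linarith
  have hfin : {n : ℕ | n ≤ X ∧ Odd n ∧ ∃ p x : ℕ, p.Prime ∧ 1 ≤ x ∧
      (x : ℝ) ≤ ε * Real.log n ∧ n = p + x * (x + 1)}.Finite :=
    (Set.finite_Iic X).subset fun _ hn => hn.1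
  have hle := Set.ncard_le_ncard hsub hfin
  rw [Set.ncard_coe_finset] at hle
  have hle' : ((((Ioc P (2 * P)).filter Nat.Prime ×ˢ T).image (fun u => u.1 + u.2)).card : ℝ) ≤
      (Set.ncard {n : ℕ | n ≤ X ∧ Odd n ∧ ∃ p x : ℕ, p.Prime ∧ 1 ≤ x ∧
      (x : ℝ) ≤ ε * Real.log n ∧ n = p + x * (x + 1)} : ℝ) := by exact_mod_cast hle
  refine le_trans (le_trans ?_ hmain) hle'
  rw [le_div_iff₀ hlogP]
  have hXpos : (0 : ℝ) < X := by linarith
  calc c / 20 * ε * X * Real.log P ≤ c / 20 * ε * X * L := by gcongr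
    _ = c * (ε / 4 * L) * (X / 5) := by ring
    _ ≤ c * K * P := by gcongr

theorem least_x_prop : ∃ c C : ℝ, 0 < c ∧ 0 < C ∧ ∀ ε : ℝ, 0 < ε → ε ≤ 1 → ∀ᶠ X : ℕ in atTop,
    c * ε * X ≤ (Set.ncard {n : ℕ | n ≤ X ∧ Odd n ∧ ∃ p x : ℕ, p.Prime ∧ 1 ≤ x ∧
      (x : ℝ) ≤ ε * Real.log n ∧ n = p + x * (x + 1)} : ℝ) ∧
    (Set.ncard {n : ℕ | n ≤ X ∧ Odd n ∧ ∃ p x : ℕ, p.Prime ∧ 1 ≤ x ∧
      (x : ℝ) ≤ ε * Real.log n ∧ n = p + x * (x + 1)} : ℝ) ≤ C * ε * X := by
  obtain ⟨c, hc, h⟩ := prop_lower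
  refine ⟨c, 2, hc, by norm_num, fun ε hε hε1 => ?_⟩
  filter_upwards [h ε hε hε1, prop_upper ε hε] with X h1 h2
  exact ⟨h1, h2⟩

end Pool.Agent.LeX
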